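import Pool.Agent.H79.FB.Main

/-!
# The path of the holonomies over the second factor
-/

namespace Pool.Agent.H79.FB

lemma toS_rot_const (s : ℝ) :
    toS (rot (Multiplicative.ofAdd (ContinuousMap.const Disc s))) = turn s := by
  apply Homeomorph.ext
  intro x
  change smap (rot (Multiplicative.ofAdd (ContinuousMap.const Disc s))) x = _
  rcases S3_cases x with ⟨t, rfl⟩ | ⟨y, rfl⟩
  · rw [smap_circ]
    apply S3_ext
    · rfl
    · change (0 : ℂ) = e s * 0
      rw [mul_zero]
  · rw [smap_tor]
    apply S3_ext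
    · rfl
    · change _ * e (y.2 + s) = e s * (_ * e y.2)
      rw [e_add]
      have h : ((W.toA (rot (Multiplicative.ofAdd (ContinuousMap.const Disc s)))) y).1 = y.1 := rfl
      rw [h]
      ring

/-- The conclusion of `cob` with `k` of the form `2 + l`. -/
theorem cob2 : ∃ (l : ℕ) (F : Fin (2 + l) → (CDisc ≃ₜ CDisc)) (f : Fin (2 + l) → CDisc → ℝ),
    (∀ j (p : CDisc), ¬ ‖(p : ℂ)‖ < 1 → F j p = p) ∧
    (∀ j g, IsGood g → ∀ p, F j (SU.mv g p) = SU.mv g (F j p)) ∧
    (∀ j, ContinuousOn (f j) {p : CDisc | ‖(p : ℂ)‖ < 1}) ∧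
    (∀ j g, IsGood g → ∀ p, f j (SU.mv g p) = f j p) ∧
    ∀ p : CDisc, ‖(p : ℂ)‖ < 1 → ∑ j, (f j p - f j ((F j).symm p)) = 1 := by
  obtain ⟨k, F, f, hF, hFg, hf, hfg, hsum⟩ := cob
  refine ⟨k, Fin.append (fun _ : Fin 2 => Homeomorph.refl CDisc) F,
    Fin.append (fun _ : Fin 2 => fun _ => 0) f, ?_, ?_, ?_, ?_, ?_⟩
  · intro j
    refine Fin.addCases (fun i p _ => ?_) (fun i => ?_) j
    · rw [Fin.append_left]
      rfl
    · rw [Fin.append_right]
      exact hF i
  · intro j
    refine Fin.addCases (fun i g _ p => ?_) (fun i => ?_) j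
    · rw [Fin.append_left]
      rfl
    · rw [Fin.append_right]
      exact hFg i
  · intro j
    refine Fin.addCases (fun i => ?_) (fun i => ?_) j
    · rw [Fin.append_left]
      exact continuousOn_const
    · rw [Fin.append_right]
      exact hf i
  · intro j
    refine Fin.addCases (fun i g _ p => ?_) (fun i => ?_) j
    · rw [Fin.append_left]
    · rw [Fin.append_right]
      exact hfg i
  · intro p hp
    rw [Fin.sum_univ_add]
    simp only [Fin.append_left, Fin.append_right]
    rw [hsum p hp]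
    simp

/-- **Theorem.** There is `k` such that for all integers `n`, `N` there is a `C^0`-flat
`S^3`-bundle over `Σ_2 × Σ_k` with `r₁ = -2`, `s₁ = n`, `r₂ = 0`, `s₂ = N`. The holonomies
`a_i`, `b_i` commute with the rotations `turn s`, and the holonomies `c_j` can be
joined to the identity by paths `c_j(s)`, which commute with the `a_i`, `b_i`, such that
`[c_1(s), d_1] ⋯ [c_k(s), d_k] = turn (s N)` for all `s`. -/
theorem exists_bundle_path : ∃ l : ℕ, ∀ n N : ℤ, ∃ E : FlatBundle 2 (2 + l),
    E.r₁ = -2 ∧ E.s₁ = n ∧ E.r₂ = 0 ∧ E.s₂ = N ∧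
    (∀ i s, (E.a i).1 * turn s = turn s * (E.a i).1) ∧
    (∀ i s, (E.b i).1 * turn s = turn s * (E.b i).1) ∧
    ∃ c : Fin (2 + l) → ℝ → (S3 ≃ₜ S3), (∀ j, Continuous fun y : ℝ × S3 => c j y.1 y.2) ∧
      (∀ j, c j 0 = 1) ∧ (∀ j, c j 1 = (E.c j).1) ∧
      (∀ i j s, (E.a i).1 * c j s = c j s * (E.a i).1) ∧
      (∀ i j s, (E.b i).1 * c j s = c j s * (E.b i).1) ∧
      ∀ s, prodComm (fun j => c j s) (fun j => (E.d j).1) = turn (s * N) := by
  obtain ⟨l, F, f, hF, hFg, hf, hfg, hsum⟩ := cob2
  refine ⟨l, fun n N => ?_⟩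
  -- the functions on the open disc
  let fj : ℝ → Fin (2 + l) → C(Disc, ℝ) := fun s j => ⟨fun p => s * f j (cd p), by
    have h1 : Continuous fun p : Disc => f j (cd p) := by
      have h2 := (hf j).comp_continuous continuous_cd (fun p => norm_cd_lt p)
      exact h2
    exact continuous_const.mul h1⟩
  let c : ℝ → Fin (2 + l) → W := fun s j => rot (Multiplicative.ofAdd (fj s j))
  let d : Fin (2 + l) → W := fun j => Dw n (F j) (hF j)
  have hgood : ∀ l : ℕ, IsGood (gen (beta * om ^ l)) := fun l => isGood_bz l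
  -- commutation
  have hcd : ∀ s j l, Bz l ∈ CommSub n (c s j) := fun s j l => by
    change Commute (Lft.toW n (Bz l)) (c s j)
    apply rot_comm
    intro p
    change s * f j (cd ((Lft.toW n (Bz l)).r p)) = s * f j (cd p)
    rw [W.cd_r, Lft.toW_F]
    have h1 : (Bz l).g = gen (beta * om ^ l) := rfl
    rw [h1, hfg j _ (hgood l)]
  have hdd : ∀ j l, Bz l ∈ CommSub n (d j) := fun j l => by
    change Commute (Lft.toW n (Bz l)) (d j)
    exact Dw_comm n (F j) (hF j) _ (fun p => hFg j _ (hgood l) p)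
  have htd : ∀ (s : ℝ) l, Bz l ∈
      CommSub n (rot (Multiplicative.ofAdd (ContinuousMap.const Disc s))) := fun s l => by
    change Commute (Lft.toW n (Bz l)) _
    exact rot_comm _ _ _ (fun _ => rfl)
  -- the relator
  have hrel : ∀ s, prodComm (c s) d =
      rot (Multiplicative.ofAdd (ContinuousMap.const Disc s)) := by
    intro s
    have h1 : ∀ j, c s j * d j * (c s j)⁻¹ * (d j)⁻¹ =
        rot (Multiplicative.ofAdd (fj s j - (fj s j).comp (d j).rs)) := fun j => comm_rot _ _
    unfold prodComm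
    simp_rw [h1]
    have h2 : (List.ofFn fun j =>
        rot (Multiplicative.ofAdd (fj s j - (fj s j).comp (d j).rs))).prod =
        rot (List.ofFn fun j =>
          Multiplicative.ofAdd (fj s j - (fj s j).comp (d j).rs)).prod := by
      rw [map_list_prod, List.map_ofFn]
      rfl
    rw [h2, List.prod_ofFn]
    congr 1
    rw [← ofAdd_sum]
    congr 1
    ext p
    rw [ContinuousMap.sum_apply, ContinuousMap.const_apply]
    have h3 := hsum (cd p) p.2
    have h4 : ∀ j, (fj s j - (fj s j).comp (d j).rs) p =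
        s * (f j (cd p) - f j ((F j).symm (cd p))) := fun j => by
      change s * f j (cd p) - s * f j (cd ((d j).rs p)) = _
      rw [W.cd_rs]
      have h5 : (d j).F = F j := rfl
      rw [h5]
      ring
    simp_rw [h4]
    rw [← Finset.mul_sum, h3, mul_one]
  have hR1 : prodComm (fun i => toT (Lft.toW n (ga i))) (fun i => toT (Lft.toW n (gb i))) =
      shift (-2) n := by
    rw [← toT_Kc, ← rel_Lft, ← prodComm_map, ← prodComm_map]
  have hR2 : prodComm (fun j => toT (c N j)) (fun j => toT (d j)) = shift 0 N := by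
    rw [← toT_rot_const, ← hrel, ← prodComm_map]
  have hR3 : ∀ s, prodComm (fun j => toS (c s j)) (fun j => toS (d j)) = turn s := fun s => by
    rw [← toS_rot_const, ← hrel, ← prodComm_map]
  have cm : ∀ (x : Lft) (w : W), x ∈ CommSub n w → toT (Lft.toW n x) * toT w =
      toT w * toT (Lft.toW n x) := fun x w hx => by
    have h : Lft.toW n x * w = w * Lft.toW n x := hx
    rw [← map_mul, h, map_mul]
  have cm' : ∀ (x : Lft) (w : W), x ∈ CommSub n w → toS (Lft.toW n x) * toS w =
      toS w * toS (Lft.toW n x) := fun x w hx => by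
    have h : Lft.toW n x * w = w * Lft.toW n x := hx
    rw [← map_mul, h, map_mul]
  refine ⟨{
    a := fun i => toT (Lft.toW n (ga i))
    b := fun i => toT (Lft.toW n (gb i))
    c := fun j => toT (c N j)
    d := fun j => toT (d j)
    lifted_a := fun i => isLifted_toT _ (ga_mem (IsoSub n) (iso_Bz n) i)
    lifted_b := fun i => isLifted_toT _ (gb_mem (IsoSub n) (iso_Bz n) i)
    lifted_c := fun j => isLifted_toT _ (iso_rot _)
    lifted_d := fun j => isLifted_toT _ (iso_Dw _ _ _)
    comm_ac := fun i j => cm _ _ (ga_mem _ (hcd N j) i)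
    comm_ad := fun i j => cm _ _ (ga_mem _ (hdd j) i)
    comm_bc := fun i j => cm _ _ (gb_mem _ (hcd N j) i)
    comm_bd := fun i j => cm _ _ (gb_mem _ (hdd j) i)
    r₁ := -2
    s₁ := n
    r₂ := 0
    s₂ := N
    relator₁ := hR1
    relator₂ := hR2 }, rfl, rfl, rfl, rfl, ?_, ?_, fun j s => toS (c (s * N) j), ?_, ?_, ?_, ?_, ?_,
      fun s => hR3 (s * N)⟩
  · intro i s
    rw [← toS_rot_const]
    exact cm' _ _ (ga_mem _ (htd s) i)
  · intro i s
    rw [← toS_rot_const]
    exact cm' _ _ (gb_mem _ (htd s) i)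
  · intro j
    have h1 := continuous_smap_family (fun s : ℝ => c (s * N) j) continuous_snd (by
      change Continuous fun y : ℝ × Disc => y.1 * N * f j (cd y.2)
      have h2 := (hf j).comp_continuous continuous_cd (fun p => norm_cd_lt p)
      have h3 : Continuous fun y : ℝ × Disc => f j (cd y.2) := h2.comp continuous_snd
      exact (continuous_fst.mul continuous_const).mul h3)
    exact h1
  · intro j
    have h1 : fj (0 * N) j = 0 := by
      ext p
      change 0 * (N : ℝ) * f j (cd p) = 0
      ring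
    change toS (rot (Multiplicative.ofAdd (fj (0 * N) j))) = 1
    rw [h1, ofAdd_zero, map_one, map_one]
  · intro j
    change toS (c (1 * N) j) = toS (c N j)
    rw [one_mul]
  · intro i j s
    exact cm' _ _ (ga_mem _ (hcd (s * N) j) i)
  · intro i j s
    exact cm' _ _ (gb_mem _ (hcd (s * N) j) i)
end Pool.Agent.H79.FB
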