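import Pool.Agent.H79.FB.Milnor
import Pool.Agent.H79.FB.Path

/-!
# The final theorem
-/

namespace Pool.Agent.H79.FB

lemma Lh_Kc (t : ℝ) : Lh Kc t = t - 1 := by
  rw [Lh_eq]
  rfl

lemma pd_fst_Kc (q : Disc × ℝ) : (pd Kc 1 q).1 = q.1 := by
  apply Subtype.ext
  change (pj 1 1 (tor q)).1.1 = _
  rw [pj_one]
  rfl

lemma pd_fst_Kc' (q : Disc × ℝ) : (pd 1 Kc q).1 = q.1 := by
  apply Subtype.ext
  change (pj 1 1 (tor q)).1.1 = _
  rw [pj_one]
  rfl

lemma toM_Kc_left : toM (Kc, 1) = shift (-1) 0 := by
  refine Prod.ext (Homeomorph.ext pj_one) (Prod.ext ?_ ?_)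
  · apply Homeomorph.ext
    intro t
    change Lh Kc t = t + ((-1 : ℤ) : ℝ)
    rw [Lh_Kc]
    push_cast
    ring
  · apply Homeomorph.ext
    intro q
    change pd Kc 1 q = (q.1, q.2 + ((0 : ℤ) : ℝ))
    refine Prod.ext (pd_fst_Kc q) ?_
    change Lh 1 q.2 = _
    rw [Lh_one]
    push_cast
    ring

lemma toM_Kc_right : toM (1, Kc) = shift 0 (-1) := by
  refine Prod.ext (Homeomorph.ext pj_one) (Prod.ext ?_ ?_)
  · apply Homeomorph.ext
    intro t
    change Lh 1 t = t + ((0 : ℤ) : ℝ)
    rw [Lh_one]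
    push_cast
    ring
  · apply Homeomorph.ext
    intro q
    change pd 1 Kc q = (q.1, q.2 + ((-1 : ℤ) : ℝ))
    refine Prod.ext (pd_fst_Kc' q) ?_
    change Lh Kc q.2 = _
    rw [Lh_Kc]
    push_cast
    ring

/-- The elements whose projective action on the first coordinate is isotopic to the identity. -/
noncomputable def IsoL : Subgroup Lft where
  carrier := {x | IsotopicToId (pjS (x.g, 1))}
  mul_mem' := fun {x y} hx hy => by
    have := isotopic_mul hx hy
    rw [← map_mul, Prod.mk_mul_mk, one_mul] at this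
    exact this
  one_mem' := by
    change IsotopicToId (pjS 1)
    rw [map_one]
    have h := isotopic_of_path (fun _ => 1) continuous_snd rfl
    exact h
  inv_mem' := fun {x} hx => by
    have := isotopic_inv hx
    rw [← map_inv, Prod.inv_mk, inv_one] at this
    exact this

/-- The elements whose projective action on the second coordinate is isotopic to the identity. -/
noncomputable def IsoR : Subgroup Lft where
  carrier := {x | IsotopicToId (pjS (1, x.g))}
  mul_mem' := fun {x y} hx hy => by
    have := isotopic_mul hx hy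
    rw [← map_mul, Prod.mk_mul_mk, one_mul] at this
    exact this
  one_mem' := by
    change IsotopicToId (pjS 1)
    rw [map_one]
    have h := isotopic_of_path (fun _ => 1) continuous_snd rfl
    exact h
  inv_mem' := fun {x} hx => by
    have := isotopic_inv hx
    rw [← map_inv, Prod.inv_mk, inv_one] at this
    exact this

lemma continuous_gen_a (b : ℂ) :
    Continuous fun s : unitInterval => (gen (((s : ℝ) : ℂ) * b)).a := by
  change Continuous fun s : unitInterval =>
    ((Real.sqrt (1 + ‖((s : ℝ) : ℂ) * b‖ ^ 2) : ℝ) : ℂ)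
  fun_prop

lemma continuous_gen_b (b : ℂ) :
    Continuous fun s : unitInterval => (gen (((s : ℝ) : ℂ) * b)).b := by
  change Continuous fun s : unitInterval => ((s : ℝ) : ℂ) * b
  fun_prop

lemma Bz_mem_IsoL (k : ℕ) : Bz k ∈ IsoL := by
  have h := isotopic_of_path
    (fun s : unitInterval => pjS (gen (((s : ℝ) : ℂ) * (beta * om ^ k)), 1)) ?_ ?_
  · have h1 : (((1 : unitInterval) : ℝ) : ℂ) * (beta * om ^ k) = beta * om ^ k := by simp
    simp only [h1] at h
    exact h
  · simp only [pjS_apply]
    exact continuous_pj_family (fun s : unitInterval => gen (((s : ℝ) : ℂ) * (beta * om ^ k)))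
      (fun _ => 1) (continuous_gen_a _) (continuous_gen_b _) continuous_const continuous_const
  · have h4 : (((0 : unitInterval) : ℝ) : ℂ) * (beta * om ^ k) = 0 := by simp
    simp only [h4]
    rw [gen_zero]
    exact map_one pjS

lemma Bz_mem_IsoR (k : ℕ) : Bz k ∈ IsoR := by
  have h := isotopic_of_path
    (fun s : unitInterval => pjS (1, gen (((s : ℝ) : ℂ) * (beta * om ^ k)))) ?_ ?_
  · have h1 : (((1 : unitInterval) : ℝ) : ℂ) * (beta * om ^ k) = beta * om ^ k := by simp
    simp only [h1] at h
    exact h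
  · simp only [pjS_apply]
    exact continuous_pj_family (fun _ => 1)
      (fun s : unitInterval => gen (((s : ℝ) : ℂ) * (beta * om ^ k)))
      continuous_const continuous_const (continuous_gen_a _) (continuous_gen_b _)
  · have h4 : (((0 : unitInterval) : ℝ) : ℂ) * (beta * om ^ k) = 0 := by simp
    simp only [h4]
    rw [gen_zero]
    exact map_one pjS

lemma isLifted_one : IsLifted 1 := by
  have h := isLifted_toM 1 (by
    have := IsoL.one_mem
    exact this)
  rw [map_one] at h
  exact h

/-- The trivial bundle. -/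
noncomputable def trivialBundle (g k : ℕ) : FlatBundle g k where
  a := fun _ => 1
  b := fun _ => 1
  c := fun _ => 1
  d := fun _ => 1
  lifted_a := fun _ => isLifted_one
  lifted_b := fun _ => isLifted_one
  lifted_c := fun _ => isLifted_one
  lifted_d := fun _ => isLifted_one
  comm_ac := fun _ _ => rfl
  comm_ad := fun _ _ => rfl
  comm_bc := fun _ _ => rfl
  comm_bd := fun _ _ => rfl
  r₁ := 0
  s₁ := 0
  r₂ := 0
  s₂ := 0
  relator₁ := by
    unfold prodComm
    rw [List.prod_eq_one]
    · have h := toT_rot_const 0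
      have h2 : (ContinuousMap.const Disc ((0 : ℤ) : ℝ)) = 0 := by
        ext p
        simp
      rw [h2, ofAdd_zero, map_one, map_one] at h
      exact h
    · intro x hx
      rw [List.mem_ofFn] at hx
      obtain ⟨i, rfl⟩ := hx
      simp
  relator₂ := by
    unfold prodComm
    rw [List.prod_eq_one]
    · have h := toT_rot_const 0
      have h2 : (ContinuousMap.const Disc ((0 : ℤ) : ℝ)) = 0 := by
        ext p
        simp
      rw [h2, ofAdd_zero, map_one, map_one] at h
      exact h
    · intro x hx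
      rw [List.mem_ofFn] at hx
      obtain ⟨i, rfl⟩ := hx
      simp

lemma prodComm_append {G : Type} [Group G] {k l : ℕ} (a b : Fin k → G) :
    prodComm (Fin.append a (fun _ : Fin l => 1)) (Fin.append b (fun _ : Fin l => 1)) =
      prodComm a b := by
  unfold prodComm
  have h : (fun i => Fin.append a (fun _ : Fin l => 1) i * Fin.append b (fun _ : Fin l => 1) i *
      (Fin.append a (fun _ : Fin l => 1) i)⁻¹ * (Fin.append b (fun _ : Fin l => 1) i)⁻¹) =
      Fin.append (fun i => a i * b i * (a i)⁻¹ * (b i)⁻¹) (fun _ : Fin l => (1 : G)) := by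
    funext i
    refine Fin.addCases (fun i => ?_) (fun i => ?_) i
    · simp only [Fin.append_left]
    · simp only [Fin.append_right]
      simp
  rw [h, List.ofFn_fin_append, List.prod_append]
  have h2 : (List.ofFn fun _ : Fin l => (1 : G)).prod = 1 := by
    apply List.prod_eq_one
    intro x hx
    rw [List.mem_ofFn] at hx
    obtain ⟨i, rfl⟩ := hx
    rfl
  rw [h2, mul_one]

lemma comm_append {G : Type} [Group G] {k l : ℕ} (x : G) (c : Fin k → G)
    (h : ∀ j, x * c j = c j * x) (j : Fin (k + l)) :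
    x * Fin.append c (fun _ : Fin l => 1) j = Fin.append c (fun _ : Fin l => 1) j * x := by
  refine Fin.addCases (fun i => ?_) (fun i => ?_) j
  · rw [Fin.append_left]
    exact h i
  · rw [Fin.append_right, mul_one, one_mul]

lemma lifted_append {k l : ℕ} (c : Fin k → Triple) (h : ∀ j, IsLifted (c j)) (j : Fin (k + l)) :
    IsLifted (Fin.append c (fun _ : Fin l => 1) j) := by
  refine Fin.addCases (fun i => ?_) (fun i => ?_) j
  · rw [Fin.append_left]
    exact h i
  · rw [Fin.append_right]
    exact isLifted_one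

lemma toM_comm (x y : Lft) : toM (x, 1) * toM (1, y) = toM (1, y) * toM (x, 1) := by
  rw [← map_mul, ← map_mul, Prod.mk_mul_mk, Prod.mk_mul_mk, one_mul, one_mul, mul_one, mul_one]

/-- The fibrewise join of two of Milnor's flat plane bundles with Euler number `± 1`. -/
noncomputable def milnorBundle (l : ℕ) : FlatBundle 2 (2 + l) where
  a := fun i => toM (ga i, 1)
  b := fun i => toM (gb i, 1)
  c := Fin.append (fun i => toM (1, ga i)) (fun _ : Fin l => 1)
  d := Fin.append (fun i => toM (1, gb i)) (fun _ : Fin l => 1)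
  lifted_a := fun i => isLifted_toM _ (ga_mem IsoL Bz_mem_IsoL i)
  lifted_b := fun i => isLifted_toM _ (gb_mem IsoL Bz_mem_IsoL i)
  lifted_c := lifted_append _ (fun i => isLifted_toM _ (ga_mem IsoR Bz_mem_IsoR i))
  lifted_d := lifted_append _ (fun i => isLifted_toM _ (gb_mem IsoR Bz_mem_IsoR i))
  comm_ac := fun _ => comm_append _ _ (fun _ => toM_comm _ _)
  comm_ad := fun _ => comm_append _ _ (fun _ => toM_comm _ _)
  comm_bc := fun _ => comm_append _ _ (fun _ => toM_comm _ _)
  comm_bd := fun _ => comm_append _ _ (fun _ => toM_comm _ _)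
  r₁ := -1
  s₁ := 0
  r₂ := 0
  s₂ := -1
  relator₁ := by
    have h1 := prodComm_map (toM.comp (MonoidHom.inl Lft Lft)) ga gb
    rw [rel_Lft] at h1
    exact h1.trans toM_Kc_left
  relator₂ := by
    rw [prodComm_append]
    have h1 := prodComm_map (toM.comp (MonoidHom.inr Lft Lft)) ga gb
    rw [rel_Lft] at h1
    exact h1.trans toM_Kc_right

/-- All pairs (Euler number, even Pontryagin number) over three copies of the fixed base. -/
theorem all_pairs (l : ℕ)
    (h : ∀ n N : ℤ, ∃ E : FlatBundle 2 (2 + l), E.r₁ = -2 ∧ E.s₁ = n ∧ E.r₂ = 0 ∧ E.s₂ = N)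
    (u v : ℤ) : ∃ E : Fin 3 → FlatBundle 2 (2 + l), ∑ i, (E i).euler = u ∧
      ∑ i, (E i).pontryagin = 2 * v := by
  obtain ⟨E₁, a1, a2, a3, a4⟩ := h v 1
  rcases Int.even_or_odd' u with ⟨w, hw | hw⟩
  · obtain ⟨E₂, b1, b2, b3, b4⟩ := h 0 (-w - 1)
    refine ⟨![E₁, E₂, trivialBundle 2 (2 + l)], ?_, ?_⟩
    · rw [Fin.sum_univ_three]
      change E₁.euler + E₂.euler + (trivialBundle 2 (2 + l)).euler = u
      unfold FlatBundle.euler
      rw [a1, a2, a3, a4, b1, b2, b3, b4]
      change -2 * 1 + 0 * v + (-2 * (-w - 1) + 0 * 0) + (0 * 0 + 0 * 0) = u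
      rw [hw]
      ring
    · rw [Fin.sum_univ_three]
      change E₁.pontryagin + E₂.pontryagin + (trivialBundle 2 (2 + l)).pontryagin = 2 * v
      unfold FlatBundle.pontryagin
      rw [a1, a2, a3, a4, b1, b2, b3, b4]
      change 2 * (-2 * 0 + v * 1) + 2 * (-2 * 0 + 0 * (-w - 1)) + 2 * (0 * 0 + 0 * 0) = 2 * v
      ring
  · obtain ⟨E₂, b1, b2, b3, b4⟩ := h 0 (-w - 1)
    refine ⟨![E₁, E₂, milnorBundle l], ?_, ?_⟩
    · rw [Fin.sum_univ_three]
      change E₁.euler + E₂.euler + (milnorBundle l).euler = u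
      unfold FlatBundle.euler
      rw [a1, a2, a3, a4, b1, b2, b3, b4]
      change -2 * 1 + 0 * v + (-2 * (-w - 1) + 0 * 0) + (-1 * -1 + 0 * 0) = u
      rw [hw]
      ring
    · rw [Fin.sum_univ_three]
      change E₁.pontryagin + E₂.pontryagin + (milnorBundle l).pontryagin = 2 * v
      unfold FlatBundle.pontryagin
      rw [a1, a2, a3, a4, b1, b2, b3, b4]
      change 2 * (-2 * 0 + v * 1) + 2 * (-2 * 0 + 0 * (-w - 1)) + 2 * (-1 * 0 + 0 * -1) = 2 * v
      ring

end Pool.Agent.H79.FB
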