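import Pool.Agent.H79.FB.Final

/-!
# The holonomy homomorphism and the bordism classes
-/

namespace Pool.Agent.H79.FB

/-- The fundamental group of the closed oriented surface of genus `g`: generators
`a_i = (i, false)`, `b_i = (i, true)`, relation `[a_1, b_1] ⋯ [a_g, b_g] = 1`. -/
abbrev SurfaceGroup (g : ℕ) : Type :=
  PresentedGroup ({prodComm (fun i => FreeGroup.of (i, false)) (fun i => FreeGroup.of (i, true))} :
    Set (FreeGroup (Fin g × Bool)))

/-- The generators with their images. -/
def genMap {G : Type} {g : ℕ} (a b : Fin g → G) : Fin g × Bool → G :=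
  fun x => if x.2 then b x.1 else a x.1

/-- The homomorphism from the surface group with given images of the generators. -/
noncomputable def ofPair {G : Type} [Group G] {g : ℕ} (a b : Fin g → G) (h : prodComm a b = 1) :
    SurfaceGroup g →* G :=
  PresentedGroup.toGroup (f := genMap a b) (by
    intro r hr
    rw [Set.mem_singleton_iff] at hr
    rw [hr, ← prodComm_map]
    simp only [FreeGroup.lift_apply_of, genMap]
    simpa using h)

lemma ofPair_a {G : Type} [Group G] {g : ℕ} (a b : Fin g → G) (h : prodComm a b = 1) (i : Fin g) :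
    ofPair a b h (PresentedGroup.of (i, false)) = a i := by
  unfold ofPair
  rw [PresentedGroup.toGroup.of]
  rfl

lemma ofPair_b {G : Type} [Group G] {g : ℕ} (a b : Fin g → G) (h : prodComm a b = 1) (i : Fin g) :
    ofPair a b h (PresentedGroup.of (i, true)) = b i := by
  unfold ofPair
  rw [PresentedGroup.toGroup.of]
  rfl

lemma range_ofPair {G : Type} [Group G] {g : ℕ} (a b : Fin g → G) (h : prodComm a b = 1)
    (S : Subgroup G) (ha : ∀ i, a i ∈ S) (hb : ∀ i, b i ∈ S) (x : SurfaceGroup g) :
    ofPair a b h x ∈ S := by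
  have h1 : ∀ z : FreeGroup (Fin g × Bool), FreeGroup.lift (genMap a b) z ∈ S := by
    intro z
    induction z using FreeGroup.induction_on with
    | C1 => rw [map_one]; exact S.one_mem
    | of i =>
      rw [FreeGroup.lift_apply_of]
      unfold genMap
      split_ifs
      · exact hb _
      · exact ha _
    | inv_of i hi => rw [map_inv]; exact S.inv_mem hi
    | mul x y hx hy => rw [map_mul]; exact S.mul_mem hx hy
  obtain ⟨z, rfl⟩ := PresentedGroup.mk_surjective _ x
  exact h1 z

lemma commute_ofPair {G : Type} [Group G] {g k : ℕ} (a b : Fin g → G) (c d : Fin k → G)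
    (h : prodComm a b = 1) (h' : prodComm c d = 1) (hac : ∀ i j, a i * c j = c j * a i)
    (had : ∀ i j, a i * d j = d j * a i) (hbc : ∀ i j, b i * c j = c j * b i)
    (hbd : ∀ i j, b i * d j = d j * b i) (x : SurfaceGroup g) (y : SurfaceGroup k) :
    Commute (ofPair a b h x) (ofPair c d h' y) := by
  have h1 : ∀ z : G, (∀ i, Commute (a i) z) → (∀ i, Commute (b i) z) →
      ∀ x, Commute (ofPair a b h x) z := by
    intro z ha hb x
    have := range_ofPair a b h (Subgroup.centralizer {z})
      (fun i => Subgroup.mem_centralizer_singleton_iff.2 (ha i).eq)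
      (fun i => Subgroup.mem_centralizer_singleton_iff.2 (hb i).eq) x
    exact Subgroup.mem_centralizer_singleton_iff.1 this
  have h2 : ∀ z : G, (∀ j, Commute (c j) z) → (∀ j, Commute (d j) z) →
      ∀ y, Commute (ofPair c d h' y) z := by
    intro z ha hb y
    have := range_ofPair c d h' (Subgroup.centralizer {z})
      (fun i => Subgroup.mem_centralizer_singleton_iff.2 (ha i).eq)
      (fun i => Subgroup.mem_centralizer_singleton_iff.2 (hb i).eq) y
    exact Subgroup.mem_centralizer_singleton_iff.1 this
  apply h1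
  · intro i
    exact (h2 _ (fun j => (hac i j).symm) (fun j => (had i j).symm) y).symm
  · intro i
    exact (h2 _ (fun j => (hbc i j).symm) (fun j => (hbd i j).symm) y).symm

lemma shift_fst {g : ℕ} {a b : Fin g → Triple} {r s : ℤ} (h : prodComm a b = shift r s) :
    prodComm (fun i => (a i).1) (fun i => (b i).1) = 1 := by
  have h1 := prodComm_map (MonoidHom.fst (S3 ≃ₜ S3) ((ℝ ≃ₜ ℝ) × ((Disc × ℝ) ≃ₜ (Disc × ℝ)))) a b
  rw [h] at h1
  exact h1

/-- The holonomy homomorphism `π_1(Σ_g × Σ_k) → Homeo_0(S^3)` of the flat bundle. -/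
noncomputable def FlatBundle.holonomy {g k : ℕ} (E : FlatBundle g k) :
    SurfaceGroup g × SurfaceGroup k →* (S3 ≃ₜ S3) :=
  MonoidHom.noncommCoprod
    (ofPair (fun i => (E.a i).1) (fun i => (E.b i).1) (shift_fst E.relator₁))
    (ofPair (fun j => (E.c j).1) (fun j => (E.d j).1) (shift_fst E.relator₂))
    (commute_ofPair _ _ _ _ _ _
      (fun i j => congrArg Prod.fst (E.comm_ac i j)) (fun i j => congrArg Prod.fst (E.comm_ad i j))
      (fun i j => congrArg Prod.fst (E.comm_bc i j)) (fun i j => congrArg Prod.fst (E.comm_bd i j)))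

/-- Every holonomy homeomorphism is isotopic to the identity. -/
theorem FlatBundle.isotopic_holonomy {g k : ℕ} (E : FlatBundle g k)
    (x : SurfaceGroup g × SurfaceGroup k) : IsotopicToId (E.holonomy x) := by
  let S : Subgroup (S3 ≃ₜ S3) :=
    { carrier := {h | IsotopicToId h}
      mul_mem' := fun hx hy => isotopic_mul hx hy
      one_mem' := isotopic_of_path (fun _ => 1) continuous_snd rfl
      inv_mem' := fun hx => isotopic_inv hx }
  have h1 := range_ofPair (fun i => (E.a i).1) (fun i => (E.b i).1) (shift_fst E.relator₁) S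
    (fun i => (E.lifted_a i).iso) (fun i => (E.lifted_b i).iso) x.1
  have h2 := range_ofPair (fun i => (E.c i).1) (fun i => (E.d i).1) (shift_fst E.relator₂) S
    (fun i => (E.lifted_c i).iso) (fun i => (E.lifted_d i).iso) x.2
  exact S.mul_mem h1 h2

/-- The formal properties of the bordism classes of the oriented `S^3`-bundles over
closed oriented 4-manifolds which are used in the corollary:

* `Ω` is the group of the bordism classes, with disjoint union as addition; the signature
  of the base, the Euler number and the Pontryagin number are homomorphisms which together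
  are injective;
* `flat x v` means that the class `x` contains a `C^0`-flat bundle over a closed oriented
  4-manifold of simplicial volume `v`; disjoint unions of flat bundles are flat, and the trivial
  bundles over sums of copies of `± CP^2` are flat, with simplicial volume `0`;
* `vol g k` is the simplicial volume of `Σ_g × Σ_k`; a flat bundle `E : FlatBundle g k` has
  the Euler number `E.euler` and the Pontryagin number `E.pontryagin`. -/
structure BordismTheory where
  Ω : Type
  [group : AddCommGroup Ω]
  signature : Ω →+ ℤ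
  euler : Ω →+ ℤ
  pontryagin : Ω →+ ℤ
  eq_zero : ∀ x, signature x = 0 → euler x = 0 → pontryagin x = 0 → x = 0
  flat : Ω → ℝ → Prop
  flat_add : ∀ {x y v w}, flat x v → flat y w → flat (x + y) (v + w)
  flat_signature : ∀ n : ℤ, ∃ x, flat x 0 ∧ signature x = n ∧ euler x = 0 ∧ pontryagin x = 0
  vol : ℕ → ℕ → ℝ
  flat_bundle : ∀ {g k : ℕ} (E : FlatBundle g k), ∃ x, flat x (vol g k) ∧ signature x = 0 ∧
    euler x = E.euler ∧ pontryagin x = E.pontryagin

attribute [instance] BordismTheory.group

/-- The classes with even Pontryagin number. -/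
theorem BordismTheory.bounded_even (T : BordismTheory) {k : ℕ}
    (h : ∀ u v : ℤ, ∃ E : Fin 3 → FlatBundle 2 k, ∑ i, (E i).euler = u ∧
      ∑ i, (E i).pontryagin = 2 * v) (x : T.Ω) (hx : Even (T.pontryagin x)) :
    T.flat x (3 * T.vol 2 k) := by
  obtain ⟨v, hv⟩ := hx
  obtain ⟨E, h1, h2⟩ := h (T.euler x) v
  obtain ⟨y, y1, y2, y3, y4⟩ := T.flat_signature (T.signature x)
  obtain ⟨a, a1, a2, a3, a4⟩ := T.flat_bundle (E 0)
  obtain ⟨b, b1, b2, b3, b4⟩ := T.flat_bundle (E 1)
  obtain ⟨c, c1, c2, c3, c4⟩ := T.flat_bundle (E 2)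
  have h3 := T.flat_add (T.flat_add (T.flat_add a1 b1) c1) y1
  rw [Fin.sum_univ_three] at h1 h2
  have h4 : a + b + c + y - x = 0 := by
    apply T.eq_zero
    · simp only [map_sub, map_add, a2, b2, c2, y2]
      ring
    · simp only [map_sub, map_add, a3, b3, c3, y3]
      linarith
    · simp only [map_sub, map_add, a4, b4, c4, y4]
      linarith
  rw [sub_eq_zero.1 h4] at h3
  have h5 : T.vol 2 k + T.vol 2 k + T.vol 2 k + 0 = 3 * T.vol 2 k := by ring
  rw [h5] at h3
  exact h3

/-- If every class is flat (Mather-Thurston), then every class is flat over a base of bounded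
simplicial volume. -/
theorem BordismTheory.bounded (T : BordismTheory) {k : ℕ}
    (h : ∀ u v : ℤ, ∃ E : Fin 3 → FlatBundle 2 k, ∑ i, (E i).euler = u ∧
      ∑ i, (E i).pontryagin = 2 * v) (hMT : ∀ x, ∃ v, T.flat x v) :
    ∃ C : ℝ, ∀ x, ∃ v ≤ C, T.flat x v := by
  by_cases h0 : ∃ y, ¬ Even (T.pontryagin y)
  · obtain ⟨y, hy⟩ := h0
    obtain ⟨w, hw⟩ := hMT y
    refine ⟨max (3 * T.vol 2 k) (3 * T.vol 2 k + w), fun x => ?_⟩
    by_cases hx : Even (T.pontryagin x)
    · exact ⟨_, le_max_left _ _, T.bounded_even h x hx⟩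
    · refine ⟨_, le_max_right _ _, ?_⟩
      have h1 : Even (T.pontryagin (x - y)) := by
        rw [map_sub, Int.even_sub]
        tauto
      have h2 := T.flat_add (T.bounded_even h _ h1) hw
      rw [sub_add_cancel] at h2
      exact h2
  · push Not at h0
    exact ⟨3 * T.vol 2 k, fun x => ⟨_, le_rfl, T.bounded_even h x (h0 x)⟩⟩

end Pool.Agent.H79.FB
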