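import Pool.Agent.H79.FB.Wgp

/-!
# The Alexander trick

Proof. For `0 < s ≤ 1` let `Φ_s p = s • F (p / s)` if `‖p‖ < s` (or `≤ s`) and `p` otherwise;
`Φ_0 = id`.
The inverse is the same construction for `F.symm`. Joint continuity: with the extension
`E : ℂ → ℂ` of `F` by the identity off the closed disc (continuous, because `F` is the identity on the
unit circle) and the function `D v = E v - v` (continuous, bounded by `2`, zero off the disc)
`Φ_s p = p + s D (p / s)` for `s ≠ 0` and `p` for `s = 0`. At points `(s₀, p₀)` with `s₀ ≠ 0` this is a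
composition of continuous maps (it can be written `p + s D (p / s)` for all `s`, as
`0 * D _ = 0`), and at `s₀ = 0` the norm of `s D (p/s)` is `≤ 2 s → 0`.
-/

namespace Pool.Agent.H79.FB

private lemma max_pos' (v : ℂ) : (0 : ℝ) < max 1 ‖v‖ := lt_of_lt_of_le one_pos (le_max_left _ _)

/-- The radial retraction onto the closed disc. -/
private noncomputable def alPr (v : ℂ) : CDisc :=
  ⟨v / ((max 1 ‖v‖ : ℝ) : ℂ), by
    rw [norm_div, Complex.norm_real, Real.norm_eq_abs, abs_of_pos (max_pos' v),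
      div_le_one (max_pos' v)]
    exact le_max_right _ _⟩

private lemma continuous_alPr : Continuous alPr := by
  unfold alPr
  refine Continuous.subtype_mk ?_ _
  refine Continuous.div continuous_id ?_ ?_
  · exact Complex.continuous_ofReal.comp (continuous_const.max continuous_norm)
  · intro v
    exact Complex.ofReal_ne_zero.2 (max_pos' v).ne'

private lemma alPr_of_le {v : ℂ} (h : ‖v‖ ≤ 1) : alPr v = ⟨v, h⟩ := by
  apply Subtype.ext
  simp [alPr, max_eq_left h]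

private lemma norm_alPr_of_ge {v : ℂ} (h : 1 ≤ ‖v‖) : ‖((alPr v : CDisc) : ℂ)‖ = 1 := by
  have h1 : ((alPr v : CDisc) : ℂ) = v / ((max 1 ‖v‖ : ℝ) : ℂ) := rfl
  rw [h1, max_eq_right h, norm_div, Complex.norm_real, Real.norm_eq_abs,
    abs_of_pos (lt_of_lt_of_le one_pos h), div_self (lt_of_lt_of_le one_pos h).ne']

private noncomputable def alD (F : CDisc ≃ₜ CDisc) (v : ℂ) : ℂ :=
  ((F (alPr v) : CDisc) : ℂ) - ((alPr v : CDisc) : ℂ)

private lemma continuous_alD (F : CDisc ≃ₜ CDisc) : Continuous (alD F) := by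
  unfold alD
  have h := continuous_alPr
  exact (continuous_subtype_val.comp (F.continuous.comp h)).sub (continuous_subtype_val.comp h)

private lemma alD_of_ge {F : CDisc ≃ₜ CDisc} (hF : ∀ p : CDisc, ¬ ‖(p : ℂ)‖ < 1 → F p = p) {v : ℂ}
    (h : 1 ≤ ‖v‖) : alD F v = 0 := by
  unfold alD
  rw [hF _ (by rw [norm_alPr_of_ge h]; exact lt_irrefl _), sub_self]

private lemma norm_alD_le (F : CDisc ≃ₜ CDisc) (v : ℂ) : ‖alD F v‖ ≤ 2 := by
  unfold alD
  refine (norm_sub_le _ _).trans ?_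
  have h1 := (F (alPr v)).2
  have h2 := (alPr v).2
  linarith

private noncomputable def alT (F : CDisc ≃ₜ CDisc) (s : ℝ) (p : ℂ) : ℂ :=
  p + (s : ℂ) * alD F (p / (s : ℂ))

private lemma alT_zero (F : CDisc ≃ₜ CDisc) (p : ℂ) : alT F 0 p = p := by
  simp [alT]

private lemma norm_div_pos {s : ℝ} (hs : 0 < s) (p : ℂ) : ‖p / (s : ℂ)‖ = ‖p‖ / s := by
  rw [norm_div, Complex.norm_real, Real.norm_eq_abs, abs_of_pos hs]

private lemma alT_of_ge {F : CDisc ≃ₜ CDisc} (hF : ∀ p : CDisc, ¬ ‖(p : ℂ)‖ < 1 → F p = p) {s : ℝ}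
    (hs : 0 < s) {p : ℂ} (h : s ≤ ‖p‖) : alT F s p = p := by
  unfold alT
  rw [alD_of_ge hF, mul_zero, add_zero]
  rw [norm_div_pos hs, le_div_iff₀ hs, one_mul]
  exact h

private lemma alT_of_le (F : CDisc ≃ₜ CDisc) {s : ℝ} (hs : 0 < s) {p : ℂ}
    (h : ‖p / (s : ℂ)‖ ≤ 1) : alT F s p = (s : ℂ) * ((F ⟨p / (s : ℂ), h⟩ : CDisc) : ℂ) := by
  unfold alT alD
  rw [alPr_of_le h]
  have hs' : (s : ℂ) ≠ 0 := Complex.ofReal_ne_zero.2 hs.ne'
  field_simp
  ring

private lemma alT_inv {F G : CDisc ≃ₜ CDisc} (hF : ∀ p : CDisc, ¬ ‖(p : ℂ)‖ < 1 → F p = p)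
    (hG : ∀ p : CDisc, ¬ ‖(p : ℂ)‖ < 1 → G p = p) (hGF : ∀ p, G (F p) = p) {s : ℝ} (hs : 0 ≤ s)
    (p : ℂ) : alT G s (alT F s p) = p := by
  rcases hs.eq_or_lt with h0 | h0
  · rw [← h0, alT_zero, alT_zero]
  rcases le_total s ‖p‖ with h | h
  · rw [alT_of_ge hF h0 h, alT_of_ge hG h0 h]
  · have h1 : ‖p / (s : ℂ)‖ ≤ 1 := by
      rw [norm_div_pos h0, div_le_one h0]; exact h
    have hs' : (s : ℂ) ≠ 0 := Complex.ofReal_ne_zero.2 h0.ne'
    rw [alT_of_le F h0 h1]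
    have h2 : (s : ℂ) * ((F ⟨p / (s : ℂ), h1⟩ : CDisc) : ℂ) / (s : ℂ)
        = ((F ⟨p / (s : ℂ), h1⟩ : CDisc) : ℂ) := by
      rw [mul_div_assoc, mul_div_cancel₀ _ hs']
    have h3 : ‖(s : ℂ) * ((F ⟨p / (s : ℂ), h1⟩ : CDisc) : ℂ) / (s : ℂ)‖ ≤ 1 := by
      rw [h2]; exact (F ⟨p / (s : ℂ), h1⟩).2
    rw [alT_of_le G h0 h3]
    have h4 : (⟨(s : ℂ) * ((F ⟨p / (s : ℂ), h1⟩ : CDisc) : ℂ) / (s : ℂ), h3⟩ : CDisc)
        = F ⟨p / (s : ℂ), h1⟩ := Subtype.ext h2
    rw [h4, hGF]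
    show (s : ℂ) * (p / (s : ℂ)) = p
    rw [mul_div_cancel₀ _ hs']

private lemma norm_alT_le {F : CDisc ≃ₜ CDisc} (hF : ∀ p : CDisc, ¬ ‖(p : ℂ)‖ < 1 → F p = p) {s : ℝ}
    (hs : 0 ≤ s) (hs1 : s ≤ 1) {p : ℂ} (hp : ‖p‖ ≤ 1) : ‖alT F s p‖ ≤ 1 := by
  rcases hs.eq_or_lt with h0 | h0
  · rw [← h0, alT_zero]; exact hp
  rcases le_total s ‖p‖ with h | h
  · rw [alT_of_ge hF h0 h]; exact hp
  · have h1 : ‖p / (s : ℂ)‖ ≤ 1 := by
      rw [norm_div_pos h0, div_le_one h0]; exact h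
    rw [alT_of_le F h0 h1, norm_mul, Complex.norm_real, Real.norm_eq_abs, abs_of_pos h0]
    have h2 := (F ⟨p / (s : ℂ), h1⟩).2
    nlinarith [norm_nonneg ((F ⟨p / (s : ℂ), h1⟩ : CDisc) : ℂ)]

private lemma continuousAt_alT (F : CDisc ≃ₜ CDisc) (y : ℝ × ℂ) (hy : 0 ≤ y.1) :
    ContinuousAt (fun y : ℝ × ℂ => alT F y.1 y.2) y := by
  rcases hy.eq_or_lt with h0 | h0
  · have e : (fun y : ℝ × ℂ => alT F y.1 y.2) y = y.2 + 0 := by
      simp only [← h0, alT_zero, add_zero]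
    unfold ContinuousAt
    rw [e]
    have h1 : Filter.Tendsto (fun y : ℝ × ℂ => y.2) (nhds y) (nhds y.2) :=
      continuous_snd.tendsto y
    have h2 : Filter.Tendsto (fun y : ℝ × ℂ => (y.1 : ℂ) * alD F (y.2 / (y.1 : ℂ))) (nhds y)
        (nhds 0) := by
      rw [tendsto_zero_iff_norm_tendsto_zero]
      have h3 : Filter.Tendsto (fun y : ℝ × ℂ => |y.1| * 2) (nhds y) (nhds 0) := by
        have h4 : Continuous (fun y : ℝ × ℂ => |y.1| * 2) := by fun_prop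
        have h5 := h4.tendsto y
        simpa [← h0] using h5
      refine squeeze_zero (fun _ => norm_nonneg _) (fun z => ?_) h3
      rw [norm_mul, Complex.norm_real, Real.norm_eq_abs]
      exact mul_le_mul_of_nonneg_left (norm_alD_le F _) (abs_nonneg _)
    exact h1.add h2
  · have hs' : (y.1 : ℂ) ≠ 0 := Complex.ofReal_ne_zero.2 h0.ne'
    have h1 : ContinuousAt (fun y : ℝ × ℂ => (y.1 : ℂ)) y :=
      (Complex.continuous_ofReal.comp continuous_fst).continuousAt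
    have h2 : ContinuousAt (fun y : ℝ × ℂ => y.2 / (y.1 : ℂ)) y :=
      continuousAt_snd.div h1 hs'
    have h3 : ContinuousAt (fun y : ℝ × ℂ => alD F (y.2 / (y.1 : ℂ))) y :=
      ContinuousAt.comp (continuous_alD F).continuousAt h2
    exact continuousAt_snd.add (h1.mul h3)

private lemma continuous_alT {F : CDisc ≃ₜ CDisc}
    (hF : ∀ p : CDisc, ¬ ‖(p : ℂ)‖ < 1 → F p = p) :
    Continuous fun y : unitInterval × CDisc =>
      (⟨alT F y.1 y.2, norm_alT_le hF y.1.2.1 y.1.2.2 y.2.2⟩ : CDisc) := by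
  refine Continuous.subtype_mk ?_ _
  rw [continuous_iff_continuousAt]
  intro y
  have h1 : ContinuousAt (fun y : unitInterval × CDisc => (((y.1 : ℝ), (y.2 : ℂ)) : ℝ × ℂ)) y := by
    apply Continuous.continuousAt
    fun_prop
  exact ContinuousAt.comp (f := fun y : unitInterval × CDisc => (((y.1 : ℝ), (y.2 : ℂ)) : ℝ × ℂ))
    (g := fun y : ℝ × ℂ => alT F y.1 y.2) (continuousAt_alT F _ y.1.2.1) h1

theorem alexander (F : CDisc ≃ₜ CDisc) (hF : ∀ p : CDisc, ¬ ‖(p : ℂ)‖ < 1 → F p = p) :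
    ∃ Φ : unitInterval → (CDisc ≃ₜ CDisc), (∀ p, Φ 0 p = p) ∧ (∀ p, Φ 1 p = F p) ∧
      (∀ s (p : CDisc), ¬ ‖(p : ℂ)‖ < 1 → Φ s p = p) ∧
      Continuous fun y : unitInterval × CDisc => Φ y.1 y.2 := by
  have hG : ∀ p : CDisc, ¬ ‖(p : ℂ)‖ < 1 → F.symm p = p := by
    intro p hp
    rw [Homeomorph.symm_apply_eq, hF p hp]
  refine ⟨fun s =>
    { toFun := fun p => ⟨alT F s p, norm_alT_le hF s.2.1 s.2.2 p.2⟩
      invFun := fun p => ⟨alT F.symm s p, norm_alT_le hG s.2.1 s.2.2 p.2⟩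
      left_inv := fun p => Subtype.ext (alT_inv hF hG (fun p => F.symm_apply_apply p) s.2.1 _)
      right_inv := fun p => Subtype.ext (alT_inv hG hF (fun p => F.apply_symm_apply p) s.2.1 _)
      continuous_toFun := (continuous_alT hF).comp (Continuous.prodMk_right s)
      continuous_invFun := (continuous_alT hG).comp (Continuous.prodMk_right s) },
    fun p => ?_, fun p => ?_, fun s p hp => ?_, ?_⟩
  · apply Subtype.ext
    show alT F ((0 : unitInterval) : ℝ) p = p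
    rw [Set.Icc.coe_zero, alT_zero]
  · apply Subtype.ext
    show alT F ((1 : unitInterval) : ℝ) p = F p
    have h : ‖(p : ℂ) / ((1 : ℝ) : ℂ)‖ ≤ 1 := by
      rw [norm_div_pos one_pos, div_one]; exact p.2
    have h2 : (⟨(p : ℂ) / ((1 : ℝ) : ℂ), h⟩ : CDisc) = p := Subtype.ext (by simp)
    rw [Set.Icc.coe_one, alT_of_le F one_pos h, h2, Complex.ofReal_one, one_mul]
  · apply Subtype.ext
    show alT F (s : ℝ) p = p
    rcases (s.2.1).eq_or_lt with h0 | h0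
    · rw [← h0, alT_zero]
    · exact alT_of_ge hF h0 (s.2.2.trans (not_lt.1 hp))
  · exact continuous_alT hF

end Pool.Agent.H79.FB
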