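import Pool.Agent.H79.FB.Good

/-!
# The arithmetic group is a group and contains the generators

Proof. `ω = om` satisfies `ω^4 = -1` (`om_four`), `conj ω = -ω^3` (`conj_om`),
`√2 = ω - ω^3` (`csqrt_two`), `beta * beta = 2 + 2√2` (`beta_sq`).

* one: `x = (1,0,0,0)`, `y = 0`.
* inv: `(g⁻¹).a = conj g.a`, `(g⁻¹).b = - g.b`:
  `conj (ev x) = ev (x0, -x3, -x2, -x1)`; so the new pair is `(x0, -x3, -x2, -x1)` and `-y`.
* mul: `(g h).a = g.a h.a + g.b conj h.b`, `(g h).b = g.a h.b + g.b conj h.a`. With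
  `ev x * ev y = ev (x ⋆ y)` for the negacyclic product `⋆`
  `(x0 y0 - x1 y3 - x2 y2 - x3 y1, x0 y1 + x1 y0 - x2 y3 - x3 y2,
    x0 y2 + x1 y1 + x2 y0 - x3 y3, x0 y3 + x1 y2 + x2 y1 + x3 y0)` and
  `beta^2 = 2 (1 + ω - ω^3)` one has
  `(g h).a = ev (x ⋆ x' + 2 (1,1,0,-1) ⋆ (y ⋆ conj y'))` and
  `(g h).b = beta * ev (x ⋆ y' + y ⋆ conj x')`. The parity conditions are preserved: modulo 2,
  `x0 x0' - x1 x3' - x2 x2' - x3 x1' ≡ 1 - (x1 x3' + x3 x1') ≡ 1` because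
  `x1 ≡ x3`, `x1' ≡ x3'` (so `x1 x3' + x3 x1' ≡ 2 x1 x1'`), the coordinate 2 is
  `≡ x1 x1' - x3 x3' ≡ 0`, and the difference of the coordinates 1 and 3 is
  `≡ (x1' + x1) - (x3' + x3) ≡ 0`.
* `bz k`: `a = 1 + √2 = ev (1,1,0,-1)` (`bz_a`), `b = beta * ω^k` (`bz_b`), and `ω^k = ev y` for some
  `y` by induction on `k` (`ω * ev y = ev (-y3, y0, y1, y2)`).
-/

namespace Pool.Agent.H79.FB

open ComplexConjugate

/-- The negacyclic product. -/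
def A1_star (x y : Fin 4 → ℤ) : Fin 4 → ℤ :=
  ![x 0 * y 0 - x 1 * y 3 - x 2 * y 2 - x 3 * y 1, x 0 * y 1 + x 1 * y 0 - x 2 * y 3 - x 3 * y 2,
    x 0 * y 2 + x 1 * y 1 + x 2 * y 0 - x 3 * y 3, x 0 * y 3 + x 1 * y 2 + x 2 * y 1 + x 3 * y 0]

/-- The conjugation. -/
def A1_cj (x : Fin 4 → ℤ) : Fin 4 → ℤ := ![x 0, - x 3, - x 2, - x 1]

lemma A1_ev_vec (a b c d : ℤ) : ev ![a, b, c, d] = a + b * om + c * om ^ 2 + d * om ^ 3 := rfl

lemma A1_ev_star (x y : Fin 4 → ℤ) : ev x * ev y = ev (A1_star x y) := by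
  unfold A1_star
  rw [A1_ev_vec]
  unfold ev
  push_cast
  linear_combination ((x 1 * y 3 + x 2 * y 2 + x 3 * y 1 : ℂ) + (x 2 * y 3 + x 3 * y 2) * om +
    x 3 * y 3 * om ^ 2) * om_four

lemma A1_ev_cj (x : Fin 4 → ℤ) : conj (ev x) = ev (A1_cj x) := by
  unfold A1_cj
  rw [A1_ev_vec]
  unfold ev
  simp only [map_add, map_mul, map_pow, map_intCast, conj_om]
  push_cast
  linear_combination (x 2 * om ^ 2 - x 3 * om * (om ^ 4 - 1) : ℂ) * om_four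

lemma A1_ev_add (x y : Fin 4 → ℤ) : ev x + ev y = ev (x + y) := by
  unfold ev
  simp only [Pi.add_apply]
  push_cast
  ring

lemma A1_ev_neg (x : Fin 4 → ℤ) : - ev x = ev (-x) := by
  unfold ev
  simp only [Pi.neg_apply]
  push_cast
  ring

lemma A1_beta : (beta : ℂ) * beta = ev ![2, 2, 0, -2] := by
  rw [A1_ev_vec, ← Complex.ofReal_mul, beta_sq]
  push_cast
  linear_combination 2 * csqrt_two

theorem isGood_one : IsGood 1 := by
  refine ⟨![1, 0, 0, 0], 0, ?_, ?_, ?_, ?_, ?_⟩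
  · rw [SU.one_a, A1_ev_vec]; simp
  · rw [SU.one_b]; simp [ev]
  · exact odd_one
  · exact Even.zero
  · exact Even.zero

theorem isGood_inv {g : SU} (hg : IsGood g) : IsGood g⁻¹ := by
  obtain ⟨x, y, ha, hb, h0, h2, h13⟩ := hg
  refine ⟨A1_cj x, -y, ?_, ?_, ?_, ?_, ?_⟩
  · rw [SU.inv_a, ha, A1_ev_cj]
  · rw [SU.inv_b, hb, ← A1_ev_neg]; ring
  · exact h0
  · show Even (- x 2)
    exact h2.neg
  · show Even (- x 3 - - x 1)
    have h : - x 3 - - x 1 = x 1 - x 3 := by ring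
    rw [h]
    exact h13

theorem isGood_mul {g h : SU} (hg : IsGood g) (hh : IsGood h) : IsGood (g * h) := by
  obtain ⟨x, y, ha, hb, h0, h2, h13⟩ := hg
  obtain ⟨x', y', ha', hb', h0', h2', h13'⟩ := hh
  refine ⟨A1_star x x' + A1_star ![2, 2, 0, -2] (A1_star y (A1_cj y')),
    A1_star x y' + A1_star y (A1_cj x'), ?_, ?_, ?_, ?_, ?_⟩
  · rw [SU.mul_a, ha, ha', hb, hb', ← A1_ev_add, ← A1_ev_star, ← A1_ev_star, ← A1_ev_star,
      ← A1_ev_cj, ← A1_beta, map_mul, Complex.conj_ofReal]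
    ring
  · rw [SU.mul_b, ha, ha', hb, hb', ← A1_ev_add, ← A1_ev_star, ← A1_ev_star, ← A1_ev_cj]
    ring
  · obtain ⟨a, ha⟩ := h0
    obtain ⟨a', ha'⟩ := h0'
    obtain ⟨c, hc⟩ := h2
    obtain ⟨d, hd⟩ := h13
    obtain ⟨d', hd'⟩ := h13'
    have e1 : x 1 = x 3 + 2 * d := by linarith
    have e1' : x' 1 = x' 3 + 2 * d' := by linarith
    simp only [A1_star, A1_cj, Pi.add_apply]
    show Odd ((x 0 * x' 0 - x 1 * x' 3 - x 2 * x' 2 - x 3 * x' 1) + _)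
    refine Odd.add_even ?_ ?_
    · rw [ha, ha', hc, e1, e1']
      refine ⟨2 * a * a' + a + a' - d * x' 3 - x 3 * x' 3 - c * x' 2 - x 3 * d', ?_⟩
      ring
    · set w : Fin 4 → ℤ := A1_star y (A1_cj y') with hw
      show Even (2 * w 0 - 2 * w 3 - 0 * w 2 - (-2) * w 1)
      exact ⟨w 0 - w 3 + w 1, by ring⟩
  · obtain ⟨c, hc⟩ := h2
    obtain ⟨c', hc'⟩ := h2'
    obtain ⟨d, hd⟩ := h13
    obtain ⟨d', hd'⟩ := h13'
    have e1 : x 1 = x 3 + 2 * d := by linarith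
    have e1' : x' 1 = x' 3 + 2 * d' := by linarith
    show Even ((x 0 * x' 2 + x 1 * x' 1 + x 2 * x' 0 - x 3 * x' 3) + _)
    refine Even.add ?_ ?_
    · rw [hc, hc', e1, e1']
      refine ⟨x 0 * c' + x 3 * d' + d * x' 3 + 2 * d * d' + c * x' 0, ?_⟩
      ring
    · set w : Fin 4 → ℤ := A1_star y (A1_cj y') with hw
      show Even (2 * w 2 + 2 * w 1 + 0 * w 0 - (-2) * w 3)
      exact ⟨w 2 + w 1 + w 3, by ring⟩
  · obtain ⟨a, ha⟩ := h0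
    obtain ⟨a', ha'⟩ := h0'
    obtain ⟨c, hc⟩ := h2
    obtain ⟨c', hc'⟩ := h2'
    obtain ⟨d, hd⟩ := h13
    obtain ⟨d', hd'⟩ := h13'
    have e1 : x 1 = x 3 + 2 * d := by linarith
    have e1' : x' 1 = x' 3 + 2 * d' := by linarith
    set w : Fin 4 → ℤ := A1_star y (A1_cj y') with hw
    show Even (((x 0 * x' 1 + x 1 * x' 0 - x 2 * x' 3 - x 3 * x' 2) +
        (2 * w 1 + 2 * w 0 - 0 * w 3 - (-2) * w 2)) -
      ((x 0 * x' 3 + x 1 * x' 2 + x 2 * x' 1 + x 3 * x' 0) +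
        (2 * w 3 + 2 * w 2 + 0 * w 1 + (-2) * w 0)))
    rw [hc, hc', e1, e1']
    refine ⟨x 0 * d' + d * x' 0 - c * x' 3 - x 3 * c' + w 1 + w 0 + w 2 -
      ((x 3 + 2 * d) * c' + c * (x' 3 + 2 * d') + w 3 + w 2 - w 0), ?_⟩
    ring

lemma A1_pow (k : ℕ) : ∃ y : Fin 4 → ℤ, om ^ k = ev y := by
  induction k with
  | zero => exact ⟨![1, 0, 0, 0], by rw [A1_ev_vec]; simp⟩
  | succ k ih =>
    obtain ⟨y, hy⟩ := ih
    refine ⟨A1_star y ![0, 1, 0, 0], ?_⟩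
    rw [← A1_ev_star, ← hy, A1_ev_vec, pow_succ]
    simp

theorem isGood_bz (k : ℕ) : IsGood (bz k) := by
  obtain ⟨y, hy⟩ := A1_pow k
  refine ⟨![1, 1, 0, -1], y, ?_, ?_, ?_, ?_, ?_⟩
  · rw [bz_a, A1_ev_vec, csqrt_two]
    push_cast
    ring
  · rw [bz_b, hy]
  · exact odd_one
  · exact Even.zero
  · show Even ((1 : ℤ) - (-1))
    exact ⟨1, by norm_num⟩

end Pool.Agent.H79.FB
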