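import Pool.Agent.H79.FB.Good

/-!
# Finiteness and freeness of the arithmetic group

Proof. Let `g.a = ev x`, `g.b = beta * ev y`. Put `N0 = Σ x_i^2`, `N1 = x0 x1 + x1 x2 + x2 x3 - x0 x3`,
and `B0 = Σ y_i^2`, `B1 = y0 y1 + y1 y2 + y2 y3 - y0 y3` (integers). Then
`normSq (ev x) = N0 + √2 N1` and `normSq (ev y) = B0 + √2 B1`
(real part of `ev x` is `x0 + (√2/2)(x1 - x3)`, imaginary part `x2 + (√2/2)(x1 + x3)`).
`normSq g.a - normSq g.b = 1` becomes
`N0 + √2 N1 - (2 + 2√2)(B0 + √2 B1) = 1`, and the irrationality of `√2` (`irrational_sqrt_two`) gives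
`N0 - 2 B0 - 4 B1 = 1` and `N1 - 2 B0 - 2 B1 = 0`. Hence
`N0 - √2 N1 = 1 - (2√2 - 2)(B0 - √2 B1)`. Moreover (sum of two squares)
`B0 - √2 B1 = (y0 - (√2/2)(y1 - y3))^2 + (y2 - (√2/2)(y1 + y3))^2 ≥ 0`
and the same formula for `N0 - √2 N1`. So `0 ≤ N0 - √2 N1 ≤ 1` and
`0 ≤ B0 - √2 B1 ≤ 1 / (2√2 - 2)`.

* Finiteness: if `‖g.a‖ ≤ C` then `2 N0 = (N0 + √2 N1) + (N0 - √2 N1) ≤ C^2 + 1` and
  `2 B0 ≤ C^2 / beta^2 + 1 / (2√2 - 2) ≤ C^2 + 2`; so all coordinates are bounded integers: the set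
  is contained in the image of a finite set.
* Freeness: let `mv g p = p` with `‖p‖ < 1`, `lam = J g p = conj b p + conj a`. By
  `SU.one_sub_norm` `‖lam‖ = 1`. From `a p + b = p lam` one gets
  `lam - ‖p‖^2 conj lam = conj a (1 - ‖p‖^2)`, so `Re a = Re lam`, `|Re a| ≤ 1`.
  Here `Re a = x0 + √2 j` with `2 j = x1 - x3` (even by hypothesis), and
  `|x0 - √2 j| ≤ 1` because `(x0 - √2 j)^2 ≤ N0 - √2 N1 ≤ 1`. So `|2 x0| ≤ 2`, and `x0` is odd, so
  `x0 = 1` or `-1`, and equality holds: `Re a = x0 = ± 1`, so `Re lam = ± 1`, `lam = ± 1` (norm 1),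
  hence `conj a (1 - ‖p‖^2) = lam (1 - ‖p‖^2)`, `a = lam = ± 1`, `b = 0` (norms), so
  `mv g q = (a q) / conj a = q`.
-/

namespace Pool.Agent.H79.FB

open ComplexConjugate

private lemma ev_re (x : Fin 4 → ℤ) :
    (ev x).re = x 0 + Real.sqrt 2 / 2 * (x 1 - x 3) := by
  have h3 : om ^ 3 = Complex.I * om := by
    have h : om ^ 3 = om ^ 2 * om := by ring
    rw [h, om_sq]
  unfold ev
  rw [h3, om_sq]
  unfold om
  simp
  ring

private lemma ev_im (x : Fin 4 → ℤ) :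
    (ev x).im = x 2 + Real.sqrt 2 / 2 * (x 1 + x 3) := by
  have h3 : om ^ 3 = Complex.I * om := by
    have h : om ^ 3 = om ^ 2 * om := by ring
    rw [h, om_sq]
  unfold ev
  rw [h3, om_sq]
  unfold om
  simp
  ring

private def n0 (x : Fin 4 → ℤ) : ℤ := x 0 ^ 2 + x 1 ^ 2 + x 2 ^ 2 + x 3 ^ 2

private def n1 (x : Fin 4 → ℤ) : ℤ := x 0 * x 1 + x 1 * x 2 + x 2 * x 3 - x 0 * x 3

private lemma normSq_ev (x : Fin 4 → ℤ) :
    Complex.normSq (ev x) = n0 x + Real.sqrt 2 * n1 x := by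
  rw [Complex.normSq_apply, ev_re, ev_im]
  have h := sqrt_two_sq
  unfold n0 n1
  push_cast
  linear_combination ((((x 1 : ℝ) - x 3) ^ 2 + ((x 1 : ℝ) + x 3) ^ 2) / 4) * h

private lemma qd (x : Fin 4 → ℤ) :
    (n0 x : ℝ) - Real.sqrt 2 * n1 x =
      ((x 0 : ℝ) - Real.sqrt 2 / 2 * (x 1 - x 3)) ^ 2 +
        ((x 2 : ℝ) - Real.sqrt 2 / 2 * (x 1 + x 3)) ^ 2 := by
  have h := sqrt_two_sq
  unfold n0 n1
  push_cast
  linear_combination (-((((x 1 : ℝ) - x 3) ^ 2 + ((x 1 : ℝ) + x 3) ^ 2) / 4)) * h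

private lemma irr {m n : ℤ} (h : (m : ℝ) + Real.sqrt 2 * n = 0) : m = 0 ∧ n = 0 := by
  have hn : n = 0 := by
    by_contra hn
    have h2 : (n : ℝ) ≠ 0 := by exact_mod_cast hn
    have h3 : Real.sqrt 2 = ((-m / n : ℚ) : ℝ) := by
      push_cast
      rw [eq_div_iff h2]
      linarith
    exact irrational_sqrt_two ⟨_, h3.symm⟩
  refine ⟨?_, hn⟩
  rw [hn] at h
  have h4 : (m : ℝ) = 0 := by
    push_cast at h
    linarith
  exact_mod_cast h4

private lemma coef {g : SU} {x y : Fin 4 → ℤ} (ha : g.a = ev x) (hb : g.b = beta * ev y) :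
    n0 x - 2 * n0 y - 4 * n1 y = 1 ∧ n1 x - 2 * n0 y - 2 * n1 y = 0 := by
  have h := g.eq
  rw [ha, hb, Complex.normSq_mul, Complex.normSq_ofReal, beta_sq, normSq_ev, normSq_ev] at h
  have hs := sqrt_two_sq
  have h2 : ((n0 x - 2 * n0 y - 4 * n1 y - 1 : ℤ) : ℝ) +
      Real.sqrt 2 * ((n1 x - 2 * n0 y - 2 * n1 y : ℤ) : ℝ) = 0 := by
    push_cast
    linear_combination h + 2 * (n1 y : ℝ) * hs
  obtain ⟨h3, h4⟩ := irr h2
  constructor
  · linarith
  · exact h4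

private lemma sqrt_two_gt : (141 / 100 : ℝ) < Real.sqrt 2 := by
  rw [Real.lt_sqrt (by norm_num)]
  norm_num

private lemma sqrt_two_lt' : Real.sqrt 2 < 3 / 2 := by
  rw [Real.sqrt_lt' (by norm_num)]
  norm_num

private lemma bnds {g : SU} {x y : Fin 4 → ℤ} (ha : g.a = ev x) (hb : g.b = beta * ev y) :
    (n0 x : ℝ) - Real.sqrt 2 * n1 x ≤ 1 ∧ (n0 y : ℝ) - Real.sqrt 2 * n1 y ≤ 2 := by
  obtain ⟨h1, h2⟩ := coef ha hb
  have h1' : (n0 x : ℝ) - 2 * n0 y - 4 * n1 y = 1 := by exact_mod_cast h1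
  have h2' : (n1 x : ℝ) - 2 * n0 y - 2 * n1 y = 0 := by exact_mod_cast h2
  have hs := sqrt_two_sq
  have hk : (n0 x : ℝ) - Real.sqrt 2 * n1 x =
      1 - (2 * Real.sqrt 2 - 2) * ((n0 y : ℝ) - Real.sqrt 2 * n1 y) := by
    linear_combination h1' - Real.sqrt 2 * h2' - 2 * (n1 y : ℝ) * hs
  have hx : 0 ≤ (n0 x : ℝ) - Real.sqrt 2 * n1 x := by
    rw [qd]
    positivity
  have hy : 0 ≤ (n0 y : ℝ) - Real.sqrt 2 * n1 y := by
    rw [qd]
    positivity
  have hg := sqrt_two_gt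
  constructor
  · nlinarith
  · nlinarith

theorem good_finite (C : ℝ) : {g : SU | IsGood g ∧ ‖g.a‖ ≤ C}.Finite := by
  obtain ⟨K, hK⟩ := exists_nat_gt (C ^ 2 + 3)
  have hinj : Function.Injective (fun g : SU => ((g.a, g.b) : ℂ × ℂ)) := by
    intro g h hgh
    simp only [Prod.mk.injEq] at hgh
    exact SU.ext hgh.1 hgh.2
  have hfin : ((fun z : (Fin 4 → ℤ) × (Fin 4 → ℤ) => ((ev z.1, beta * ev z.2) : ℂ × ℂ)) ''
      ((Set.Icc (fun _ => -(K : ℤ)) (fun _ => (K : ℤ))) ×ˢ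
        (Set.Icc (fun _ => -(K : ℤ)) (fun _ => (K : ℤ))))).Finite :=
    ((Set.finite_Icc _ _).prod (Set.finite_Icc _ _)).image _
  refine (hfin.preimage hinj.injOn).subset ?_
  rintro g ⟨⟨x, y, ha, hb, -, -, -⟩, hC⟩
  have hn : Complex.normSq g.a ≤ C ^ 2 := by
    rw [Complex.normSq_eq_norm_sq]
    exact pow_le_pow_left₀ (norm_nonneg _) hC 2
  have hb0 : Complex.normSq g.b ≤ C ^ 2 := by
    have := g.eq
    linarith
  obtain ⟨hx, hy⟩ := bnds ha hb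
  rw [ha, normSq_ev] at hn
  rw [hb, Complex.normSq_mul, Complex.normSq_ofReal, beta_sq] at hb0
  have hnn := Complex.normSq_nonneg (ev y)
  have hsp := Real.sqrt_nonneg (2 : ℝ)
  have hby : Complex.normSq (ev y) ≤ C ^ 2 := by nlinarith
  rw [normSq_ev] at hby
  have hKx : (n0 x : ℝ) ≤ K := by nlinarith [sq_nonneg C]
  have hKy : (n0 y : ℝ) ≤ K := by nlinarith [sq_nonneg C]
  have hKx' : n0 x ≤ K := by exact_mod_cast hKx
  have hKy' : n0 y ≤ K := by exact_mod_cast hKy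
  have key : ∀ z : Fin 4 → ℤ, n0 z ≤ K →
      z ∈ Set.Icc (fun _ => -(K : ℤ)) (fun _ => (K : ℤ)) := by
    intro z hz
    unfold n0 at hz
    have hq : ∀ i, z i ^ 2 ≤ (K : ℤ) := by
      intro i
      have := sq_nonneg (z 0)
      have := sq_nonneg (z 1)
      have := sq_nonneg (z 2)
      have := sq_nonneg (z 3)
      fin_cases i <;> simp only [Fin.zero_eta, Fin.mk_one, Fin.reduceFinMk] <;> linarith
    have hq2 : ∀ i, -(K : ℤ) ≤ z i ∧ z i ≤ K := by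
      intro i
      have h1 := hq i
      have h2 : z i ≤ z i ^ 2 := Int.le_self_sq _
      have h3 : - z i ≤ (- z i) ^ 2 := Int.le_self_sq _
      rw [neg_sq] at h3
      constructor <;> linarith
    exact ⟨fun i => (hq2 i).1, fun i => (hq2 i).2⟩
  refine ⟨(x, y), ⟨key x hKx', key y hKy'⟩, ?_⟩
  simp only [ha, hb]

private lemma fin_step {g : SU} {p : CDisc} (hp : ‖(p : ℂ)‖ < 1) {l : ℝ}
    (hl : l * l = 1)
    (hlam : SU.J g p = (l : ℂ))
    (hm : SU.J g p - (‖(p : ℂ)‖ ^ 2 : ℝ) * conj (SU.J g p) =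
      conj g.a * (1 - (‖(p : ℂ)‖ ^ 2 : ℝ))) (q : CDisc) : SU.mv g q = q := by
  rw [hlam, Complex.conj_ofReal] at hm
  have h0 : (1 - ((‖(p : ℂ)‖ ^ 2 : ℝ) : ℂ)) ≠ 0 := by
    have h1 : (1 - ‖(p : ℂ)‖ ^ 2 : ℝ) ≠ 0 := by
      have := norm_nonneg (p : ℂ)
      have h2 : ‖(p : ℂ)‖ ^ 2 < 1 := by nlinarith
      linarith
    exact_mod_cast h1
  have ha : conj g.a = (l : ℂ) := by
    apply mul_right_cancel₀ h0
    rw [← hm]
    ring
  have ha2 : g.a = (l : ℂ) := by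
    have := congrArg conj ha
    rwa [Complex.conj_conj, Complex.conj_ofReal] at this
  have hb : g.b = 0 := by
    have h1 := g.eq
    rw [ha2, Complex.normSq_ofReal, hl] at h1
    have h2 : Complex.normSq g.b = 0 := by linarith
    exact Complex.normSq_eq_zero.1 h2
  apply Subtype.ext
  rw [SU.coe_mv]
  unfold SU.J
  rw [ha, hb, ha2, map_zero, zero_mul, zero_add, add_zero]
  have hl0 : (l : ℂ) ≠ 0 := by
    intro h
    have : l = 0 := by exact_mod_cast h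
    rw [this] at hl
    norm_num at hl
  field_simp

theorem good_free {g : SU} (hg : IsGood g) {p : CDisc} (hp : ‖(p : ℂ)‖ < 1)
    (h : SU.mv g p = p) (q : CDisc) : SU.mv g q = q := by
  obtain ⟨x, y, ha, hb, hx0, -, hx13⟩ := hg
  have hJ := SU.J_ne_zero g p.2
  have h1 : g.a * p + g.b = p * SU.J g p := by
    have h2 := congrArg (fun z : CDisc => (z : ℂ)) h
    simp only [SU.coe_mv] at h2
    rw [div_eq_iff hJ] at h2
    exact h2
  have hpn := norm_nonneg (p : ℂ)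
  have hp2 : 0 < 1 - ‖(p : ℂ)‖ ^ 2 := by nlinarith
  have hnorm : ‖SU.J g p‖ ^ 2 = 1 := by
    have h2 := SU.one_sub_norm g p.2
    rw [← SU.coe_mv, h] at h2
    have h3 : 0 < ‖SU.J g p‖ ^ 2 := by
      have := norm_pos_iff.2 hJ
      positivity
    rw [eq_div_iff h3.ne'] at h2
    have h4 : (1 - ‖(p : ℂ)‖ ^ 2) * (‖SU.J g p‖ ^ 2 - 1) = 0 := by linarith
    rcases mul_eq_zero.1 h4 with h5 | h5
    · linarith
    · linarith
  have hpp : conj (p : ℂ) * (p : ℂ) = ((‖(p : ℂ)‖ ^ 2 : ℝ) : ℂ) := by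
    rw [mul_comm, Complex.mul_conj, Complex.normSq_eq_norm_sq]
  have hm : SU.J g p - (‖(p : ℂ)‖ ^ 2 : ℝ) * conj (SU.J g p) =
      conj g.a * (1 - (‖(p : ℂ)‖ ^ 2 : ℝ)) := by
    have hc := congrArg conj h1
    simp only [map_add, map_mul] at hc
    have hd : SU.J g p = conj g.b * p + conj g.a := rfl
    rw [← hpp]
    linear_combination hd + (p : ℂ) * hc
  have hre : (SU.J g p).re = g.a.re := by
    have h5 := congrArg Complex.re hm
    rw [Complex.sub_re, Complex.re_ofReal_mul, Complex.conj_re] at h5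
    have h6 : (conj g.a * (1 - (((‖(p : ℂ)‖ ^ 2 : ℝ)) : ℂ))).re =
        g.a.re * (1 - ‖(p : ℂ)‖ ^ 2) := by
      have h7 : (1 - (((‖(p : ℂ)‖ ^ 2 : ℝ)) : ℂ)) = ((1 - ‖(p : ℂ)‖ ^ 2 : ℝ) : ℂ) := by
        push_cast
        ring
      rw [h7, Complex.re_mul_ofReal, Complex.conj_re]
    rw [h6] at h5
    have h8 : ((SU.J g p).re - g.a.re) * (1 - ‖(p : ℂ)‖ ^ 2) = 0 := by linarith
    rcases mul_eq_zero.1 h8 with h9 | h9
    · linarith
    · linarith
  have hsum : (SU.J g p).re * (SU.J g p).re + (SU.J g p).im * (SU.J g p).im = 1 := by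
    rw [← Complex.normSq_apply, Complex.normSq_eq_norm_sq]
    exact hnorm
  obtain ⟨j, hj⟩ := hx13
  have hj' : (x 1 : ℝ) - x 3 = j + j := by exact_mod_cast hj
  have hra : g.a.re = x 0 + Real.sqrt 2 * j := by
    rw [ha, ev_re, hj']
    ring
  obtain ⟨hb1, -⟩ := bnds ha hb
  rw [qd, hj'] at hb1
  have hq1 : ((x 0 : ℝ) - Real.sqrt 2 * j) ^ 2 ≤ 1 := by
    have h10 : ((x 0 : ℝ) - Real.sqrt 2 / 2 * (j + j)) = (x 0 : ℝ) - Real.sqrt 2 * j := by ring
    rw [h10] at hb1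
    have := sq_nonneg ((x 2 : ℝ) - Real.sqrt 2 / 2 * (x 1 + x 3))
    linarith
  have hq2 : ((x 0 : ℝ) + Real.sqrt 2 * j) ^ 2 ≤ 1 := by
    rw [← hra, ← hre]
    nlinarith [mul_self_nonneg (SU.J g p).im]
  have hA : |(x 0 : ℝ) - Real.sqrt 2 * j| ≤ 1 :=
    abs_le_one_iff_mul_self_le_one.2 (by rw [← sq]; exact hq1)
  have hB : |(x 0 : ℝ) + Real.sqrt 2 * j| ≤ 1 :=
    abs_le_one_iff_mul_self_le_one.2 (by rw [← sq]; exact hq2)
  rw [abs_le] at hA hB
  have hx0' : x 0 = 1 ∨ x 0 = -1 := by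
    have h11 : (x 0 : ℝ) ≤ 1 := by linarith
    have h12 : (-1 : ℝ) ≤ x 0 := by linarith
    have h13 : x 0 ≤ 1 := by exact_mod_cast h11
    have h14 : -1 ≤ x 0 := by exact_mod_cast h12
    obtain ⟨m, hm2⟩ := hx0
    omega
  have him : ∀ l : ℝ, (SU.J g p).re = l → l * l = 1 → SU.J g p = (l : ℂ) := by
    intro l h15 h16
    rw [h15, h16] at hsum
    have h17 : (SU.J g p).im = 0 := by
      have : (SU.J g p).im * (SU.J g p).im = 0 := by linarith
      exact mul_self_eq_zero.1 this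
    apply Complex.ext
    · rw [h15, Complex.ofReal_re]
    · rw [h17, Complex.ofReal_im]
  rcases hx0' with h18 | h18
  · have h19 : (x 0 : ℝ) = 1 := by exact_mod_cast h18
    rw [h19] at hA hB hra
    have h20 : (SU.J g p).re = 1 := by
      rw [hre, hra]
      linarith
    exact fin_step hp (by norm_num) (him 1 h20 (by norm_num)) hm q
  · have h19 : (x 0 : ℝ) = -1 := by
      rw [h18]
      norm_num
    rw [h19] at hA hB hra
    have h20 : (SU.J g p).re = -1 := by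
      rw [hre, hra]
      linarith
    exact fin_step hp (by norm_num) (him (-1) h20 (by norm_num)) hm q

end Pool.Agent.H79.FB
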