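import Mathlib

/-!
# The Neumann series: every function supported in `Ω` is a sum of two coboundaries

Proof. `L G x = (G (A.symm x) + G (B.symm x)) / 2`. If `G` vanishes off `Ω` then
`L G` vanishes off `A Ω ∪ B Ω ⊆ Ω`, and at each point at most one of the two terms is nonzero
(`A Ω` and `B Ω` are disjoint), so `|L G| ≤ C/2` if `|G| ≤ C`. Put `G_0 = φ`, `G_{n+1} = L G_n`: all are
continuous, vanish off `Ω`, `|G_n| ≤ C / 2^n`. `Ψ = ∑' n, G_n` is continuous (`continuous_tsum`),
vanishes off `Ω`, and `Ψ - L Ψ = G_0 = φ` (the series is absolutely summable at each point: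
`Summable.tsum_eq_zero_add` and `tsum_add`, `tsum_div_const`).
-/

namespace Pool.Agent.H79.FB

theorem neumann {X : Type*} [TopologicalSpace X] (A B : X ≃ₜ X) (Ω : Set X)
    (hA : ∀ p ∈ Ω, A p ∈ Ω) (hB : ∀ p ∈ Ω, B p ∈ Ω) (hAB : ∀ p ∈ Ω, ∀ p' ∈ Ω, A p ≠ B p')
    (φ : X → ℝ) (hφ : Continuous φ) (hb : ∃ C, ∀ x, |φ x| ≤ C) (h0 : ∀ x, x ∉ Ω → φ x = 0) :
    ∃ Ψ : X → ℝ, Continuous Ψ ∧ (∀ x, x ∉ Ω → Ψ x = 0) ∧
      ∀ x, φ x = Ψ x - (Ψ (A.symm x) + Ψ (B.symm x)) / 2 := by
  obtain ⟨C, hC⟩ := hb
  let G : ℕ → X → ℝ := fun n => Nat.rec φ (fun _ g x => (g (A.symm x) + g (B.symm x)) / 2) n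
  have hG0 : G 0 = φ := rfl
  have hGs : ∀ n x, G (n + 1) x = (G n (A.symm x) + G n (B.symm x)) / 2 := fun n x => rfl
  have hcont : ∀ n, Continuous (G n) := by
    intro n
    induction n with
    | zero => exact hφ
    | succ n ih =>
      have : G (n + 1) = fun x => (G n (A.symm x) + G n (B.symm x)) / 2 := rfl
      rw [this]
      exact ((ih.comp A.symm.continuous).add (ih.comp B.symm.continuous)).div_const 2
  have hA' : ∀ x, x ∉ Ω → A.symm x ∉ Ω := by
    intro x hx h
    have := hA _ h
    rw [A.apply_symm_apply] at this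
    exact hx this
  have hB' : ∀ x, x ∉ Ω → B.symm x ∉ Ω := by
    intro x hx h
    have := hB _ h
    rw [B.apply_symm_apply] at this
    exact hx this
  have hvan : ∀ n x, x ∉ Ω → G n x = 0 := by
    intro n
    induction n with
    | zero => exact h0
    | succ n ih =>
      intro x hx
      rw [hGs, ih _ (hA' x hx), ih _ (hB' x hx)]
      norm_num
  have hbound : ∀ n x, |G n x| ≤ C * (1 / 2 : ℝ) ^ n := by
    intro n
    induction n with
    | zero =>
      intro x
      rw [pow_zero, mul_one, hG0]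
      exact hC x
    | succ n ih =>
      intro x
      rw [hGs]
      by_cases hx : A.symm x ∈ Ω
      · have hx2 : B.symm x ∉ Ω := by
          intro h
          exact hAB _ hx _ h (by rw [A.apply_symm_apply, B.apply_symm_apply])
        rw [hvan n _ hx2, add_zero, abs_div, abs_two]
        have := ih (A.symm x)
        rw [pow_succ]
        linarith
      · rw [hvan n _ hx, zero_add, abs_div, abs_two]
        have := ih (B.symm x)
        rw [pow_succ]
        linarith
  have hsum : Summable fun n : ℕ => C * (1 / 2 : ℝ) ^ n :=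
    (summable_geometric_of_lt_one (by norm_num) (by norm_num)).mul_left C
  have hsx : ∀ x, Summable fun n => G n x := fun x =>
    Summable.of_norm_bounded hsum (fun n => by rw [Real.norm_eq_abs]; exact hbound n x)
  refine ⟨fun x => ∑' n, G n x, ?_, ?_, ?_⟩
  · exact continuous_tsum hcont hsum (fun n x => by rw [Real.norm_eq_abs]; exact hbound n x)
  · intro x hx
    simp only [hvan _ x hx, tsum_zero]
  · intro x
    have h1 : ∑' n, G n x = G 0 x + ∑' n, G (n + 1) x := (hsx x).tsum_eq_zero_add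
    have h2 : ∑' n, G (n + 1) x = (∑' n, G n (A.symm x) + ∑' n, G n (B.symm x)) / 2 := by
      simp only [hGs]
      rw [tsum_div_const, (hsx _).tsum_add (hsx _)]
    change φ x = ∑' n, G n x - (∑' n, G n (A.symm x) + ∑' n, G n (B.symm x)) / 2
    rw [h1, h2, hG0]
    ring

end Pool.Agent.H79.FB
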