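import Mathlib

/-!
# Infinite products of maps with disjoint supports

Proof. First for a finite set `I` of indices, by induction on `I` (`Finset.induction_on`): there is a
continuous `G` with `F i x ≠ x → G x = F i x` for `i ∈ I` and `G x = x` if `F i x = x` for all
`i ∈ I`. Step `insert i I`: if `F i = F j` for some `j ∈ I`, keep `G`. Otherwise
`G' x = if F i x ≠ x then F i x else G x`. It is continuous (`Continuous.if`): let
`U = {x | F i x ≠ x}` (open). On `U` all `F j x = x` (`j ∈ I`) by `h1`, so `G x = x` on `U`, hence
on the closure of `U`; and a point of the frontier of `U` is not in `U`, so `F i x = x = G x`.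

General case: define `G x = F i x` for some `i` with `F i x ≠ x` if there is one, and `x`
otherwise; the two properties hold by `h1` (two indices which move `x` have `F i = F j`). Continuity:
`G` is a uniform limit of the continuous maps of the finite case
(`continuous_of_uniform_approx_of_continuous`): for `ε > 0` take `I` = the finite set
`{i | ∃ x, ε/2 < dist (F i x) x}`; then `dist (G x) (G_I x) ≤ ε/2` for all `x`: if some `i ∈ I` moves
`x` then both are `F i x`; otherwise `G_I x = x` and `G x = x` or `G x = F i x` with `i ∉ I`.
-/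

namespace Pool.Agent.H79.FB

theorem infProd_finite {X ι : Type*} [MetricSpace X] (F : ι → X → X) (hF : ∀ i, Continuous (F i))
    (h1 : ∀ i j, F i = F j ∨ ∀ x, F i x = x ∨ F j x = x) (I : Finset ι) :
    ∃ G : X → X, Continuous G ∧ (∀ i ∈ I, ∀ x, F i x ≠ x → G x = F i x) ∧
      (∀ x, (∀ i ∈ I, F i x = x) → G x = x) := by
  classical
  induction I using Finset.induction_on with
  | empty => exact ⟨id, continuous_id, by simp, by simp⟩
  | insert i I _ ih =>
    obtain ⟨G, hG, hG1, hG2⟩ := ih
    by_cases hj : ∃ j ∈ I, F i = F j
    · obtain ⟨j, hjI, hij⟩ := hj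
      refine ⟨G, hG, ?_, fun x hx => hG2 x fun k hk => hx k (Finset.mem_insert_of_mem hk)⟩
      intro k hk x hx
      rcases Finset.mem_insert.1 hk with rfl | hk
      · rw [hij] at hx ⊢
        exact hG1 j hjI x hx
      · exact hG1 k hk x hx
    · push Not at hj
      have hdis : ∀ j ∈ I, ∀ x, F i x = x ∨ F j x = x := fun j hjI =>
        (h1 i j).resolve_left (hj j hjI)
      have hU : IsOpen {x | F i x ≠ x} := isOpen_ne_fun (hF i) continuous_id
      have hGU : ∀ x ∈ closure {x | F i x ≠ x}, G x = x := by
        have hc : IsClosed {x | G x = x} := isClosed_eq hG continuous_id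
        have hs : {x | F i x ≠ x} ⊆ {x | G x = x} := by
          intro x hx
          exact hG2 x fun j hjI => (hdis j hjI x).resolve_left hx
        intro x hx
        exact closure_minimal hs hc hx
      refine ⟨fun x => if F i x ≠ x then F i x else G x, ?_, ?_, ?_⟩
      · refine Continuous.if ?_ (hF i) hG
        intro a ha
        rw [frontier, hU.interior_eq] at ha
        have h3 : F i a = a := by
          by_contra h4
          exact ha.2 h4
        rw [h3, hGU a ha.1]
      · intro k hk x hx
        rcases Finset.mem_insert.1 hk with rfl | hk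
        · simp [hx]
        · have h4 : F i x = x := (hdis k hk x).resolve_right hx
          simp only [h4, ne_eq, not_true_eq_false, if_false]
          exact hG1 k hk x hx
      · intro x hx
        have h4 : F i x = x := hx i (Finset.mem_insert_self i I)
        simp only [h4, ne_eq, not_true_eq_false, if_false]
        exact hG2 x fun k hk => hx k (Finset.mem_insert_of_mem hk)

theorem infProd {X ι : Type*} [MetricSpace X] (F : ι → X → X) (hF : ∀ i, Continuous (F i))
    (h1 : ∀ i j, F i = F j ∨ ∀ x, F i x = x ∨ F j x = x)
    (h2 : ∀ ε > 0, {i | ∃ x, ε < dist (F i x) x}.Finite) :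
    ∃ G : X → X, Continuous G ∧ (∀ i x, F i x ≠ x → G x = F i x) ∧
      (∀ x, (∀ i, F i x = x) → G x = x) := by
  classical
  let G : X → X := fun x => if h : ∃ i, F i x ≠ x then F h.choose x else x
  have hA : ∀ i x, F i x ≠ x → G x = F i x := by
    intro i x hx
    have h : ∃ i, F i x ≠ x := ⟨i, hx⟩
    have hG : G x = F h.choose x := dif_pos h
    rw [hG]
    rcases h1 h.choose i with h3 | h3
    · rw [h3]
    · rcases h3 x with h4 | h4
      · exact absurd h4 h.choose_spec
      · exact absurd h4 hx
  have hB : ∀ x, (∀ i, F i x = x) → G x = x := by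
    intro x hx
    have h : ¬ ∃ i, F i x ≠ x := by
      push Not
      exact hx
    exact dif_neg h
  refine ⟨G, ?_, hA, hB⟩
  refine continuous_of_uniform_approx_of_continuous ?_
  intro u hu
  obtain ⟨ε, hε, hεu⟩ := Metric.mem_uniformity_dist.1 hu
  have hfin := h2 (ε / 2) (by positivity)
  obtain ⟨H, hH, hH1, hH2⟩ := infProd_finite F hF h1 hfin.toFinset
  refine ⟨H, hH, fun x => hεu ?_⟩
  by_cases h : ∃ i ∈ hfin.toFinset, F i x ≠ x
  · obtain ⟨i, hi, hx⟩ := h
    rw [hA i x hx, hH1 i hi x hx, dist_self]
    exact hε
  · push Not at h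
    rw [hH2 x h]
    by_cases h' : ∃ i, F i x ≠ x
    · obtain ⟨i, hx⟩ := h'
      have hi : i ∉ hfin.toFinset := fun hi => hx (h i hi)
      rw [Set.Finite.mem_toFinset] at hi
      have h5 : dist (F i x) x ≤ ε / 2 := by
        by_contra h6
        exact hi ⟨x, not_le.1 h6⟩
      rw [hA i x hx]
      linarith
    · push Not at h'
      rw [hB x h', dist_self]
      exact hε

end Pool.Agent.H79.FB
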