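import Pool.Agent.H79.FB.Sep
import Pool.Agent.H79.FB.Arith1
import Pool.Agent.H79.FB.InfProd

/-!
# Periodization of a homeomorphism supported in a separated disc

Proof. Index set: the good elements `ι = {g // IsGood g}`; `F_g x = mv g (A (mv g⁻¹ x))`.
Apply `infProd` to the `F_g` and to the inverse family `F'_g x = mv g (A.symm (mv g⁻¹ x))`
(`A.symm` is also the identity off the disc).
* (h1) if `x` is moved by `F_g` and by `F_h` then `mv g⁻¹ x` and `mv h⁻¹ x` are in the disc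
  `B(q, 4ρ)`; `mv (h⁻¹ g)` maps the first to the second one, so by `Separated` `h⁻¹ g` acts as the
  identity, so `mv g = mv h`, `mv g⁻¹ = mv h⁻¹` and `F_g = F_h`.
* (h2) if `ε < dist (F_g x) x` then `x = mv g y`, `y = mv g⁻¹ x` in the disc, `F_g x = mv g (A y)` and
  `A y` is also in the disc (`A` is a bijection which is the identity off it); with
  `s = ‖q‖ + 4ρ < 1` `dist_mv` gives `ε < 2 / ((1-s)^2 ‖g.a‖^2)`; so `‖g.a‖` is bounded;
  `good_finite`.
Let `G`, `G'` be the two maps. `G' (G x) = x`: if some `F_g` moves `x`, then `y = F_g x` satisfies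
`F'_g y = x ≠ y`, so `G' y = x`; if none moves `x` then no `F'_g` moves `x` (`F'_g x ≠ x` implies
`F_g x ≠ x`, since `F_g x = x` implies `F'_g x = x`). Same for `G (G' x)`. So `G` is a
homeomorphism `F`.
* Equivariance: if `F_g x ≠ x` then `F_{hg} (mv h x) = mv h (F_g x) ≠ mv h x`, so
  `G (mv h x) = mv h (G x)`; if no `F_g` moves `x` then none moves `mv h x`.
* `F p = A p` for `p` in the disc: if `A p ≠ p`, then `F_1 p = A p ≠ p`; if
  `A p = p`: if some `F_g` moves `p` then as in (h1) `g` acts as the identity and `F_g p = A p = p`,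
  contradiction; so `F p = p`.
* Third property: if `mv g p` is off the disc for all good `g` then no `F_g` moves `p`.
-/

namespace Pool.Agent.H79.FB

open ComplexConjugate

/-- The copy of `B` at the good element `g`. -/
private noncomputable def fm (B : CDisc → CDisc) (g : {g : SU // IsGood g}) (x : CDisc) : CDisc :=
  SU.mv g.1 (B (SU.mv g.1⁻¹ x))

private lemma mv_inv_mv (g : SU) (x : CDisc) : SU.mv g⁻¹ (SU.mv g x) = x := by
  rw [← SU.mv_mul, inv_mul_cancel, SU.mv_one]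

private lemma mv_mv_inv (g : SU) (x : CDisc) : SU.mv g (SU.mv g⁻¹ x) = x := by
  rw [← SU.mv_mul, mul_inv_cancel, SU.mv_one]

private lemma fm_eq_iff (B : CDisc → CDisc) (g : {g : SU // IsGood g}) (x : CDisc) :
    fm B g x = x ↔ B (SU.mv g.1⁻¹ x) = SU.mv g.1⁻¹ x := by
  constructor
  · intro h
    have h2 := congrArg (SU.mv g.1⁻¹) h
    rwa [fm, mv_inv_mv] at h2
  · intro h
    rw [fm, h, mv_mv_inv]

private lemma good_eq {q : CDisc} {ρ : ℝ} (h : Separated q ρ) {g k : SU} (hg : IsGood g)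
    (hk : IsGood k) {x : CDisc} (h1 : ‖((SU.mv g⁻¹ x : CDisc) : ℂ) - q‖ < 4 * ρ)
    (h2 : ‖((SU.mv k⁻¹ x : CDisc) : ℂ) - q‖ < 4 * ρ) :
    (∀ y, SU.mv g y = SU.mv k y) ∧ ∀ y, SU.mv g⁻¹ y = SU.mv k⁻¹ y := by
  have h3 : SU.mv (k⁻¹ * g) (SU.mv g⁻¹ x) = SU.mv k⁻¹ x := by
    rw [SU.mv_mul, mv_mv_inv]
  have h4 := h.2.2 (k⁻¹ * g) (isGood_mul (isGood_inv hk) hg) (SU.mv g⁻¹ x) h1 (by rwa [h3])
  have h5 : ∀ y, SU.mv g y = SU.mv k y := by
    intro y
    have h6 := congrArg (SU.mv k) (h4 y)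
    rwa [SU.mv_mul, mv_mv_inv] at h6
  refine ⟨h5, fun y => ?_⟩
  have h7 : SU.mv g (SU.mv k⁻¹ y) = y := by rw [h5, mv_mv_inv]
  have h8 := congrArg (SU.mv g⁻¹) h7
  rw [mv_inv_mv] at h8
  exact h8.symm

private lemma disc_map {q : CDisc} {ρ : ℝ} (A : CDisc ≃ₜ CDisc)
    (hA : ∀ p : CDisc, 4 * ρ ≤ ‖(p : ℂ) - q‖ → A p = p) {p : CDisc}
    (hp : ‖(p : ℂ) - q‖ < 4 * ρ) : ‖((A p : CDisc) : ℂ) - q‖ < 4 * ρ := by
  by_contra h
  have h1 := A.injective (hA (A p) (not_lt.1 h))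
  rw [h1] at h
  exact h hp

private lemma disc_of_ne {q : CDisc} {ρ : ℝ} (A : CDisc → CDisc)
    (hA : ∀ p : CDisc, 4 * ρ ≤ ‖(p : ℂ) - q‖ → A p = p) {p : CDisc}
    (hp : A p ≠ p) : ‖(p : ℂ) - q‖ < 4 * ρ := by
  by_contra h
  exact hp (hA p (not_lt.1 h))

private lemma norm_le_of_disc {q p : CDisc} {ρ : ℝ} (hp : ‖(p : ℂ) - q‖ < 4 * ρ) :
    ‖(p : ℂ)‖ ≤ ‖(q : ℂ)‖ + 4 * ρ := by
  have := norm_add_le ((p : ℂ) - q) q
  rw [sub_add_cancel] at this
  linarith

private lemma exists_G {q : CDisc} {ρ : ℝ} (h : Separated q ρ) (A : CDisc ≃ₜ CDisc)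
    (hA : ∀ p : CDisc, 4 * ρ ≤ ‖(p : ℂ) - q‖ → A p = p) :
    ∃ G : CDisc → CDisc, Continuous G ∧ (∀ g x, fm A g x ≠ x → G x = fm A g x) ∧
      (∀ x, (∀ g, fm A g x = x) → G x = x) := by
  have hne : ∀ g x, fm A g x ≠ x → ‖((SU.mv g.1⁻¹ x : CDisc) : ℂ) - q‖ < 4 * ρ := by
    intro g x hx
    rw [ne_eq, fm_eq_iff] at hx
    exact disc_of_ne A hA hx
  apply infProd
  · intro g
    exact (SU.continuous_mv g.1).comp (A.continuous.comp (SU.continuous_mv g.1⁻¹))
  · intro g k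
    by_cases h0 : ∃ x, fm A g x ≠ x ∧ fm A k x ≠ x
    · left
      obtain ⟨x, h1, h2⟩ := h0
      obtain ⟨h3, h4⟩ := good_eq h g.2 k.2 (hne g x h1) (hne k x h2)
      funext y
      unfold fm
      rw [h3, h4]
    · right
      intro x
      by_contra h1
      push Not at h1
      exact h0 ⟨x, h1.1, h1.2⟩
  · intro ε hε
    set s : ℝ := ‖(q : ℂ)‖ + 4 * ρ with hs
    have hs1 : s < 1 := h.2.1
    have hfin := good_finite (Real.sqrt (2 / (ε * (1 - s) ^ 2)))
    have himg : (Subtype.val ⁻¹' {g : SU | IsGood g ∧ ‖g.a‖ ≤ Real.sqrt (2 / (ε * (1 - s) ^ 2))} :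
        Set {g : SU // IsGood g}).Finite := hfin.preimage Subtype.val_injective.injOn
    refine himg.subset ?_
    rintro g ⟨x, hx⟩
    refine ⟨g.2, ?_⟩
    have hmv : fm A g x ≠ x := by
      intro h1
      rw [h1, dist_self] at hx
      linarith
    have hd := hne g x hmv
    have hd2 := disc_map A hA hd
    have h3 : dist (fm A g x) x ≤ 2 / ((1 - s) ^ 2 * ‖g.1.a‖ ^ 2) := by
      have h4 := dist_mv hs1 g.1 (norm_le_of_disc hd2) (norm_le_of_disc hd)
      rwa [mv_mv_inv] at h4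
    have ha := SU.one_le_norm_a g.1
    have hs2 : 0 < 1 - s := by linarith
    have h5 : ε < 2 / ((1 - s) ^ 2 * ‖g.1.a‖ ^ 2) := hx.trans_le h3
    rw [lt_div_iff₀ (by positivity)] at h5
    apply Real.le_sqrt_of_sq_le
    rw [le_div_iff₀ (by positivity)]
    nlinarith

private lemma G_G' (A : CDisc ≃ₜ CDisc) {G G' : CDisc → CDisc} (hG1 : ∀ g x, fm A g x ≠ x → G x = fm A g x)
    (hG2 : ∀ x, (∀ g, fm A g x = x) → G x = x)
    (hG1' : ∀ g x, fm A.symm g x ≠ x → G' x = fm A.symm g x)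
    (hG2' : ∀ x, (∀ g, fm A.symm g x = x) → G' x = x) (x : CDisc) : G' (G x) = x := by
  by_cases h0 : ∃ g, fm A g x ≠ x
  · obtain ⟨g, hg⟩ := h0
    rw [hG1 g x hg]
    have h1 : fm A.symm g (fm A g x) = x := by
      unfold fm
      rw [mv_inv_mv, Homeomorph.symm_apply_apply, mv_mv_inv]
    rw [hG1' g (fm A g x) (by rw [h1]; exact hg.symm), h1]
  · push Not at h0
    rw [hG2 x h0]
    apply hG2'
    intro g
    rw [fm_eq_iff, Homeomorph.symm_apply_eq]
    exact ((fm_eq_iff A g x).1 (h0 g)).symm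

theorem exists_per {q : CDisc} {ρ : ℝ} (h : Separated q ρ) (A : CDisc ≃ₜ CDisc)
    (hA : ∀ p : CDisc, 4 * ρ ≤ ‖(p : ℂ) - q‖ → A p = p) :
    ∃ F : CDisc ≃ₜ CDisc, (∀ g, IsGood g → ∀ p, F (SU.mv g p) = SU.mv g (F p)) ∧
      (∀ p : CDisc, ‖(p : ℂ) - q‖ < 4 * ρ → F p = A p) ∧
      (∀ p : CDisc, (∀ g, IsGood g → 4 * ρ ≤ ‖((SU.mv g p : CDisc) : ℂ) - q‖) → F p = p) := by
  have hA' : ∀ p : CDisc, 4 * ρ ≤ ‖(p : ℂ) - q‖ → A.symm p = p := by
    intro p hp
    rw [Homeomorph.symm_apply_eq]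
    exact (hA p hp).symm
  obtain ⟨G, hGc, hG1, hG2⟩ := exists_G h A hA
  obtain ⟨G', hGc', hG1', hG2'⟩ := exists_G h A.symm hA'
  have hl : ∀ x, G' (G x) = x := G_G' A hG1 hG2 hG1' hG2'
  have hr : ∀ x, G (G' x) = x := by
    have := G_G' A.symm hG1' hG2'
      (by rw [Homeomorph.symm_symm]; exact hG1) (by rw [Homeomorph.symm_symm]; exact hG2)
    exact this
  refine ⟨{ toFun := G, invFun := G', left_inv := hl, right_inv := hr, continuous_toFun := hGc,
            continuous_invFun := hGc' }, ?_, ?_, ?_⟩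
  · intro k hk p
    change G (SU.mv k p) = SU.mv k (G p)
    have hfm : ∀ g : {g : SU // IsGood g}, fm A ⟨k * g.1, isGood_mul hk g.2⟩ (SU.mv k p) =
        SU.mv k (fm A g p) := by
      intro g
      unfold fm
      simp only
      rw [mul_inv_rev, SU.mv_mul, SU.mv_mul, mv_inv_mv]
    by_cases h0 : ∃ g, fm A g p ≠ p
    · obtain ⟨g, hg⟩ := h0
      rw [hG1 g p hg, ← hfm g]
      apply hG1
      rw [hfm g]
      intro h1
      apply hg
      have h2 := congrArg (SU.mv k⁻¹) h1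
      rwa [mv_inv_mv, mv_inv_mv] at h2
    · push Not at h0
      rw [hG2 p h0]
      apply hG2
      intro g
      have h3 := hfm ⟨k⁻¹ * g.1, isGood_mul (isGood_inv hk) g.2⟩
      have h4 : (⟨k * (k⁻¹ * g.1), isGood_mul hk (isGood_mul (isGood_inv hk) g.2)⟩ :
          {g : SU // IsGood g}) = g := Subtype.ext (mul_inv_cancel_left k g.1)
      simp only at h3
      rw [h4, h0] at h3
      exact h3
  · intro p hp
    change G p = A p
    have h1 : fm A ⟨1, isGood_one⟩ p = A p := by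
      unfold fm
      simp only
      rw [inv_one, SU.mv_one, SU.mv_one]
    by_cases h0 : A p = p
    · rw [h0]
      apply hG2
      intro g
      by_contra hg
      have h2 : A (SU.mv g.1⁻¹ p) ≠ SU.mv g.1⁻¹ p := fun h3 => hg ((fm_eq_iff A g p).2 h3)
      have h3 := disc_of_ne A hA h2
      have h4 : ‖((SU.mv (1 : SU)⁻¹ p : CDisc) : ℂ) - q‖ < 4 * ρ := by
        rwa [inv_one, SU.mv_one]
      obtain ⟨_, h5⟩ := good_eq h g.2 isGood_one h3 h4
      rw [h5, inv_one, SU.mv_one] at h2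
      exact h2 h0
    · rw [← h1]
      apply hG1
      rw [h1]
      exact h0
  · intro p hp
    change G p = p
    apply hG2
    intro g
    rw [fm_eq_iff]
    exact hA _ (hp g.1⁻¹ (isGood_inv g.2))

end Pool.Agent.H79.FB
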