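import Pool.Agent.H79.FB.Wgp

/-!
# Two contractions of a small disc with disjoint images

Proof. For `c : ℂ`, `ρ > 0` the radial homeomorphism of `ℂ`
`H p = c + κ(‖p - c‖ / ρ) • (p - c)`, `κ(r) = min 1 (max (1/4) ((7 - 9 / max r 1) / 4))`
(so `κ = 1/4` for `r ≤ 3/2`, `κ(r) = (7 - 9/r)/4` for `3/2 ≤ r ≤ 3`, `κ = 1` for `r ≥ 3`), with the
inverse `p ↦ c + κ'(‖p - c‖ / ρ) • (p - c)`,
`κ'(u) = max 1 (min 4 ((4 + 9 / max u (1/8)) / 7))` (so `κ' = 4` for `u ≤ 3/8`,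
`κ'(u) = (4 + 9/u)/7` for `3/8 ≤ u ≤ 3`, `κ' = 1` for `u ≥ 3`): check `κ'(κ(r) r) κ(r) = 1` and
`κ(κ'(u) u) κ'(u) = 1` in the three ranges. `H` maps `c + v` to `c + v/4` for `‖v‖ ≤ 3ρ/2`, and is the
identity for `‖p - c‖ ≥ 3ρ`.
It preserves the closed unit disc if `‖c‖ + 3ρ < 1` (it is the identity off `‖p - c‖ < 3ρ`, a
bijection, so it preserves `‖p - c‖ < 3ρ` and its complement); restrict with
`Homeomorph.subtype` (or build the homeomorphism of the subtype directly).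

`A` = this homeomorphism with `c = q + ρ/2`, `B` with `c = q - ρ/2`. Then `‖p - q‖ ≥ 4ρ` implies
`‖p - c‖ ≥ 3.5 ρ ≥ 3ρ`. For `‖p - q‖ < ρ`: `‖p - c‖ < 3ρ/2` so
`A p - q = (3/8) ρ + (p - q)/4`, `B p - q = -(3/8) ρ + (p - q)/4`: norms `< (3/8 + 1/4) ρ < ρ`, and
`Re (A p - q) > ρ/8 > 0 > Re (B p' - q)`.
-/

namespace Pool.Agent.H79.FB

namespace Radial

/-- the scaling factor of `H` -/
noncomputable def kap (r : ℝ) : ℝ := min 1 (max (1 / 4) ((7 - 9 / max r 1) / 4))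

/-- the scaling factor of the inverse of `H` -/
noncomputable def kap' (u : ℝ) : ℝ := max 1 (min 4 ((4 + 9 / max u (1 / 8)) / 7))

lemma continuous_kap : Continuous kap := by
  unfold kap
  have h : ∀ x : ℝ, max x 1 ≠ 0 := fun x => ne_of_gt (lt_of_lt_of_le one_pos (le_max_right x 1))
  have h1 : Continuous fun x : ℝ => 9 / max x 1 :=
    continuous_const.div (continuous_id.max continuous_const) h
  exact continuous_const.min (continuous_const.max ((continuous_const.sub h1).div_const 4))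

lemma continuous_kap' : Continuous kap' := by
  unfold kap'
  have h : ∀ x : ℝ, max x (1 / 8) ≠ 0 := fun x =>
    ne_of_gt (lt_of_lt_of_le (by norm_num) (le_max_right x (1 / 8)))
  have h1 : Continuous fun x : ℝ => 9 / max x (1 / 8) :=
    continuous_const.div (continuous_id.max continuous_const) h
  exact continuous_const.max (continuous_const.min ((continuous_const.add h1).div_const 7))

lemma kap_low {r : ℝ} (h : r ≤ 3 / 2) : kap r = 1 / 4 := by
  unfold kap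
  have hm : (7 - 9 / max r 1) / 4 ≤ 1 / 4 := by
    have h1 : 0 < max r 1 := lt_of_lt_of_le one_pos (le_max_right r 1)
    have h2 : max r 1 ≤ 3 / 2 := max_le h (by norm_num)
    have h3 : 6 ≤ 9 / max r 1 := by
      rw [le_div_iff₀ h1]; linarith
    linarith
  rw [max_eq_left hm, min_eq_right (by norm_num)]

lemma kap_mid {r : ℝ} (h : 3 / 2 ≤ r) (h' : r ≤ 3) : kap r = (7 - 9 / r) / 4 := by
  unfold kap
  have h0 : 0 < r := by linarith
  rw [max_eq_left (by linarith : (1 : ℝ) ≤ r)]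
  have h3 : 9 / r ≤ 6 := by rw [div_le_iff₀ h0]; linarith
  have h4 : 3 ≤ 9 / r := by rw [le_div_iff₀ h0]; linarith
  rw [max_eq_right (by linarith), min_eq_right (by linarith)]

lemma kap_high {r : ℝ} (h : 3 ≤ r) : kap r = 1 := by
  unfold kap
  have h0 : 0 < r := by linarith
  rw [max_eq_left (by linarith : (1 : ℝ) ≤ r)]
  have h3 : 9 / r ≤ 3 := by rw [div_le_iff₀ h0]; linarith
  rw [max_eq_right (by linarith), min_eq_left (by linarith)]

lemma kap'_low {u : ℝ} (h : u ≤ 3 / 8) : kap' u = 4 := by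
  unfold kap'
  have h1 : (0 : ℝ) < max u (1 / 8) := lt_of_lt_of_le (by norm_num) (le_max_right u (1 / 8))
  have h2 : max u (1 / 8) ≤ 3 / 8 := max_le h (by norm_num)
  have h3 : 24 ≤ 9 / max u (1 / 8) := by rw [le_div_iff₀ h1]; linarith
  rw [min_eq_left (by linarith), max_eq_right (by norm_num)]

lemma kap'_mid {u : ℝ} (h : 3 / 8 ≤ u) (h' : u ≤ 3) : kap' u = (4 + 9 / u) / 7 := by
  unfold kap'
  have h0 : 0 < u := by linarith
  rw [max_eq_left (by linarith : (1 / 8 : ℝ) ≤ u)]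
  have h3 : 9 / u ≤ 24 := by rw [div_le_iff₀ h0]; linarith
  have h4 : 3 ≤ 9 / u := by rw [le_div_iff₀ h0]; linarith
  rw [min_eq_right (by linarith), max_eq_right (by linarith)]

lemma kap'_high {u : ℝ} (h : 3 ≤ u) : kap' u = 1 := by
  unfold kap'
  have h0 : 0 < u := by linarith
  rw [max_eq_left (by linarith : (1 / 8 : ℝ) ≤ u)]
  have h3 : 9 / u ≤ 3 := by rw [div_le_iff₀ h0]; linarith
  rw [min_eq_right (by linarith), max_eq_left (by linarith)]

lemma kap_pos (r : ℝ) : 0 < kap r := by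
  unfold kap
  exact lt_min one_pos (lt_of_lt_of_le (by norm_num) (le_max_left _ _))

lemma kap_le (r : ℝ) : kap r ≤ 1 := min_le_left _ _

lemma kap'_pos (u : ℝ) : 0 < kap' u := lt_of_lt_of_le one_pos (le_max_left _ _)

lemma kap_comp (r : ℝ) : kap' (kap r * r) * kap r = 1 := by
  rcases le_total r (3 / 2) with h | h
  · rw [kap_low h, kap'_low (by linarith)]; norm_num
  · rcases le_total r 3 with h' | h'
    · have h0 : 0 < r := by linarith
      rw [kap_mid h h']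
      have e1 : (7 - 9 / r) / 4 * r = (7 * r - 9) / 4 := by field_simp
      rw [e1, kap'_mid (by linarith) (by linarith)]
      have h1 : 7 * r - 9 ≠ 0 := by
        have : 0 < 7 * r - 9 := by linarith
        exact ne_of_gt this
      field_simp
      ring
    · rw [kap_high h', one_mul, kap'_high h', one_mul]

lemma kap'_comp (u : ℝ) : kap (kap' u * u) * kap' u = 1 := by
  rcases le_total u (3 / 8) with h | h
  · rw [kap'_low h, kap_low (by linarith)]; norm_num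
  · rcases le_total u 3 with h' | h'
    · have h0 : 0 < u := by linarith
      rw [kap'_mid h h']
      have e1 : (4 + 9 / u) / 7 * u = (4 * u + 9) / 7 := by field_simp
      rw [e1, kap_mid (by linarith) (by linarith)]
      have h1 : 4 * u + 9 ≠ 0 := by
        have : 0 < 4 * u + 9 := by linarith
        exact ne_of_gt this
      field_simp
      ring
    · rw [kap'_high h', one_mul, kap_high h', one_mul]

/-- the radial homeomorphism -/
noncomputable def rad (c : ℂ) (ρ : ℝ) (hρ : 0 < ρ) : ℂ ≃ₜ ℂ where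
  toFun p := c + (kap (‖p - c‖ / ρ)) • (p - c)
  invFun p := c + (kap' (‖p - c‖ / ρ)) • (p - c)
  left_inv p := by
    simp only [add_sub_cancel_left]
    rw [norm_smul, Real.norm_of_nonneg (kap_pos _).le, mul_div_assoc, smul_smul, kap_comp, one_smul]
    ring
  right_inv p := by
    simp only [add_sub_cancel_left]
    rw [norm_smul, Real.norm_of_nonneg (kap'_pos _).le, mul_div_assoc, smul_smul, kap'_comp, one_smul]
    ring
  continuous_toFun := by
    have h1 : Continuous fun p : ℂ => ‖p - c‖ / ρ :=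
      (continuous_norm.comp (continuous_id.sub continuous_const)).div_const ρ
    exact continuous_const.add ((continuous_kap.comp h1).smul (continuous_id.sub continuous_const))
  continuous_invFun := by
    have h1 : Continuous fun p : ℂ => ‖p - c‖ / ρ :=
      (continuous_norm.comp (continuous_id.sub continuous_const)).div_const ρ
    exact continuous_const.add ((continuous_kap'.comp h1).smul (continuous_id.sub continuous_const))

lemma rad_apply (c : ℂ) (ρ : ℝ) (hρ : 0 < ρ) (p : ℂ) :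
    rad c ρ hρ p = c + (kap (‖p - c‖ / ρ)) • (p - c) := rfl

lemma rad_far (c : ℂ) (ρ : ℝ) (hρ : 0 < ρ) (p : ℂ) (h : 3 * ρ ≤ ‖p - c‖) : rad c ρ hρ p = p := by
  rw [rad_apply, kap_high (by rw [le_div_iff₀ hρ]; exact h), one_smul]
  ring

lemma rad_near (c : ℂ) (ρ : ℝ) (hρ : 0 < ρ) (p : ℂ) (h : ‖p - c‖ ≤ 3 / 2 * ρ) :
    rad c ρ hρ p = c + (1 / 4 : ℝ) • (p - c) := by
  rw [rad_apply, kap_low (by rw [div_le_iff₀ hρ]; exact h)]

lemma rad_disc (c : ℂ) (ρ : ℝ) (hρ : 0 < ρ) (hc : ‖c‖ + 3 * ρ ≤ 1) (p : ℂ) :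
    ‖p‖ ≤ 1 ↔ ‖rad c ρ hρ p‖ ≤ 1 := by
  rcases le_total (3 * ρ) ‖p - c‖ with h | h
  · rw [rad_far c ρ hρ p h]
  · have h1 : ‖p‖ ≤ 1 := by
      have : ‖p‖ ≤ ‖c‖ + ‖p - c‖ := by
        calc ‖p‖ = ‖c + (p - c)‖ := by congr 1; ring
          _ ≤ _ := norm_add_le _ _
      linarith
    have h2 : ‖rad c ρ hρ p‖ ≤ 1 := by
      have h3 : ‖rad c ρ hρ p‖ ≤ ‖c‖ + ‖(kap (‖p - c‖ / ρ)) • (p - c)‖ := by
        rw [rad_apply]; exact norm_add_le _ _
      have h4 : ‖(kap (‖p - c‖ / ρ)) • (p - c)‖ ≤ ‖p - c‖ := by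
        rw [norm_smul, Real.norm_of_nonneg (kap_pos _).le]
        have := kap_le (‖p - c‖ / ρ)
        have := norm_nonneg (p - c)
        nlinarith
      linarith
    exact ⟨fun _ => h2, fun _ => h1⟩

/-- the restriction to the closed disc -/
noncomputable def radD (c : ℂ) (ρ : ℝ) (hρ : 0 < ρ) (hc : ‖c‖ + 3 * ρ ≤ 1) : CDisc ≃ₜ CDisc :=
  (rad c ρ hρ).subtype (rad_disc c ρ hρ hc)

lemma coe_radD (c : ℂ) (ρ : ℝ) (hρ : 0 < ρ) (hc : ‖c‖ + 3 * ρ ≤ 1) (p : CDisc) :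
    ((radD c ρ hρ hc p : CDisc) : ℂ) = rad c ρ hρ p := rfl

/-- one of the two homeomorphisms: centre `q + w`, `‖w‖ = ρ / 2` -/
lemma one_side (q : CDisc) (ρ : ℝ) (hρ : 0 < ρ) (h : ‖(q : ℂ)‖ + 4 * ρ < 1) (w : ℝ)
    (hw : |w| = ρ / 2) :
    ∃ A : CDisc ≃ₜ CDisc, (∀ p : CDisc, 4 * ρ ≤ ‖(p : ℂ) - q‖ → A p = p) ∧
      (∀ p : CDisc, ‖(p : ℂ) - q‖ < ρ →
        ((A p : CDisc) : ℂ) - q = ((3 / 4 * w : ℝ) : ℂ) + (1 / 4 : ℝ) • ((p : ℂ) - q)) := by
  have hw' : ‖(w : ℂ)‖ = ρ / 2 := by rw [Complex.norm_real, Real.norm_eq_abs, hw]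
  have hc : ‖(q : ℂ) + w‖ + 3 * ρ ≤ 1 := by
    have := norm_add_le (q : ℂ) (w : ℂ)
    rw [hw'] at this
    linarith
  refine ⟨radD ((q : ℂ) + w) ρ hρ hc, ?_, ?_⟩
  · intro p hp
    apply Subtype.ext
    rw [coe_radD]
    apply rad_far
    have h1 : ‖(p : ℂ) - q‖ ≤ ‖(p : ℂ) - (q + w)‖ + ‖(w : ℂ)‖ := by
      calc ‖(p : ℂ) - q‖ = ‖((p : ℂ) - (q + w)) + w‖ := by congr 1; ring
        _ ≤ _ := norm_add_le _ _
    rw [hw'] at h1
    linarith
  · intro p hp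
    rw [coe_radD, rad_near]
    · simp only [Complex.real_smul]
      push_cast
      ring
    · have h1 : ‖(p : ℂ) - (q + w)‖ ≤ ‖(p : ℂ) - q‖ + ‖(w : ℂ)‖ := by
        calc ‖(p : ℂ) - (q + w)‖ = ‖((p : ℂ) - q) - w‖ := by congr 1; ring
          _ ≤ _ := norm_sub_le _ _
      rw [hw'] at h1
      linarith

lemma small (p q : ℂ) (ρ w : ℝ) (hρ : 0 < ρ) (hw : |w| = ρ / 2) (h : ‖p - q‖ < ρ) :
    ‖((3 / 4 * w : ℝ) : ℂ) + (1 / 4 : ℝ) • (p - q)‖ < ρ := by
  have h1 := norm_add_le (((3 / 4 * w : ℝ) : ℂ)) ((1 / 4 : ℝ) • (p - q))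
  rw [Complex.norm_real, Real.norm_eq_abs, abs_mul, hw, norm_smul] at h1
  have h2 : |(3 / 4 : ℝ)| = 3 / 4 := abs_of_pos (by norm_num)
  have h3 : ‖(1 / 4 : ℝ)‖ = 1 / 4 := by rw [Real.norm_eq_abs]; exact abs_of_pos (by norm_num)
  rw [h2, h3] at h1
  linarith

end Radial

open Radial in
theorem exists_pair (q : CDisc) (ρ : ℝ) (hρ : 0 < ρ) (h : ‖(q : ℂ)‖ + 4 * ρ < 1) :
    ∃ A B : CDisc ≃ₜ CDisc, (∀ p : CDisc, 4 * ρ ≤ ‖(p : ℂ) - q‖ → A p = p) ∧
      (∀ p : CDisc, 4 * ρ ≤ ‖(p : ℂ) - q‖ → B p = p) ∧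
      (∀ p : CDisc, ‖(p : ℂ) - q‖ < ρ → ‖((A p : CDisc) : ℂ) - q‖ < ρ) ∧
      (∀ p : CDisc, ‖(p : ℂ) - q‖ < ρ → ‖((B p : CDisc) : ℂ) - q‖ < ρ) ∧
      (∀ p p' : CDisc, ‖(p : ℂ) - q‖ < ρ → ‖(p' : ℂ) - q‖ < ρ → A p ≠ B p') := by
  have hA : |ρ / 2| = ρ / 2 := abs_of_pos (by linarith)
  have hB : |-(ρ / 2)| = ρ / 2 := by rw [abs_neg, hA]
  obtain ⟨A, hA1, hA2⟩ := one_side q ρ hρ h (ρ / 2) hA
  obtain ⟨B, hB1, hB2⟩ := one_side q ρ hρ h (-(ρ / 2)) hB
  refine ⟨A, B, hA1, hB1, ?_, ?_, ?_⟩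
  · intro p hp
    rw [hA2 p hp]
    exact small p q ρ _ hρ hA hp
  · intro p hp
    rw [hB2 p hp]
    exact small p q ρ _ hρ hB hp
  · intro p p' hp hp' he
    have h1 := hA2 p hp
    have h2 := hB2 p' hp'
    rw [he] at h1
    rw [h1] at h2
    have h3 := congrArg Complex.re h2
    simp only [Complex.add_re, Complex.ofReal_re, Complex.real_smul, Complex.mul_re,
      Complex.ofReal_im, zero_mul, sub_zero] at h3
    have h4 : |((p : ℂ) - q).re| ≤ ‖(p : ℂ) - q‖ := Complex.abs_re_le_norm _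
    have h5 : |((p' : ℂ) - q).re| ≤ ‖(p' : ℂ) - q‖ := Complex.abs_re_le_norm _
    have h6 := abs_le.mp h4
    have h7 := abs_le.mp h5
    linarith [h6.1, h6.2, h7.1, h7.2]

end Pool.Agent.H79.FB
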