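import Pool.Agent.H79.FB.Part
import Pool.Agent.H79.FB.PerH
import Pool.Agent.H79.FB.Radial
import Pool.Agent.H79.FB.Neumann

/-!
# The constant `1` is a sum of `k` coboundaries of invariant functions

Proof. Take `partition`; for each `j`: `exists_pair (q_j) (ρ_j)` gives `A_j, B_j`; `neumann` with
`Ω = {p | ‖p - q_j‖ < ρ_j}` (bounded: `CDisc` is compact) gives `Ψ_j`; `exists_per` gives the
periodizations `FA_j, FB_j`. With `per_comp`, `per_add`, `per_smul`: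
`Per φ_j p = 1/2 (Per Ψ_j p - Per Ψ_j (FA_j.symm p)) + 1/2 (Per Ψ_j p - Per Ψ_j (FB_j.symm p))`
for `‖p‖ < 1` (the functions `Ψ_j`, `Ψ_j ∘ A_j.symm`, `Ψ_j ∘ B_j.symm` all vanish off the disc `4 ρ_j`, so
for `‖p‖ > ‖q_j‖ + 4 ρ_j`).
`k = 2 M` (or `k = M + M` with `Fin.append`, or the index type `Fin M × Fin 2` and an equivalence with
`Fin k`): the pairs `(FA_j, Per Ψ_j / 2)` and `(FB_j, Per Ψ_j / 2)`.
The homeomorphisms are the identity for `‖p‖ = 1` by the third property of `exists_per`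
(`SU.norm_mv_lt`: `mv g p` has norm `1` too, and `‖q‖ + 4ρ < 1`).
-/

namespace Pool.Agent.H79.FB

private theorem cob_compact : CompactSpace CDisc := by
  have h : IsCompact {p : ℂ | ‖p‖ ≤ 1} := by
    have h1 : {p : ℂ | ‖p‖ ≤ 1} = Metric.closedBall (0 : ℂ) 1 := by
      ext p
      simp
    rw [h1]
    exact isCompact_closedBall _ _
  exact isCompact_iff_compactSpace.1 h

private theorem cob_one {q : CDisc} {ρ : ℝ} (hsep : Separated q ρ) {φ : CDisc → ℝ}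
    (hφ : Continuous φ) (h0 : ∀ p : CDisc, ρ ≤ ‖(p : ℂ) - q‖ → φ p = 0) :
    ∃ (FA FB : CDisc ≃ₜ CDisc) (f : CDisc → ℝ),
      (∀ p : CDisc, ¬ ‖(p : ℂ)‖ < 1 → FA p = p) ∧
      (∀ p : CDisc, ¬ ‖(p : ℂ)‖ < 1 → FB p = p) ∧
      (∀ g, IsGood g → ∀ p, FA (SU.mv g p) = SU.mv g (FA p)) ∧
      (∀ g, IsGood g → ∀ p, FB (SU.mv g p) = SU.mv g (FB p)) ∧
      ContinuousOn f {p : CDisc | ‖(p : ℂ)‖ < 1} ∧
      (∀ g, IsGood g → ∀ p, f (SU.mv g p) = f p) ∧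
      ∀ p : CDisc, ‖(p : ℂ)‖ < 1 →
        Per φ p = (f p - f (FA.symm p)) + (f p - f (FB.symm p)) := by
  have := cob_compact
  obtain ⟨A, B, hA, hB, hA1, hB1, hAB⟩ := exists_pair q ρ hsep.1 hsep.2.1
  obtain ⟨C, hC⟩ := isCompact_univ.exists_bound_of_continuousOn hφ.continuousOn
  obtain ⟨Ψ, hΨ, hΨ0, hΨ1⟩ := neumann A B {p : CDisc | ‖(p : ℂ) - q‖ < ρ} hA1 hB1
    (fun p hp p' hp' => hAB p p' hp hp') φ hφ
    ⟨C, fun x => by rw [← Real.norm_eq_abs]; exact hC x (Set.mem_univ x)⟩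
    (fun x hx => h0 x (not_lt.1 hx))
  obtain ⟨FA, hFA1, hFA2, hFA3⟩ := exists_per hsep A hA
  obtain ⟨FB, hFB1, hFB2, hFB3⟩ := exists_per hsep B hB
  have hρ := hsep.1
  have hs := hsep.2.1
  have hfar : ∀ p : CDisc, ‖(q : ℂ)‖ + 4 * ρ < ‖(p : ℂ)‖ → 4 * ρ ≤ ‖(p : ℂ) - q‖ := by
    intro p hp
    have := norm_add_le ((p : ℂ) - q) q
    rw [sub_add_cancel] at this
    linarith
  have hΨ4 : ∀ p : CDisc, 4 * ρ ≤ ‖(p : ℂ) - q‖ → Ψ p = 0 := by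
    intro p hp
    have h1 : ρ ≤ ‖(p : ℂ) - q‖ := by linarith
    exact hΨ0 p (not_lt.2 h1)
  have hΨs : ∀ p : CDisc, ‖(q : ℂ)‖ + 4 * ρ < ‖(p : ℂ)‖ → Ψ p = 0 := fun p hp =>
    hΨ4 p (hfar p hp)
  have hAs : ∀ p : CDisc, 4 * ρ ≤ ‖(p : ℂ) - q‖ → A.symm p = p := fun p hp => by
    rw [A.symm_apply_eq, hA p hp]
  have hBs : ∀ p : CDisc, 4 * ρ ≤ ‖(p : ℂ) - q‖ → B.symm p = p := fun p hp => by
    rw [B.symm_apply_eq, hB p hp]
  have hbd : ∀ p : CDisc, ¬ ‖(p : ℂ)‖ < 1 → ∀ g, IsGood g →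
      4 * ρ ≤ ‖((SU.mv g p : CDisc) : ℂ) - q‖ := by
    intro p hp g _
    apply hfar
    have h1 : ¬ ‖((SU.mv g p : CDisc) : ℂ)‖ < 1 := fun h => hp ((SU.norm_mv_lt g p).1 h)
    linarith [not_lt.1 h1]
  refine ⟨FA, FB, fun p => (1 / 2 : ℝ) * Per Ψ p, fun p hp => hFA3 p (hbd p hp),
    fun p hp => hFB3 p (hbd p hp), hFA1, hFB1, ?_, ?_, ?_⟩
  · exact continuousOn_const.mul (per_continuousOn hΨ hs hΨs)
  · intro g hg p
    change (1 / 2 : ℝ) * Per Ψ (SU.mv g p) = (1 / 2 : ℝ) * Per Ψ p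
    rw [per_inv Ψ hg p]
  · intro p hp
    have e1 : φ = fun x => (Ψ x + (-(1 / 2 : ℝ)) * Ψ (A.symm x)) +
        (-(1 / 2 : ℝ)) * Ψ (B.symm x) := by
      funext x
      rw [hΨ1 x]
      ring
    have hA0 : ∀ x : CDisc, ‖(q : ℂ)‖ + 4 * ρ < ‖(x : ℂ)‖ →
        (-(1 / 2 : ℝ)) * Ψ (A.symm x) = 0 := fun x hx => by
      rw [hAs x (hfar x hx), hΨs x hx, mul_zero]
    have hB0 : ∀ x : CDisc, ‖(q : ℂ)‖ + 4 * ρ < ‖(x : ℂ)‖ →
        (-(1 / 2 : ℝ)) * Ψ (B.symm x) = 0 := fun x hx => by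
      rw [hBs x (hfar x hx), hΨs x hx, mul_zero]
    have e2 : Per φ p = (Per Ψ p + (-(1 / 2 : ℝ)) * Per (fun x => Ψ (A.symm x)) p) +
        (-(1 / 2 : ℝ)) * Per (fun x => Ψ (B.symm x)) p := by
      conv_lhs => rw [e1]
      rw [per_add (φ := fun x => Ψ x + (-(1 / 2 : ℝ)) * Ψ (A.symm x))
        (ψ := fun x => (-(1 / 2 : ℝ)) * Ψ (B.symm x)) hs
        (fun x hx => by rw [hΨs x hx, hA0 x hx, add_zero]) hB0 hp,
        per_add (φ := Ψ) (ψ := fun x => (-(1 / 2 : ℝ)) * Ψ (A.symm x)) hs hΨs hA0 hp,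
        per_smul, per_smul]
    rw [e2, ← per_comp A FA hA hFA1 hFA2 Ψ hΨ4 p, ← per_comp B FB hB hFB1 hFB2 Ψ hΨ4 p]
    ring

theorem cob : ∃ (k : ℕ) (F : Fin k → (CDisc ≃ₜ CDisc)) (f : Fin k → CDisc → ℝ),
    (∀ j (p : CDisc), ¬ ‖(p : ℂ)‖ < 1 → F j p = p) ∧
    (∀ j g, IsGood g → ∀ p, F j (SU.mv g p) = SU.mv g (F j p)) ∧
    (∀ j, ContinuousOn (f j) {p : CDisc | ‖(p : ℂ)‖ < 1}) ∧
    (∀ j g, IsGood g → ∀ p, f j (SU.mv g p) = f j p) ∧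
    ∀ p : CDisc, ‖(p : ℂ)‖ < 1 → ∑ j, (f j p - f j ((F j).symm p)) = 1 := by
  obtain ⟨M, q, ρ, φ, hsep, hφ, h0, hone⟩ := partition
  choose FA FB f h1 h2 h3 h4 h5 h6 h7 using fun j => cob_one (hsep j) (hφ j) (h0 j)
  let e : Fin (Fintype.card (Fin M × Bool)) ≃ Fin M × Bool := (Fintype.equivFin _).symm
  let F : Fin M × Bool → (CDisc ≃ₜ CDisc) := fun x => match x.2 with
    | true => FA x.1
    | false => FB x.1
  have k1 : ∀ (x : Fin M × Bool) (p : CDisc), ¬ ‖(p : ℂ)‖ < 1 → F x p = p := by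
    rintro ⟨j, b⟩ p hp
    cases b
    · exact h2 j p hp
    · exact h1 j p hp
  have k2 : ∀ (x : Fin M × Bool) g, IsGood g → ∀ p, F x (SU.mv g p) = SU.mv g (F x p) := by
    rintro ⟨j, b⟩ g hg p
    cases b
    · exact h4 j g hg p
    · exact h3 j g hg p
  refine ⟨_, fun i => F (e i), fun i => f (e i).1, fun i => k1 (e i), fun i => k2 (e i),
    fun i => h5 (e i).1, fun i => h6 (e i).1, fun p hp => ?_⟩
  rw [Equiv.sum_comp e (fun x : Fin M × Bool => f x.1 p - f x.1 ((F x).symm p)),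
    Fintype.sum_prod_type]
  refine Eq.trans (Finset.sum_congr rfl fun j _ => ?_) (hone p hp)
  rw [Fintype.sum_bool, h7 j p hp]

end Pool.Agent.H79.FB
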