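import Pool.Agent.H79.FB.Gen
import Pool.Agent.H79.FB.Alex

/-!
# The equivariant lift of an equivariant homeomorphism of the disc, the rotations
-/

namespace Pool.Agent.H79.FB

open ComplexConjugate

/-- `1 - conj p F(p)`, in the right half plane for `p` in the open disc. -/
lemma re_pos (p q : ℂ) (hp : ‖p‖ < 1) (hq : ‖q‖ ≤ 1) : 0 < (1 - conj p * q).re := by
  have h1 : ‖conj p * q‖ < 1 := by
    rw [norm_mul, Complex.norm_conj]
    have h3 := norm_nonneg p
    have h4 := norm_nonneg q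
    nlinarith
  have h2 := Complex.abs_re_le_norm (conj p * q)
  have h3 := (abs_le.1 h2).2
  rw [Complex.sub_re, Complex.one_re]
  linarith

lemma ne_zero_of_re_pos {w : ℂ} (h : 0 < w.re) : w ≠ 0 := by
  intro h1
  rw [h1] at h
  simp at h

lemma continuous_tau_comp {T : Type*} [TopologicalSpace T] (p q : T → ℂ)
    (hp : Continuous p) (hq : Continuous q) (hp1 : ∀ t, ‖p t‖ < 1) (hq1 : ∀ t, ‖q t‖ ≤ 1) :
    Continuous fun t => tau (1 - conj (p t) * q t) := by
  have hPf : Continuous fun t => 1 - conj (p t) * q t := by fun_prop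
  rw [continuous_iff_continuousAt]
  intro t
  exact (continuousAt_tau (re_pos _ _ (hp1 t) (hq1 t))).comp (f := fun t => 1 - conj (p t) * q t)
    hPf.continuousAt

lemma e_sub (s t : ℝ) : e (s - t) = e s * (e t)⁻¹ := by
  rw [sub_eq_add_neg, e_add, e_neg]

/-- The identity of arguments behind the equivariance. -/
lemma tau_identity (b : ℂ) (p q : CDisc) (hp : ‖(p : ℂ)‖ < 1) :
    tau (1 - conj (SU.mv (gen b) p : ℂ) * (SU.mv (gen b) q : ℂ)) =
      tau (1 - conj (p : ℂ) * q) + (Gen b).th p - (Gen b).th q := by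
  have hgp : ‖(SU.mv (gen b) p : ℂ)‖ < 1 := (SU.norm_mv_lt _ _).2 hp
  have hX := re_pos _ _ hgp (SU.mv (gen b) q).2
  have hY := re_pos _ _ hp q.2
  apply eq_of_e_eq
  · rw [e_sub, e_add, e_tau (ne_zero_of_re_pos hX),
      e_tau (ne_zero_of_re_pos hY), (Gen b).h, (Gen b).h, Gen_g]
    have hk := SU.key (gen b) p.2 q.2
    rw [← SU.coe_mv, ← SU.coe_mv] at hk
    rw [hk]
    have h1 := SU.J_ne_zero (gen b) p.2
    have h2 := SU.J_ne_zero (gen b) q.2
    have h3 : conj (SU.J (gen b) p) ≠ 0 := fun h => h1 ((map_eq_zero _).1 h)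
    have n1 : (‖SU.J (gen b) p‖ : ℂ) ≠ 0 := by
      have := norm_pos_iff.2 h1
      exact_mod_cast this.ne'
    have n2 : (‖SU.J (gen b) q‖ : ℂ) ≠ 0 := by
      have := norm_pos_iff.2 h2
      exact_mod_cast this.ne'
    have n3 : (‖1 - conj (p : ℂ) * q‖ : ℂ) ≠ 0 := by
      have := norm_pos_iff.2 (ne_zero_of_re_pos hY)
      exact_mod_cast this.ne'
    have n4 : 1 - conj (p : ℂ) * q ≠ 0 := ne_zero_of_re_pos hY
    have h5 : conj (SU.J (gen b) p) * SU.J (gen b) p =
        (‖SU.J (gen b) p‖ : ℂ) * (‖SU.J (gen b) p‖ : ℂ) := by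
      rw [mul_comm, Complex.mul_conj, Complex.normSq_eq_norm_sq]
      push_cast
      ring
    rw [norm_div, norm_mul, Complex.norm_conj]
    push_cast
    field_simp
    linear_combination (-1 : ℂ) * h5
  · have h1 := abs_lt.1 (abs_tau_lt hX)
    have h2 := abs_lt.1 (abs_tau_lt hY)
    have h3 := abs_lt.1 (abs_Gen_th b p)
    have h4 := abs_lt.1 (abs_Gen_th b q)
    rw [abs_lt]
    constructor <;> linarith [h1.1, h1.2, h2.1, h2.2, h3.1, h3.2, h4.1, h4.2]

lemma norm_bdry (t : ℝ) : ¬ ‖((bdry t : CDisc) : ℂ)‖ < 1 := by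
  have : ‖((bdry t : CDisc) : ℂ)‖ = 1 := norm_e t
  rw [this]
  exact lt_irrefl _

lemma int_of_fix (F : CDisc ≃ₜ CDisc) (hF : ∀ p : CDisc, ¬ ‖(p : ℂ)‖ < 1 → F p = p) (p : CDisc) :
    ‖(F p : ℂ)‖ < 1 ↔ ‖(p : ℂ)‖ < 1 := by
  constructor
  · intro h
    by_contra h1
    rw [hF p h1] at h
    exact h1 h
  · intro h
    by_contra h1
    have h2 := hF (F p) h1
    have h3 : F p = p := F.injective h2
    rw [h3] at h1
    exact h1 h

/-- The element of `W` of a homeomorphism of the closed disc which is the identity on the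
boundary. -/
noncomputable def Dw (n : ℤ) (F : CDisc ≃ₜ CDisc) (hF : ∀ p : CDisc, ¬ ‖(p : ℂ)‖ < 1 → F p = p) :
    W where
  F := F
  int := int_of_fix F hF
  L := 1
  per := fun _ => rfl
  bd := fun t => hF _ (norm_bdry t)
  z := ⟨fun p => - (n * tau (1 - conj (p : ℂ) * (F (cd p) : ℂ))), by
    have h := continuous_tau_comp (fun p : Disc => (p : ℂ)) (fun p : Disc => (F (cd p) : ℂ))
      (by fun_prop) (by
        have := continuous_cd
        fun_prop) (fun p => p.2) (fun p => (F (cd p)).2)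
    exact (continuous_const.mul h).neg⟩

@[simp] lemma Dw_F (n : ℤ) (F : CDisc ≃ₜ CDisc)
    (hF : ∀ p : CDisc, ¬ ‖(p : ℂ)‖ < 1 → F p = p) (p : CDisc) : (Dw n F hF).F p = F p := rfl
@[simp] lemma Dw_L (n : ℤ) (F : CDisc ≃ₜ CDisc)
    (hF : ∀ p : CDisc, ¬ ‖(p : ℂ)‖ < 1 → F p = p) (t : ℝ) : (Dw n F hF).L t = t := rfl
lemma Dw_z (n : ℤ) (F : CDisc ≃ₜ CDisc)
    (hF : ∀ p : CDisc, ¬ ‖(p : ℂ)‖ < 1 → F p = p) (p : Disc) :
    (Dw n F hF).z p = - (n * tau (1 - conj (p : ℂ) * (F (cd p) : ℂ))) := rfl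

theorem Dw_comm (n : ℤ) (F : CDisc ≃ₜ CDisc) (hF : ∀ p : CDisc, ¬ ‖(p : ℂ)‖ < 1 → F p = p)
    (b : ℂ) (h : ∀ p, F (SU.mv (gen b) p) = SU.mv (gen b) (F p)) :
    Lft.toW n (Gen b) * Dw n F hF = Dw n F hF * Lft.toW n (Gen b) := by
  apply W.ext'
  · intro p
    exact (h p).symm
  · intro t
    rfl
  · intro p
    rw [W.mul_z, W.mul_z, Lft.toW_z, Lft.toW_z, Dw_z, Dw_z, W.cd_r, W.cd_r, Dw_F, Lft.toW_F,
      Gen_g, h]
    have h1 := tau_identity b (cd p) (F (cd p)) p.2
    have h2 : (((Lft.toW n (Gen b)).r p : Disc) : ℂ) = (SU.mv (gen b) (cd p) : ℂ) := rfl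
    rw [h2, h1, coe_cd]
    ring

theorem iso_Dw (n : ℤ) (F : CDisc ≃ₜ CDisc) (hF : ∀ p : CDisc, ¬ ‖(p : ℂ)‖ < 1 → F p = p) :
    IsotopicToId (toS (Dw n F hF)) := by
  obtain ⟨Φ, h0, h1, h2, h3⟩ := alexander F hF
  have h := isotopic_of_family (fun s : unitInterval => Dw n (Φ s) (h2 s)) ?_ ?_ ?_
  · have h4 : Dw n (Φ 1) (h2 1) = Dw n F hF := by
      apply W.ext'
      · intro p
        exact h1 p
      · intro t
        rfl
      · intro p
        rw [Dw_z, Dw_z, h1]
    simp only [h4] at h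
    exact h
  · exact h3
  · have h5 : Continuous fun y : unitInterval × Disc => ((y.1, cd y.2) : unitInterval × CDisc) :=
      continuous_fst.prodMk (continuous_cd.comp continuous_snd)
    have h6 := h3.comp h5
    have h4 := continuous_tau_comp (fun y : unitInterval × Disc => (y.2 : ℂ))
      (fun y : unitInterval × Disc => (Φ y.1 (cd y.2) : ℂ)) (by fun_prop)
      (continuous_subtype_val.comp h6) (fun y => y.2.2) (fun y => (Φ y.1 (cd y.2)).2)
    exact (continuous_const.mul h4).neg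
  · intro x
    have h4 : Dw n (Φ 0) (h2 0) = 1 := by
      apply W.ext'
      · intro p
        exact h0 p
      · intro t
        rfl
      · intro p
        rw [Dw_z, h0, W.one_z, coe_cd]
        have h7 : 1 - conj (p : ℂ) * (p : ℂ) = ((1 - ‖(p : ℂ)‖ ^ 2 : ℝ) : ℂ) := by
          rw [mul_comm, Complex.mul_conj, Complex.normSq_eq_norm_sq]
          push_cast
          ring
        rw [h7, tau_ofReal]
        · ring
        · have := p.2
          have h8 := norm_nonneg (p : ℂ)
          nlinarith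
    simp only [h4]
    exact smap_one x

/-- The rotations of the fibres. -/
noncomputable def rot : Multiplicative C(Disc, ℝ) →* W where
  toFun f :=
    { F := 1
      int := fun _ => Iff.rfl
      L := 1
      per := fun _ => rfl
      bd := fun _ => rfl
      z := f.toAdd }
  map_one' := rfl
  map_mul' f g := by
    apply W.ext'
    · intro p
      rfl
    · intro t
      rfl
    · intro p
      rfl

@[simp] lemma rot_F (f : Multiplicative C(Disc, ℝ)) (p : CDisc) : (rot f).F p = p := rfl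
@[simp] lemma rot_L (f : Multiplicative C(Disc, ℝ)) (t : ℝ) : (rot f).L t = t := rfl
@[simp] lemma rot_r (f : Multiplicative C(Disc, ℝ)) (p : Disc) : (rot f).r p = p := rfl
@[simp] lemma rot_rs (f : Multiplicative C(Disc, ℝ)) (p : Disc) : (rot f).rs p = p := rfl
@[simp] lemma rot_z (f : Multiplicative C(Disc, ℝ)) (p : Disc) : (rot f).z p = f.toAdd p := rfl

theorem rot_comm (n : ℤ) (f : C(Disc, ℝ)) (x : Lft)
    (h : ∀ p : Disc, f ((Lft.toW n x).r p) = f p) :
    Lft.toW n x * rot (Multiplicative.ofAdd f) = rot (Multiplicative.ofAdd f) * Lft.toW n x := by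
  apply W.ext'
  · intro p
    rfl
  · intro t
    rfl
  · intro p
    simp only [W.mul_z, rot_z, rot_r, toAdd_ofAdd]
    rw [h]
    ring

theorem iso_rot (f : C(Disc, ℝ)) : IsotopicToId (toS (rot (Multiplicative.ofAdd f))) := by
  have h := isotopic_of_family
    (fun s : unitInterval => rot (Multiplicative.ofAdd ((s : ℝ) • f))) ?_ ?_ ?_
  · have h4 : ((1 : unitInterval) : ℝ) • f = f := by simp
    simp only [h4] at h
    exact h
  · exact continuous_snd
  · simp only [rot_z, toAdd_ofAdd, ContinuousMap.smul_apply, smul_eq_mul]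
    fun_prop
  · intro x
    have h4 : ((0 : unitInterval) : ℝ) • f = 0 := by simp
    simp only [h4]
    have h5 : rot (Multiplicative.ofAdd (0 : C(Disc, ℝ))) = 1 := map_one rot
    rw [h5]
    exact smap_one x

/-- The commutator of a rotation and of an element `D`. -/
theorem comm_rot (f : C(Disc, ℝ)) (D : W) :
    rot (Multiplicative.ofAdd f) * D * (rot (Multiplicative.ofAdd f))⁻¹ * D⁻¹ =
      rot (Multiplicative.ofAdd (f - f.comp D.rs)) := by
  apply W.ext'
  · intro p
    have h1 : ((rot (Multiplicative.ofAdd f))⁻¹).F (D.F.symm p) = D.F.symm p := rfl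
    simp only [W.mul_F, rot_F, W.inv_F]
    change D.F (D.F.symm p) = p
    simp
  · intro t
    simp only [W.mul_L, rot_L, W.inv_L]
    change D.L (D.L.symm t) = t
    simp
  · intro p
    simp only [W.mul_z, rot_z, W.inv_z, W.inv_r, toAdd_ofAdd, rot_rs, W.r_rs]
    simp only [ContinuousMap.sub_apply, ContinuousMap.comp_apply]
    ring

end Pool.Agent.H79.FB
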