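import Mathlib

/-!
# Flat S^3-bundles over products of two surfaces: definitions for the statement
-/

namespace Pool.Agent.H79.FB

/-- The unit sphere `S^3` of `ℂ × ℂ`. -/
abbrev S3 : Type := {x : ℂ × ℂ // ‖x.1‖ ^ 2 + ‖x.2‖ ^ 2 = 1}

/-- The open unit disc. -/
abbrev Disc : Type := {p : ℂ // ‖p‖ < 1}

/-- `e t = exp (2 π i t)`. -/
noncomputable def e (t : ℝ) : ℂ := Complex.exp ((2 * Real.pi * t : ℝ) * Complex.I)

lemma norm_e (t : ℝ) : ‖e t‖ = 1 := by
  unfold e
  exact Complex.norm_exp_ofReal_mul_I _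

lemma continuous_e : Continuous e := by
  unfold e
  fun_prop

lemma e_add (s t : ℝ) : e (s + t) = e s * e t := by
  unfold e
  rw [← Complex.exp_add]
  congr 1
  push_cast
  ring

lemma e_zero : e 0 = 1 := by
  unfold e
  simp

lemma e_one : e 1 = 1 := by
  unfold e
  rw [mul_one]
  push_cast
  exact Complex.exp_two_pi_mul_I

/-- The universal covering `ℝ → R` of the great circle `R = {z = 0}` of `S^3`. -/
noncomputable def circ (t : ℝ) : S3 := ⟨(e t, 0), by simp [norm_e]⟩

/-- The universal covering `Disc × ℝ → S^3 \ R` of the complement of the great circle `R`. -/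
noncomputable def tor (x : Disc × ℝ) : S3 :=
  ⟨((x.1 : ℂ), (Real.sqrt (1 - ‖(x.1 : ℂ)‖ ^ 2) : ℂ) * e x.2), by
    have h1 : 0 ≤ 1 - ‖(x.1 : ℂ)‖ ^ 2 := by
      have := x.1.2
      have h0 := norm_nonneg (x.1 : ℂ)
      nlinarith
    simp only [norm_mul, norm_e, mul_one]
    rw [Complex.norm_real, Real.norm_eq_abs, sq_abs, Real.sq_sqrt h1]
    ring⟩

/-- The rotation `(p, z) ↦ (p, e^{2πis} z)` of `S^3` through `s` turns about the great circle
`R = {z = 0}`. -/
noncomputable def turn (s : ℝ) : S3 ≃ₜ S3 where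
  toFun x := ⟨(x.1.1, e s * x.1.2), by simpa [norm_e] using x.2⟩
  invFun x := ⟨(x.1.1, e (-s) * x.1.2), by simpa [norm_e] using x.2⟩
  left_inv x := Subtype.ext (Prod.ext rfl (by
    change e (-s) * (e s * x.1.2) = x.1.2
    rw [← mul_assoc, ← e_add, neg_add_cancel, e_zero, one_mul]))
  right_inv x := Subtype.ext (Prod.ext rfl (by
    change e s * (e (-s) * x.1.2) = x.1.2
    rw [← mul_assoc, ← e_add, add_neg_cancel, e_zero, one_mul]))
  continuous_toFun := by fun_prop
  continuous_invFun := by fun_prop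

/-- A homeomorphism of `S^3` is isotopic to the identity: there is a level preserving
homeomorphism of `[0,1] × S^3` which is the identity on the level `0` and `h` on the level `1`. -/
def IsotopicToId (h : S3 ≃ₜ S3) : Prop :=
  ∃ Φ : (unitInterval × S3) ≃ₜ (unitInterval × S3),
    (∀ y, (Φ y).1 = y.1) ∧ (∀ x, (Φ (0, x)).2 = x) ∧ (∀ x, (Φ (1, x)).2 = h x)

/-- A homeomorphism `x.1` of `S^3`, a homeomorphism `x.2.1` of `ℝ` and a homeomorphism `x.2.2`
of `Disc × ℝ`. -/
abbrev Triple : Type := (S3 ≃ₜ S3) × (ℝ ≃ₜ ℝ) × ((Disc × ℝ) ≃ₜ (Disc × ℝ))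

/-- The group of the triples `(h, u, v)` where `h` is a homeomorphism of `S^3` isotopic to the
identity, which maps the great circle `R` to itself, `u` is a lift of `h | R` to the universal
covering `ℝ` of `R` commuting with the translation by `1`, and `v` is a lift of `h | S^3 \ R` to
the universal covering `Disc × ℝ` of `S^3 \ R` commuting with the translation by `1`. -/
structure IsLifted (x : Triple) : Prop where
  iso : IsotopicToId x.1
  circ : ∀ t, x.1 (circ t) = circ (x.2.1 t)
  circ_add : ∀ t, x.2.1 (t + 1) = x.2.1 t + 1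
  tor : ∀ y, x.1 (tor y) = tor (x.2.2 y)
  tor_add : ∀ p t, x.2.2 (p, t + 1) = ((x.2.2 (p, t)).1, (x.2.2 (p, t)).2 + 1)

/-- The triple of the identity of `S^3`, the translation of `ℝ` by `r`, the translation of
`Disc × ℝ` by `s`. -/
noncomputable def shift (r s : ℤ) : Triple :=
  (1, Homeomorph.addRight (r : ℝ), (Homeomorph.refl Disc).prodCongr (Homeomorph.addRight (s : ℝ)))

/-- The product `[a_1, b_1] ⋯ [a_g, b_g]`. -/
def prodComm {G : Type} [Group G] {g : ℕ} (a b : Fin g → G) : G :=
  (List.ofFn fun i => a i * b i * (a i)⁻¹ * (b i)⁻¹).prod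

/-- A `C^0`-flat oriented `S^3`-bundle over the product `Σ_g × Σ_k` of two closed oriented
surfaces which preserves the great circle `R` of the fibre: the images `a_i, b_i` of the
standard generators of `π_1(Σ_g)` and `c_j, d_j` of the standard generators of `π_1(Σ_k)`
in `Homeo_0(S^3)`, with lifts of their restrictions to `R` and to `S^3 \ R`, such that the lifts of
the first ones commute with the lifts of the second ones.

The relators of the lifts are translations by integers: `r₁` and `r₂` are the Euler numbers over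
`Σ_g` and over `Σ_k` of the flat circle bundle with fibre `R`, and `s₁` and `s₂` those
of the flat bundle with fibre `S^3 \ R` (which is homotopy equivalent to a circle). -/
structure FlatBundle (g k : ℕ) where
  a : Fin g → Triple
  b : Fin g → Triple
  c : Fin k → Triple
  d : Fin k → Triple
  lifted_a : ∀ i, IsLifted (a i)
  lifted_b : ∀ i, IsLifted (b i)
  lifted_c : ∀ j, IsLifted (c j)
  lifted_d : ∀ j, IsLifted (d j)
  comm_ac : ∀ i j, a i * c j = c j * a i
  comm_ad : ∀ i j, a i * d j = d j * a i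
  comm_bc : ∀ i j, b i * c j = c j * b i
  comm_bd : ∀ i j, b i * d j = d j * b i
  r₁ : ℤ
  s₁ : ℤ
  r₂ : ℤ
  s₂ : ℤ
  relator₁ : prodComm a b = shift r₁ s₁
  relator₂ : prodComm c d = shift r₂ s₂

/-- The Euler number: `x_R ∪ x_A` for the classes `x_R = r₁ α + r₂ β` and
`x_A = s₁ α + s₂ β`, where `α` and `β` are the generators of `H^2(Σ_g)` and `H^2(Σ_k)`. -/
def FlatBundle.euler {g k : ℕ} (E : FlatBundle g k) : ℤ := E.r₁ * E.s₂ + E.r₂ * E.s₁

/-- The Pontryagin number: `x_R ∪ x_R + x_A ∪ x_A`. -/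
def FlatBundle.pontryagin {g k : ℕ} (E : FlatBundle g k) : ℤ :=
  2 * (E.r₁ * E.r₂ + E.s₁ * E.s₂)

end Pool.Agent.H79.FB
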