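import Pool.Agent.H79.FB.Arith1
import Pool.Agent.H79.FB.Arith2

/-!
# Cocompactness: every point of the open disc can be moved to `‖p‖ ≤ 9/10`

Proof. The set `{g : IsGood g ∧ ‖J g p‖ ≤ 1}` is finite (`SU.norm_J_ge` gives
`‖g.a‖ (1 - ‖p‖) ≤ 1`, then `good_finite`) and contains `1` (`J 1 p = 1`). Take `g` in it with
`‖J g p‖` minimal (`Set.Finite.exists_minimalFor` or `Set.exists_min_image`); it is minimal
among all good elements. Let `w = mv g p`. For all `k`, `bz k * g` is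
good and `J (bz k * g) p = J (bz k) w * J g p` (`SU.J_mul`), so `‖J (bz k) w‖ ≥ 1`.
Claim: this forces `‖w‖ ≤ 9/10`. Here `J (bz k) w = beta conj(ω)^k w + (1 + √2)` (`bz_a`, `bz_b`),
so `‖J (bz k) w‖^2 = (1+√2)^2 + beta^2 r^2 + 2 (1+√2) beta Re (conj(ω)^k w)` with `r = ‖w‖`.
For some `k < 8` one has `Re (conj(ω)^k w) ≤ - (23/25) r` (because the directions `-ω^k` are at
angles `π/4`, and `cos (π/8) > 0.9238 > 23/25`; elementary proof: with `w = u + i v`, the eight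
values are `±u, ±v, ±(u+v)/√2, ±(u-v)/√2`, and if all are `> -(23/25) r`, then
`|u|, |v|, |u+v|/√2, |u-v|/√2` are all `< (23/25) r`; WLOG `u ≥ v ≥ 0`: `u^2 < c (u^2+v^2)`,
`(u+v)^2 < 2 c (u^2+v^2)`, `c = (23/25)^2 = 0.8464`, so `v > 0.4259 u` and
`2 u v < (2c - 1)(u^2+v^2)`, i.e. with `t = v/u` in `(0.4259, 1]`: `0.6928 (1 + t^2) > 2 t`, but
`0.6928 (1+t^2) - 2t` is negative on this interval). Then for `9/10 < r < 1`
`‖J‖^2 ≤ (3 + 2√2) + (2 + 2√2) r^2 - 2 (1+√2) beta (23/25) r < 1`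
(`√2 ∈ (1.41421, 1.41422)`, `beta ∈ (2.1973, 2.1974)`; convex in `r`, the values at `9/10` and at `1`
are about `0.955` and `0.896`), contradiction.
-/

namespace Pool.Agent.H79.FB

open ComplexConjugate

private lemma oct {c m u v : ℝ} (hc : c * c = 2) (hc0 : 1 < c)
    (h0 : -m ≤ u) (h4 : -m ≤ -u) (h2 : -m ≤ v) (h6 : -m ≤ -v)
    (h1 : -m ≤ c / 2 * (u + v)) (h5 : -m ≤ -(c / 2 * (u + v)))
    (h3 : -m ≤ c / 2 * (v - u)) (h7 : -m ≤ c / 2 * (u - v)) :
    u ^ 2 + v ^ 2 ≤ (4 - 2 * c) * m ^ 2 := by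
  have key : ∀ U V : ℝ, 0 ≤ V → V ≤ U → U ≤ m → c / 2 * (U + V) ≤ m →
      U ^ 2 + V ^ 2 ≤ (4 - 2 * c) * m ^ 2 := by
    intro U V hV hVU hU hUV
    have hm : 0 ≤ m := by linarith
    have hs : U + V ≤ c * m := by
      have : c * (c / 2 * (U + V)) ≤ c * m := mul_le_mul_of_nonneg_left hUV (by linarith)
      have e : c * (c / 2 * (U + V)) = U + V := by linear_combination (U + V) / 2 * hc
      linarith
    rcases le_total V ((c - 1) * m) with h | h
    · have a1 : U ^ 2 ≤ m ^ 2 := by nlinarith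
      have a2 : V ^ 2 ≤ ((c - 1) * m) ^ 2 := by nlinarith
      have a3 : ((c - 1) * m) ^ 2 = (3 - 2 * c) * m ^ 2 := by linear_combination m ^ 2 * hc
      linarith
    · have a1 : U ^ 2 ≤ (c * m - V) ^ 2 := by nlinarith
      have a2 : 0 ≤ (V - (c - 1) * m) * (m - V) :=
        mul_nonneg (by linarith) (by linarith)
      have a3 : (c * m - V) ^ 2 + V ^ 2 - (4 - 2 * c) * m ^ 2 =
          -(2 * ((V - (c - 1) * m) * (m - V))) := by linear_combination m ^ 2 * hc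
      linarith
  have hu2 : |u| ^ 2 = u ^ 2 := sq_abs u
  have hv2 : |v| ^ 2 = v ^ 2 := sq_abs v
  have hu : |u| ≤ m := abs_le.2 ⟨h0, by linarith⟩
  have hv : |v| ≤ m := abs_le.2 ⟨h2, by linarith⟩
  have huv : c / 2 * (|u| + |v|) ≤ m := by
    rcases abs_cases u with ⟨e1, _⟩ | ⟨e1, _⟩ <;> rcases abs_cases v with ⟨e2, _⟩ | ⟨e2, _⟩ <;>
      rw [e1, e2] <;> nlinarith
  rcases le_total |v| |u| with h | h
  · have := key |u| |v| (abs_nonneg v) h hu huv
    rwa [hu2, hv2] at this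
  · have := key |v| |u| (abs_nonneg u) h hv (by rwa [add_comm |v|])
    rw [hu2, hv2] at this
    linarith

private lemma jsq (z w : ℂ) (hz : z.re ^ 2 + z.im ^ 2 = 1) :
    Complex.normSq (conj ((beta : ℂ) * z) * w + conj (1 + ((Real.sqrt 2 : ℝ) : ℂ))) =
      (1 + Real.sqrt 2) ^ 2 + beta ^ 2 * (w.re ^ 2 + w.im ^ 2) +
        2 * (1 + Real.sqrt 2) * beta * (z.re * w.re + z.im * w.im) := by
  rw [Complex.normSq_apply]
  simp only [Complex.add_re, Complex.add_im, Complex.mul_re, Complex.mul_im, Complex.conj_re,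
    Complex.conj_im, Complex.ofReal_re, Complex.ofReal_im, Complex.one_re, Complex.one_im]
  linear_combination (beta ^ 2 * (w.re ^ 2 + w.im ^ 2)) * hz

theorem fund {p : CDisc} (hp : ‖(p : ℂ)‖ < 1) :
    ∃ g, IsGood g ∧ ‖((SU.mv g p : CDisc) : ℂ)‖ ≤ 9 / 10 := by
  have hfin : {g : SU | IsGood g ∧ ‖SU.J g p‖ ≤ 1}.Finite := by
    refine (good_finite (1 / (1 - ‖(p : ℂ)‖))).subset ?_
    rintro g ⟨hg, hJ⟩
    refine ⟨hg, ?_⟩
    have h1 := SU.norm_J_ge g (le_refl ‖(p : ℂ)‖)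
    rw [le_div_iff₀ (by linarith)]
    linarith
  have hne : {g : SU | IsGood g ∧ ‖SU.J g p‖ ≤ 1}.Nonempty := by
    refine ⟨1, isGood_one, ?_⟩
    unfold SU.J
    simp
  obtain ⟨g, ⟨hg, hg1⟩, hmin⟩ := Set.exists_min_image _ (fun g => ‖SU.J g p‖) hfin hne
  have hmin' : ∀ h, IsGood h → ‖SU.J g p‖ ≤ ‖SU.J h p‖ := by
    intro h hh
    by_cases h1 : ‖SU.J h p‖ ≤ 1
    · exact hmin h ⟨hh, h1⟩
    · linarith
  refine ⟨g, hg, ?_⟩
  by_contra hcon
  rw [not_le] at hcon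
  set w : CDisc := SU.mv g p with hw
  have hw1 : ‖(w : ℂ)‖ < 1 := (SU.norm_mv_lt g p).2 hp
  have hJpos : 0 < ‖SU.J g p‖ := norm_pos_iff.2 (SU.J_ne_zero g p.2)
  have hk : ∀ k, 1 ≤ ‖SU.J (bz k) w‖ := by
    intro k
    have h1 := hmin' (bz k * g) (isGood_mul (isGood_bz k) hg)
    rw [SU.J_mul, norm_mul, ← hw] at h1
    by_contra h2
    rw [not_le] at h2
    have := mul_lt_mul_of_pos_right h2 hJpos
    linarith
  set c : ℝ := Real.sqrt 2 with hc
  have hcc : c * c = 2 := sqrt_two_sq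
  have hc0 : 0 ≤ c := Real.sqrt_nonneg 2
  have hc1 : 141 / 100 < c := by nlinarith
  have hc2 : c < 1415 / 1000 := by nlinarith
  have hb := beta_sq
  rw [← hc] at hb
  have hb0 := beta_pos
  set u : ℝ := (w : ℂ).re with hu
  set v : ℝ := (w : ℂ).im with hv
  set s : ℝ := u ^ 2 + v ^ 2 with hs
  have hsw : s = ‖(w : ℂ)‖ ^ 2 := by
    rw [← Complex.normSq_eq_norm_sq, Complex.normSq_apply]
    ring
  set m : ℝ := beta * (1 + s) / (2 * (1 + c)) with hm
  have hlin : ∀ (k : ℕ) (z : ℂ), om ^ k = z → z.re ^ 2 + z.im ^ 2 = 1 →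
      -m ≤ z.re * u + z.im * v := by
    intro k z hz hz1
    have h1 := hk k
    have h2 : (1 : ℝ) ≤ Complex.normSq (SU.J (bz k) w) := by
      rw [Complex.normSq_eq_norm_sq]
      nlinarith
    unfold SU.J at h2
    rw [bz_a, bz_b, hz, jsq z w hz1, ← hc, ← hu, ← hv, ← hs] at h2
    rw [hm, neg_le_iff_add_nonneg]
    have h3 : 0 ≤ beta * (beta * (1 + s) + 2 * (1 + c) * (z.re * u + z.im * v)) := by
      nlinarith
    have h4 := nonneg_of_mul_nonneg_right h3 hb0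
    have h5 : z.re * u + z.im * v + beta * (1 + s) / (2 * (1 + c)) =
        (beta * (1 + s) + 2 * (1 + c) * (z.re * u + z.im * v)) / (2 * (1 + c)) := by
      field_simp
      ring
    rw [h5]
    exact div_nonneg h4 (by linarith)
  have o1 : om = ⟨c / 2, c / 2⟩ := by
    unfold om
    apply Complex.ext <;> simp [hc]
  have hcq : (c / 2) ^ 2 + (c / 2) ^ 2 = 1 := by linear_combination (1 / 2) * hcc
  have o2 : om ^ 2 = ⟨0, 1⟩ := by
    rw [om_sq]
    apply Complex.ext <;> simp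
  have o3 : om ^ 3 = ⟨-(c / 2), c / 2⟩ := by
    have : om ^ 3 = om ^ 2 * om := by ring
    rw [this, o2, o1]
    apply Complex.ext <;> simp
  have o4 : om ^ 4 = ⟨-1, 0⟩ := by
    rw [om_four]
    apply Complex.ext <;> simp
  have o5 : om ^ 5 = ⟨-(c / 2), -(c / 2)⟩ := by
    have : om ^ 5 = om ^ 4 * om := by ring
    rw [this, o4, o1]
    apply Complex.ext <;> simp
  have o6 : om ^ 6 = ⟨0, -1⟩ := by
    have : om ^ 6 = om ^ 4 * om ^ 2 := by ring
    rw [this, o4, o2]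
    apply Complex.ext <;> simp
  have o7 : om ^ 7 = ⟨c / 2, -(c / 2)⟩ := by
    have : om ^ 7 = om ^ 4 * om ^ 3 := by ring
    rw [this, o4, o3]
    apply Complex.ext <;> simp
  have l0 := hlin 0 ⟨1, 0⟩ (by apply Complex.ext <;> simp) (by norm_num)
  have l1 := hlin 1 ⟨c / 2, c / 2⟩ (by rw [pow_one]; exact o1) hcq
  have l2 := hlin 2 _ o2 (by norm_num)
  have l3 := hlin 3 _ o3 (by simp only; linarith)
  have l4 := hlin 4 _ o4 (by norm_num)
  have l5 := hlin 5 _ o5 (by simp only; linarith)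
  have l6 := hlin 6 _ o6 (by norm_num)
  have l7 := hlin 7 _ o7 (by simp only; linarith)
  simp only at l0 l1 l2 l3 l4 l5 l6 l7
  have hoct := oct (c := c) (m := m) (u := u) (v := v) hcc (by linarith) (by linarith)
    (by linarith) (by linarith) (by linarith) (by linarith) (by linarith) (by linarith)
    (by linarith)
  rw [← hs] at hoct
  have hm2 : 2 * (1 + c) * m ^ 2 = (1 + s) ^ 2 := by
    have hne : (1 + c) ≠ 0 := by linarith
    rw [hm]
    field_simp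
    linear_combination (1 + s) ^ 2 * hb
  have hs1 : 81 / 100 < s := by
    rw [hsw]
    nlinarith
  have hs2 : s < 1 := by
    rw [hsw]
    have := norm_nonneg (w : ℂ)
    nlinarith
  have e1 : s ≤ (3 * c - 4) * (1 + s) ^ 2 := by
    rw [← hm2]
    have : (3 * c - 4) * (2 * (1 + c) * m ^ 2) = (4 - 2 * c) * m ^ 2 := by
      linear_combination 6 * m ^ 2 * hcc
    rw [this]
    exact hoct
  have e2 : 3 * c - 4 < 245 / 1000 := by linarith
  have e3 : (1 + s) ^ 2 ≤ 19 / 100 + 381 / 100 * s := by nlinarith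
  nlinarith

end Pool.Agent.H79.FB
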