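import Pool.Agent.H79.FB.SU

/-!
# The arithmetic group: definitions
-/

namespace Pool.Agent.H79.FB

open ComplexConjugate

/-- The eighth root of unity `exp (i π / 4)`. -/
noncomputable def om : ℂ := ((Real.sqrt 2 / 2 : ℝ) : ℂ) + ((Real.sqrt 2 / 2 : ℝ) : ℂ) * Complex.I

/-- The elements of `ℤ[ω]`. -/
noncomputable def ev (x : Fin 4 → ℤ) : ℂ := x 0 + x 1 * om + x 2 * om ^ 2 + x 3 * om ^ 3

/-- The constant `√(2 + 2√2)`. -/
noncomputable def beta : ℝ := Real.sqrt (2 + 2 * Real.sqrt 2)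

/-- The elements of the arithmetic group. -/
def IsGood (g : SU) : Prop :=
  ∃ x y : Fin 4 → ℤ, g.a = ev x ∧ g.b = beta * ev y ∧ Odd (x 0) ∧ Even (x 2) ∧ Even (x 1 - x 3)

/-- The hyperbolic elements `(√(1 + |b|^2), b)` of `SU(1,1)`. -/
noncomputable def gen (b : ℂ) : SU :=
  ⟨((Real.sqrt (1 + ‖b‖ ^ 2) : ℝ) : ℂ), b, by
    have h : 0 ≤ 1 + ‖b‖ ^ 2 := by positivity
    rw [Complex.normSq_ofReal, Real.mul_self_sqrt h, Complex.normSq_eq_norm_sq]
    ring⟩

/-- The generator number `k` of the group of the regular octagon (Bolza surface). -/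
noncomputable def bz (k : ℕ) : SU := gen (beta * om ^ k)

lemma sqrt_two_sq : Real.sqrt 2 * Real.sqrt 2 = 2 := Real.mul_self_sqrt (by norm_num)

lemma beta_sq : beta * beta = 2 + 2 * Real.sqrt 2 := by
  unfold beta
  exact Real.mul_self_sqrt (by positivity)

lemma beta_pos : 0 < beta := by
  unfold beta
  positivity

lemma csqrt_two_sq : ((Real.sqrt 2 : ℝ) : ℂ) * ((Real.sqrt 2 : ℝ) : ℂ) = 2 := by
  rw [← Complex.ofReal_mul, sqrt_two_sq]
  norm_num

lemma om_sq : om ^ 2 = Complex.I := by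
  unfold om
  push_cast
  linear_combination ((1 + Complex.I) ^ 2 / 4) * csqrt_two_sq + (1 / 2 : ℂ) * Complex.I_sq

lemma om_four : om ^ 4 = -1 := by
  have h : om ^ 4 = (om ^ 2) ^ 2 := by ring
  rw [h, om_sq, Complex.I_sq]

lemma om_eight : om ^ 8 = 1 := by
  have h : om ^ 8 = (om ^ 4) ^ 2 := by ring
  rw [h, om_four]
  norm_num

lemma norm_om : ‖om‖ = 1 := by
  have h : ‖om‖ ^ 8 = 1 := by
    rw [← norm_pow, om_eight, norm_one]
  exact (pow_eq_one_iff_of_nonneg (norm_nonneg _) (by norm_num)).1 h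

lemma om_mul_conj : om * conj om = 1 := by
  rw [Complex.mul_conj, Complex.normSq_eq_norm_sq, norm_om]
  norm_num

lemma conj_om : conj om = - om ^ 3 := by
  have h := om_mul_conj
  have h2 : om ≠ 0 := by
    intro h3
    rw [h3] at h
    simp at h
  apply mul_left_cancel₀ h2
  rw [h]
  linear_combination om_four

lemma om_eq : om = ((Real.sqrt 2 : ℝ) : ℂ) / 2 * (1 + Complex.I) := by
  unfold om
  push_cast
  ring

/-- `√2 = ω - ω^3`. -/
lemma csqrt_two : ((Real.sqrt 2 : ℝ) : ℂ) = om - om ^ 3 := by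
  have h : om ^ 3 = om ^ 2 * om := by ring
  rw [h, om_sq, om_eq]
  linear_combination ((((Real.sqrt 2 : ℝ) : ℂ)) / 2) * Complex.I_sq

lemma norm_beta_om (k : ℕ) : ‖(beta : ℂ) * om ^ k‖ = beta := by
  rw [norm_mul, norm_pow, norm_om, one_pow, mul_one, Complex.norm_real, Real.norm_eq_abs,
    abs_of_pos beta_pos]

lemma bz_b (k : ℕ) : (bz k).b = beta * om ^ k := rfl

lemma bz_a (k : ℕ) : (bz k).a = 1 + ((Real.sqrt 2 : ℝ) : ℂ) := by
  have h : Real.sqrt (1 + ‖(beta : ℂ) * om ^ k‖ ^ 2) = 1 + Real.sqrt 2 := by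
    rw [norm_beta_om]
    have h1 : 1 + beta ^ 2 = (1 + Real.sqrt 2) ^ 2 := by
      have h2 := beta_sq
      have h3 := sqrt_two_sq
      nlinarith
    rw [h1, Real.sqrt_sq (by positivity)]
  change ((Real.sqrt (1 + ‖(beta : ℂ) * om ^ k‖ ^ 2) : ℝ) : ℂ) = _
  rw [h]
  push_cast
  ring

end Pool.Agent.H79.FB
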