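import Pool.Agent.H79.FB.Smap

/-!
# Isotopies
-/

namespace Pool.Agent.H79.FB

instance compactSpace_S3 : CompactSpace S3 := by
  refine isCompact_iff_compactSpace.1 (?_ : IsCompact {x : ℂ × ℂ | ‖x.1‖ ^ 2 + ‖x.2‖ ^ 2 = 1})
  apply Metric.isCompact_of_isClosed_isBounded
  · exact isClosed_eq (by fun_prop) continuous_const
  · rw [isBounded_iff_forall_norm_le]
    refine ⟨1, ?_⟩
    rintro ⟨x, y⟩ h
    simp only [Set.mem_setOf_eq] at h
    have h1 := norm_nonneg x
    have h2 := norm_nonneg y
    rw [Prod.norm_def]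
    apply max_le
    · nlinarith [sq_nonneg ‖y‖]
    · nlinarith [sq_nonneg ‖x‖]

/-- A family of elements of `W` from an element acting as the identity gives an isotopy. -/
theorem isotopic_of_family (w : unitInterval → W)
    (hF : Continuous fun y : unitInterval × CDisc => (w y.1).F y.2)
    (hz : Continuous fun y : unitInterval × Disc => (w y.1).z y.2)
    (h0 : ∀ x, smap (w 0) x = x) : IsotopicToId (toS (w 1)) := by
  have hc := continuous_smap_family w hF hz
  let E : (unitInterval × S3) ≃ (unitInterval × S3) :=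
    { toFun := fun y => (y.1, smap (w y.1) y.2)
      invFun := fun y => (y.1, smap (w y.1)⁻¹ y.2)
      left_inv := fun y => by
        simp only
        rw [← smap_mul, inv_mul_cancel, smap_one]
      right_inv := fun y => by
        simp only
        rw [← smap_mul, mul_inv_cancel, smap_one] }
  have hE : Continuous E := continuous_fst.prodMk hc
  refine ⟨Continuous.homeoOfEquivCompactToT2 (f := E) hE, fun y => rfl, fun x => h0 x,
    fun x => rfl⟩

theorem isotopic_mul {h k : S3 ≃ₜ S3} (hh : IsotopicToId h) (hk : IsotopicToId k) :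
    IsotopicToId (h * k) := by
  obtain ⟨Φ, h1, h2, h3⟩ := hh
  obtain ⟨Ψ, k1, k2, k3⟩ := hk
  refine ⟨Ψ.trans Φ, fun y => ?_, fun x => ?_, fun x => ?_⟩
  · rw [Homeomorph.trans_apply, h1, k1]
  · have h5 : Ψ (0, x) = (0, x) := Prod.ext (k1 _) (k2 x)
    rw [Homeomorph.trans_apply, h5, h2]
  · have h5 : Ψ (1, x) = (1, k x) := Prod.ext (k1 _) (k3 x)
    rw [Homeomorph.trans_apply, h5, h3]
    rfl

theorem isotopic_inv {h : S3 ≃ₜ S3} (hh : IsotopicToId h) : IsotopicToId h⁻¹ := by
  obtain ⟨Φ, h1, h2, h3⟩ := hh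
  have h4 : ∀ y, (Φ.symm y).1 = y.1 := fun y => by
    have := h1 (Φ.symm y)
    rw [Homeomorph.apply_symm_apply] at this
    exact this.symm
  refine ⟨Φ.symm, h4, fun x => ?_, fun x => ?_⟩
  · have h5 : Φ (0, x) = (0, x) := Prod.ext (h1 _) (h2 x)
    have h6 : Φ.symm (0, x) = (0, x) := by
      rw [Homeomorph.symm_apply_eq]
      exact h5.symm
    rw [h6]
  · have h5 : Φ (1, h.symm x) = (1, x) := Prod.ext (h1 _) (by rw [h3, Homeomorph.apply_symm_apply])
    have h6 : Φ.symm (1, x) = (1, h.symm x) := by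
      rw [Homeomorph.symm_apply_eq]
      exact h5.symm
    rw [h6]
    rfl

end Pool.Agent.H79.FB
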