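import Pool.Agent.H79.FB.Lft
import Pool.Agent.H79.FB.Good
import Pool.Agent.H79.FB.Iso

/-!
# The hyperbolic elements: canonical lifts and isotopies
-/

namespace Pool.Agent.H79.FB

open ComplexConjugate

lemma sqrt_pos' (b : ℂ) : 0 < Real.sqrt (1 + ‖b‖ ^ 2) := Real.sqrt_pos.2 (by positivity)

lemma norm_lt_sqrt (b : ℂ) : ‖b‖ < Real.sqrt (1 + ‖b‖ ^ 2) := by
  apply Real.lt_sqrt_of_sq_lt
  linarith

/-- The function `1 + conj b p / √(1 + |b|^2)`, the cocycle up to a positive factor. -/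
noncomputable def Pf (b p : ℂ) : ℂ := 1 + conj b * p / ((Real.sqrt (1 + ‖b‖ ^ 2) : ℝ) : ℂ)

lemma re_Pf_pos (b : ℂ) {p : ℂ} (hp : ‖p‖ ≤ 1) : 0 < (Pf b p).re := by
  have h1 : ‖conj b * p / ((Real.sqrt (1 + ‖b‖ ^ 2) : ℝ) : ℂ)‖ < 1 := by
    rw [norm_div, norm_mul, Complex.norm_conj, Complex.norm_real, Real.norm_eq_abs,
      abs_of_pos (sqrt_pos' b), div_lt_one (sqrt_pos' b)]
    have h2 := norm_lt_sqrt b
    have h3 := norm_nonneg b
    have h4 := norm_nonneg p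
    nlinarith
  have h2 := Complex.abs_re_le_norm (conj b * p / ((Real.sqrt (1 + ‖b‖ ^ 2) : ℝ) : ℂ))
  have h3 := (abs_le.1 h2).1
  unfold Pf
  rw [Complex.add_re, Complex.one_re]
  linarith

lemma J_gen (b p : ℂ) :
    SU.J (gen b) p = ((Real.sqrt (1 + ‖b‖ ^ 2) : ℝ) : ℂ) * Pf b p := by
  have h : ((Real.sqrt (1 + ‖b‖ ^ 2) : ℝ) : ℂ) ≠ 0 := by
    have := sqrt_pos' b
    exact_mod_cast this.ne'
  unfold SU.J Pf
  have h1 : (gen b).a = ((Real.sqrt (1 + ‖b‖ ^ 2) : ℝ) : ℂ) := rfl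
  have h2 : (gen b).b = b := rfl
  rw [h1, h2, Complex.conj_ofReal]
  field_simp
  ring

lemma J_div (b p : ℂ) :
    SU.J (gen b) p / (‖SU.J (gen b) p‖ : ℂ) = Pf b p / (‖Pf b p‖ : ℂ) := by
  have h : ((Real.sqrt (1 + ‖b‖ ^ 2) : ℝ) : ℂ) ≠ 0 := by
    have := sqrt_pos' b
    exact_mod_cast this.ne'
  rw [J_gen, norm_mul, Complex.norm_real, Real.norm_eq_abs, abs_of_pos (sqrt_pos' b)]
  push_cast
  rw [mul_div_mul_left _ _ h]

lemma continuous_tau_Pf {T : Type*} [TopologicalSpace T] (b : T → ℂ) (p : T → ℂ)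
    (hb : Continuous b) (hp : Continuous p) (hp1 : ∀ t, ‖p t‖ ≤ 1) :
    Continuous fun t => tau (Pf (b t) (p t)) := by
  have hPf : Continuous fun t => Pf (b t) (p t) := by
    unfold Pf
    apply continuous_const.add
    apply Continuous.div
    · fun_prop
    · fun_prop
    · intro t
      have := sqrt_pos' (b t)
      exact_mod_cast this.ne'
  rw [continuous_iff_continuousAt]
  intro t
  exact (continuousAt_tau (re_Pf_pos (b t) (hp1 t))).comp (f := fun t => Pf (b t) (p t))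
    hPf.continuousAt

/-- The canonical lift of `gen b`. -/
noncomputable def Gen (b : ℂ) : Lft where
  g := gen b
  th := ⟨fun p => tau (Pf b p),
    continuous_tau_Pf (fun _ => b) (fun p : CDisc => (p : ℂ)) continuous_const
      continuous_subtype_val (fun p => p.2)⟩
  h p := by
    change e (tau (Pf b p)) = _
    have h := re_Pf_pos b p.2
    have h0 : Pf b p ≠ 0 := by
      intro h1
      rw [h1] at h
      simp at h
    rw [e_tau h0, J_div]

@[simp] lemma Gen_g (b : ℂ) : (Gen b).g = gen b := rfl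
@[simp] lemma Gen_th (b : ℂ) (p : CDisc) : (Gen b).th p = tau (Pf b p) := rfl

lemma abs_Gen_th (b : ℂ) (p : CDisc) : |(Gen b).th p| < 1 / 4 := abs_tau_lt (re_Pf_pos b p.2)

lemma gen_neg (b : ℂ) : gen (-b) = (gen b)⁻¹ := by
  apply SU.ext
  · change ((Real.sqrt (1 + ‖-b‖ ^ 2) : ℝ) : ℂ) = conj ((Real.sqrt (1 + ‖b‖ ^ 2) : ℝ) : ℂ)
    rw [Complex.conj_ofReal, norm_neg]
  · rfl

lemma eq_of_e_eq {s t : ℝ} (h : e s = e t) (h2 : |s - t| < 1) : s = t := by
  obtain ⟨n, hn⟩ := (e_eq_iff s t).1 h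
  have h3 : s - t = n := by linarith
  rw [h3] at h2
  have h4 : |n| < 1 := by exact_mod_cast h2
  have h5 : n = 0 := Int.abs_lt_one_iff.1 h4
  rw [h5] at hn
  simpa using hn

lemma Gen_neg (b : ℂ) : Gen (-b) = (Gen b)⁻¹ := by
  apply Lft.ext' (gen_neg b)
  intro p
  apply eq_of_e_eq
  · rw [Lft.h, Lft.h]
    rw [Gen_g, gen_neg]
    rfl
  · rw [Lft.inv_th]
    have h1 := abs_lt.1 (abs_Gen_th (-b) p)
    have h2 := abs_lt.1 (abs_Gen_th b (SU.mv (Gen b).g⁻¹ p))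
    rw [abs_lt]
    constructor <;> linarith [h1.1, h1.2, h2.1, h2.2]

lemma gen_zero : gen 0 = 1 := by
  apply SU.ext
  · change ((Real.sqrt (1 + ‖(0 : ℂ)‖ ^ 2) : ℝ) : ℂ) = 1
    simp
  · rfl

lemma tau_ofReal {x : ℝ} (hx : 0 ≤ x) : tau (x : ℂ) = 0 := by
  unfold tau
  rw [Complex.arg_ofReal_of_nonneg hx]
  simp

lemma Gen_zero : Gen 0 = 1 := by
  apply Lft.ext' gen_zero
  intro p
  rw [Gen_th, Lft.one_th]
  have h : Pf 0 p = ((1 : ℝ) : ℂ) := by
    unfold Pf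
    simp
  rw [h, tau_ofReal zero_le_one]

/-- The canonical lifts act on the sphere by homeomorphisms isotopic to the identity. -/
lemma iso_Gen (n : ℤ) (b : ℂ) : IsotopicToId (toS (Lft.toW n (Gen b))) := by
  have h := isotopic_of_family (fun s : unitInterval => Lft.toW n (Gen (((s : ℝ) : ℂ) * b)))
    ?_ ?_ ?_
  · have h1 : (((1 : unitInterval) : ℝ) : ℂ) * b = b := by simp
    simp only [h1] at h
    exact h
  · apply Continuous.subtype_mk
    have h2 : Continuous fun y : unitInterval × CDisc =>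
        (((⟨(((Real.sqrt (1 + ‖((y.1 : ℝ) : ℂ) * b‖ ^ 2) : ℝ) : ℂ), ((y.1 : ℝ) : ℂ) * b), by
          rw [Complex.norm_real, Real.norm_eq_abs, abs_of_pos (sqrt_pos' _)]
          exact norm_lt_sqrt _⟩ : {x : ℂ × ℂ // ‖x.2‖ < ‖x.1‖}), y.2) :
          {x : ℂ × ℂ // ‖x.2‖ < ‖x.1‖} × CDisc) := by fun_prop
    exact SU.continuous_mv_family.comp h2
  · have h3 : Continuous fun y : unitInterval × Disc =>
        tau (Pf (((y.1 : ℝ) : ℂ) * b) ((cd y.2 : CDisc) : ℂ)) :=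
      continuous_tau_Pf _ _ (by fun_prop) (by
        have := continuous_cd
        fun_prop) (fun t => (cd t.2).2)
    exact continuous_const.mul h3
  · intro x
    have h4 : (((0 : unitInterval) : ℝ) : ℂ) * b = 0 := by simp
    simp only [h4]
    rw [Gen_zero, map_one, smap_one]

/-- The lifts of the generators. -/
noncomputable def Bz (k : ℕ) : Lft := Gen (beta * om ^ k)

lemma Bz_g (k : ℕ) : (Bz k).g = bz k := rfl

lemma Bz_add_four (k : ℕ) : Bz (k + 4) = (Bz k)⁻¹ := by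
  unfold Bz
  rw [← Gen_neg]
  congr 1
  rw [pow_add, om_four]
  ring

lemma iso_Bz (n : ℤ) (k : ℕ) : IsotopicToId (toS (Lft.toW n (Bz k))) := iso_Gen n _

end Pool.Agent.H79.FB
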