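import Pool.Agent.H79.FB.Wgp

/-!
# The action of the group `W` on `S^3`
-/

namespace Pool.Agent.H79.FB

/-- The first coordinate of a point of the sphere. -/
noncomputable def fstc (x : S3) : CDisc := ⟨x.1.1, by
  have h := x.2
  have h0 := norm_nonneg x.1.1
  have h1 := sq_nonneg ‖x.1.2‖
  nlinarith⟩

@[simp] lemma coe_fstc (x : S3) : ((fstc x : CDisc) : ℂ) = x.1.1 := rfl

lemma continuous_fstc : Continuous fstc := by
  unfold fstc
  fun_prop

/-- Extension by `0` to the closed disc. -/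
noncomputable def zx (z : Disc → ℝ) (p : CDisc) : ℝ := if h : ‖(p : ℂ)‖ < 1 then z ⟨p, h⟩ else 0

lemma zx_of_lt (z : Disc → ℝ) {p : CDisc} (h : ‖(p : ℂ)‖ < 1) : zx z p = z ⟨p, h⟩ := by
  unfold zx
  exact dif_pos h

lemma zx_cd (z : Disc → ℝ) (p : Disc) : zx z (cd p) = z p := by
  unfold zx
  rw [dif_pos (norm_cd_lt p)]
  rfl

lemma snd_eq_zero_iff (x : S3) : x.1.2 = 0 ↔ ¬ ‖((fstc x : CDisc) : ℂ)‖ < 1 := by
  have h := x.2
  have h0 := norm_nonneg x.1.1
  rw [coe_fstc]
  constructor
  · intro h2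
    rw [h2] at h
    simp only [norm_zero] at h
    intro h3
    nlinarith
  · intro h2
    have h3 : ‖x.1.2‖ ^ 2 ≤ 0 := by
      push Not at h2
      nlinarith
    have h4 : ‖x.1.2‖ = 0 := by
      have := sq_nonneg ‖x.1.2‖
      have h5 : ‖x.1.2‖ ^ 2 = 0 := le_antisymm h3 this
      exact pow_eq_zero_iff (two_ne_zero) |>.1 h5
    exact norm_eq_zero.1 h4

/-- The second coordinate of the image. -/
noncomputable def snd' (w : W) (x : S3) : ℂ :=
  (Real.sqrt (1 - ‖((w.F (fstc x) : CDisc) : ℂ)‖ ^ 2) : ℂ) * e (zx w.z (fstc x)) *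
    (x.1.2 / (‖x.1.2‖ : ℂ))

lemma sq_le_one (p : CDisc) : 0 ≤ 1 - ‖(p : ℂ)‖ ^ 2 := by
  have := p.2
  have h0 := norm_nonneg (p : ℂ)
  nlinarith

lemma norm_snd' (w : W) (x : S3) :
    ‖snd' w x‖ = Real.sqrt (1 - ‖((w.F (fstc x) : CDisc) : ℂ)‖ ^ 2) := by
  unfold snd'
  rw [norm_mul, norm_mul, norm_e, mul_one, Complex.norm_real, Real.norm_eq_abs,
    abs_of_nonneg (Real.sqrt_nonneg _)]
  by_cases h : x.1.2 = 0
  · have h1 := (snd_eq_zero_iff x).1 h
    have h2 : ¬ ‖((w.F (fstc x) : CDisc) : ℂ)‖ < 1 := by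
      rw [w.int]
      exact h1
    have h3 : ‖((w.F (fstc x) : CDisc) : ℂ)‖ = 1 := le_antisymm (w.F (fstc x)).2 (not_lt.1 h2)
    rw [h3]
    simp
  · rw [norm_div, Complex.norm_real, norm_norm, div_self (by simpa using h), mul_one]

/-- The action of `W` on the sphere. -/
noncomputable def smap (w : W) (x : S3) : S3 :=
  ⟨(((w.F (fstc x) : CDisc) : ℂ), snd' w x), by
    simp only [norm_snd']
    rw [Real.sq_sqrt (sq_le_one _)]
    ring⟩

lemma fstc_smap (w : W) (x : S3) : fstc (smap w x) = w.F (fstc x) := rfl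

lemma S3_ext {x y : S3} (h1 : x.1.1 = y.1.1) (h2 : x.1.2 = y.1.2) : x = y :=
  Subtype.ext (Prod.ext h1 h2)

lemma smap_tor (w : W) (y : Disc × ℝ) : smap w (tor y) = tor (W.toA w y) := by
  have h0 : fstc (tor y) = cd y.1 := rfl
  refine S3_ext ?_ ?_
  · rfl
  · change snd' w (tor y) = _
    unfold snd'
    rw [h0, zx_cd, W.toA_apply]
    unfold tor
    have h1 : 0 < Real.sqrt (1 - ‖(y.1 : ℂ)‖ ^ 2) := by
      apply Real.sqrt_pos.2
      have := y.1.2
      have h0 := norm_nonneg (y.1 : ℂ)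
      nlinarith
    have h2 : ((Real.sqrt (1 - ‖(y.1 : ℂ)‖ ^ 2) : ℝ) : ℂ) ≠ 0 := by
      exact_mod_cast h1.ne'
    simp only [norm_mul, norm_e, mul_one, Complex.norm_real, Real.norm_eq_abs,
      abs_of_pos h1]
    rw [mul_div_cancel_left₀ _ h2, add_comm y.2, e_add, mul_assoc]
    rfl

lemma smap_circ (w : W) (t : ℝ) : smap w (circ t) = circ (w.L t) := by
  have h0 : fstc (circ t) = bdry t := rfl
  refine S3_ext ?_ ?_
  · change ((w.F (fstc (circ t)) : CDisc) : ℂ) = _
    rw [h0, w.bd]
    rfl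
  · change snd' w (circ t) = 0
    unfold snd'
    unfold circ
    simp

/-- Every point of the sphere is in `R` or in the image of `tor`. -/
lemma S3_cases (x : S3) : (∃ t, x = circ t) ∨ ∃ y, x = tor y := by
  by_cases h : ‖((fstc x : CDisc) : ℂ)‖ < 1
  · right
    have h2 : x.1.2 ≠ 0 := fun h3 => (snd_eq_zero_iff x).1 h3 h
    have hn : 0 < ‖x.1.2‖ := norm_pos_iff.2 h2
    refine ⟨(⟨x.1.1, h⟩, Complex.arg x.1.2 / (2 * Real.pi)), ?_⟩
    refine S3_ext rfl ?_
    change x.1.2 = (Real.sqrt (1 - ‖x.1.1‖ ^ 2) : ℂ) * e (Complex.arg x.1.2 / (2 * Real.pi))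
    have h3 : 1 - ‖x.1.1‖ ^ 2 = ‖x.1.2‖ ^ 2 := by
      have := x.2
      linarith
    rw [h3, Real.sqrt_sq hn.le]
    unfold e
    have h4 : 2 * Real.pi * (Complex.arg x.1.2 / (2 * Real.pi)) = Complex.arg x.1.2 := by
      field_simp
    rw [h4, Complex.norm_mul_exp_arg_mul_I]
  · left
    have h2 : x.1.2 = 0 := (snd_eq_zero_iff x).2 h
    have h3 : ‖x.1.1‖ = 1 := le_antisymm (fstc x).2 (not_lt.1 h)
    refine ⟨Complex.arg x.1.1 / (2 * Real.pi), ?_⟩
    refine S3_ext ?_ h2
    change x.1.1 = e (Complex.arg x.1.1 / (2 * Real.pi))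
    unfold e
    have h4 : 2 * Real.pi * (Complex.arg x.1.1 / (2 * Real.pi)) = Complex.arg x.1.1 := by
      field_simp
    rw [h4]
    have h5 := Complex.norm_mul_exp_arg_mul_I x.1.1
    rw [h3] at h5
    simpa using h5.symm

lemma smap_mul (x y : W) (q : S3) : smap (x * y) q = smap x (smap y q) := by
  rcases S3_cases q with ⟨t, rfl⟩ | ⟨p, rfl⟩
  · rw [smap_circ, smap_circ, smap_circ]
    rfl
  · rw [smap_tor, smap_tor, smap_tor, map_mul]
    rfl

lemma smap_one (q : S3) : smap 1 q = q := by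
  rcases S3_cases q with ⟨t, rfl⟩ | ⟨p, rfl⟩
  · rw [smap_circ]
    rfl
  · rw [smap_tor, map_one]
    rfl

/-- Joint continuity of the action on the sphere of a family. -/
theorem continuous_smap_family {T : Type*} [TopologicalSpace T] (w : T → W)
    (hF : Continuous fun y : T × CDisc => (w y.1).F y.2)
    (hz : Continuous fun y : T × Disc => (w y.1).z y.2) :
    Continuous fun y : T × S3 => smap (w y.1) y.2 := by
  have hF' : Continuous fun y : T × S3 => ((w y.1).F (fstc y.2) : ℂ) := by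
    have h1 : Continuous fun y : T × S3 => ((y.1, fstc y.2) : T × CDisc) :=
      continuous_fst.prodMk (continuous_fstc.comp continuous_snd)
    exact continuous_subtype_val.comp (hF.comp h1)
  have hs : Continuous fun y : T × S3 =>
      Real.sqrt (1 - ‖((w y.1).F (fstc y.2) : ℂ)‖ ^ 2) := by fun_prop
  refine Continuous.subtype_mk (hF'.prodMk ?_) _
  change Continuous fun y : T × S3 => snd' (w y.1) y.2
  rw [continuous_iff_continuousAt]
  rintro ⟨t₀, x₀⟩
  by_cases h0 : x₀.1.2 = 0
  · -- the value is 0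
    have hv : snd' (w t₀) x₀ = 0 := by
      unfold snd'
      rw [h0]
      simp
    have hv' : Real.sqrt (1 - ‖((w t₀).F (fstc x₀) : ℂ)‖ ^ 2) = 0 := by
      rw [← norm_snd', hv, norm_zero]
    rw [ContinuousAt, hv]
    rw [tendsto_zero_iff_norm_tendsto_zero]
    simp_rw [norm_snd']
    have h3 := hs.tendsto (t₀, x₀)
    simp only [hv'] at h3
    exact h3
  · have h1 : ‖((fstc x₀ : CDisc) : ℂ)‖ < 1 := by
      by_contra h
      exact h0 ((snd_eq_zero_iff x₀).2 h)
    unfold snd'
    have hc : ContinuousAt (fun y : T × S3 => zx (w y.1).z (fstc y.2)) (t₀, x₀) := by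
      let U : Set (T × S3) := {y | ‖((fstc y.2 : CDisc) : ℂ)‖ < 1}
      have hU : IsOpen U := by
        apply isOpen_lt
        · exact (continuous_subtype_val.comp (continuous_fstc.comp continuous_snd)).norm
        · exact continuous_const
      have hc' : ContinuousOn (fun y : T × S3 => zx (w y.1).z (fstc y.2)) U := by
        rw [continuousOn_iff_continuous_domRestrict]
        have h5 : Continuous fun y : U => ((y.1.1, ⟨y.1.2.1.1, y.2⟩) : T × Disc) := by
          fun_prop
        have h6 := hz.comp h5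
        refine h6.congr ?_
        rintro ⟨y, hy⟩
        have hy' : ‖((fstc y.2 : CDisc) : ℂ)‖ < 1 := hy
        exact (zx_of_lt _ hy').symm
      exact hc'.continuousAt (hU.mem_nhds h1)
    have he : ContinuousAt (fun y : T × S3 => e (zx (w y.1).z (fstc y.2))) (t₀, x₀) :=
      continuous_e.continuousAt.comp hc
    have hq : ContinuousAt (fun y : T × S3 => y.2.1.2 / (‖y.2.1.2‖ : ℂ)) (t₀, x₀) := by
      apply ContinuousAt.div
      · fun_prop
      · fun_prop
      · simpa using h0
    have hs' : ContinuousAt (fun y : T × S3 =>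
      ((Real.sqrt (1 - ‖((w y.1).F (fstc y.2) : ℂ)‖ ^ 2) : ℝ) : ℂ)) (t₀, x₀) :=
      (Complex.continuous_ofReal.comp hs).continuousAt
    exact (hs'.mul he).mul hq

theorem continuous_smap (w : W) : Continuous (smap w) := by
  have h := continuous_smap_family (T := Unit) (fun _ => w) (by fun_prop) (by fun_prop)
  have h2 : Continuous fun x : S3 => (((), x) : Unit × S3) := by fun_prop
  exact h.comp h2

/-- The homomorphism from `W` to the homeomorphisms of the sphere. -/
noncomputable def toS : W →* (S3 ≃ₜ S3) where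
  toFun w :=
    { toFun := smap w
      invFun := smap w⁻¹
      left_inv := fun x => by rw [← smap_mul, inv_mul_cancel, smap_one]
      right_inv := fun x => by rw [← smap_mul, mul_inv_cancel, smap_one]
      continuous_toFun := continuous_smap w
      continuous_invFun := continuous_smap w⁻¹ }
  map_one' := Homeomorph.ext smap_one
  map_mul' x y := Homeomorph.ext (smap_mul x y)

@[simp] lemma toS_apply (w : W) (x : S3) : toS w x = smap w x := rfl

/-- The homomorphism from `W` to the homeomorphisms of `ℝ`. -/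
noncomputable def toL : W →* (ℝ ≃ₜ ℝ) where
  toFun w := w.L
  map_one' := rfl
  map_mul' _ _ := rfl

/-- The homomorphism from `W` to the triples. -/
noncomputable def toT : W →* Triple := toS.prod (toL.prod W.toA)

lemma isLifted_toT (w : W) (h : IsotopicToId (toS w)) : IsLifted (toT w) where
  iso := h
  circ := smap_circ w
  circ_add := w.per
  tor := smap_tor w
  tor_add := fun p t => by
    change (w.r p, t + 1 + w.z p) = (w.r p, t + w.z p + 1)
    rw [add_right_comm]

end Pool.Agent.H79.FB
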