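import Pool.Agent.H79.FB.SU
import Pool.Agent.H79.FB.Smap

/-!
# The universal covering group of `SU(1,1)` and its actions
-/

namespace Pool.Agent.H79.FB

open ComplexConjugate

/-- The argument in turns. -/
noncomputable def tau (w : ℂ) : ℝ := Complex.arg w / (2 * Real.pi)

lemma e_tau {w : ℂ} (hw : w ≠ 0) : e (tau w) = w / (‖w‖ : ℂ) := by
  unfold e tau
  have h4 : 2 * Real.pi * (Complex.arg w / (2 * Real.pi)) = Complex.arg w := by
    field_simp
  rw [h4]
  have h : (‖w‖ : ℂ) ≠ 0 := by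
    have := norm_pos_iff.2 hw
    exact_mod_cast this.ne'
  rw [eq_div_iff h, mul_comm]
  exact Complex.norm_mul_exp_arg_mul_I w

lemma abs_tau_lt {w : ℂ} (hw : 0 < w.re) : |tau w| < 1 / 4 := by
  have h := Complex.abs_arg_lt_pi_div_two_iff.2 (Or.inl hw)
  unfold tau
  rw [abs_div, abs_of_pos (by positivity : (0 : ℝ) < 2 * Real.pi), div_lt_iff₀ (by positivity)]
  linarith

lemma continuousAt_tau {w : ℂ} (hw : 0 < w.re) : ContinuousAt tau w := by
  unfold tau
  have h : ContinuousAt Complex.arg w :=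
    Complex.continuousAt_arg (Complex.mem_slitPlane_iff.2 (Or.inl hw))
  exact h.div_const _

lemma e_eq_one_iff (t : ℝ) : e t = 1 ↔ ∃ n : ℤ, t = n := by
  unfold e
  rw [Complex.exp_eq_one_iff]
  have hpi : (2 * Real.pi : ℂ) * Complex.I ≠ 0 := Complex.two_pi_I_ne_zero
  constructor
  · rintro ⟨n, hn⟩
    refine ⟨n, ?_⟩
    have h : ((t : ℝ) : ℂ) * (2 * Real.pi * Complex.I) = n * (2 * Real.pi * Complex.I) := by
      rw [← hn]
      push_cast
      ring
    have h2 := mul_right_cancel₀ hpi h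
    exact_mod_cast h2
  · rintro ⟨n, hn⟩
    refine ⟨n, ?_⟩
    rw [hn]
    push_cast
    ring

lemma e_neg (t : ℝ) : e (-t) = (e t)⁻¹ := by
  have h : e (-t) * e t = 1 := by
    rw [← e_add, neg_add_cancel, e_zero]
  exact eq_inv_of_mul_eq_one_left h

lemma e_eq_iff (s t : ℝ) : e s = e t ↔ ∃ n : ℤ, s = t + n := by
  have h : e s = e t ↔ e (s - t) = 1 := by
    rw [sub_eq_add_neg, e_add, e_neg]
    have h0 : e t ≠ 0 := by
      intro h
      have := norm_e t
      rw [h] at this
      simp at this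
    rw [mul_inv_eq_one₀ h0]
  rw [h, e_eq_one_iff]
  constructor
  · rintro ⟨n, hn⟩
    exact ⟨n, by linarith⟩
  · rintro ⟨n, hn⟩
    exact ⟨n, by linarith⟩

/-- The universal covering group of `SU(1,1)`: an element with a continuous choice of
the argument (in turns) of the cocycle `J`. -/
@[ext] structure Lft where
  g : SU
  th : C(CDisc, ℝ)
  h : ∀ p : CDisc, e (th p) = SU.J g p / (‖SU.J g p‖ : ℂ)

namespace Lft

lemma J_one (p : ℂ) : SU.J 1 p = 1 := by
  unfold SU.J
  simp

lemma J_inv (g : SU) (p : CDisc) : SU.J g⁻¹ p = (SU.J g (SU.mv g⁻¹ p))⁻¹ := by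
  have h := SU.J_mul g g⁻¹ p
  rw [mul_inv_cancel, J_one] at h
  exact eq_inv_of_mul_eq_one_right h.symm

noncomputable instance : Mul Lft where
  mul x y := ⟨x.g * y.g, ⟨fun p => x.th (SU.mv y.g p) + y.th p, by
      have := SU.continuous_mv y.g
      fun_prop⟩, fun p => by
    change e (x.th (SU.mv y.g p) + y.th p) = _
    rw [e_add, x.h, y.h, SU.J_mul, norm_mul]
    push_cast
    rw [div_mul_div_comm]⟩

noncomputable instance : One Lft where
  one := ⟨1, 0, fun p => by
    change e 0 = _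
    rw [e_zero, J_one]
    simp⟩

noncomputable instance : Inv Lft where
  inv x := ⟨x.g⁻¹, ⟨fun p => - x.th (SU.mv x.g⁻¹ p), by
      have := SU.continuous_mv x.g⁻¹
      fun_prop⟩, fun p => by
    change e (- x.th (SU.mv x.g⁻¹ p)) = _
    rw [e_neg, x.h, J_inv, norm_inv, inv_div]
    push_cast
    rw [div_eq_mul_inv, div_eq_mul_inv, inv_inv, mul_comm]⟩

@[simp] lemma mul_g (x y : Lft) : (x * y).g = x.g * y.g := rfl
@[simp] lemma one_g : (1 : Lft).g = 1 := rfl
@[simp] lemma inv_g (x : Lft) : (x⁻¹).g = x.g⁻¹ := rfl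
@[simp] lemma mul_th (x y : Lft) (p : CDisc) :
    (x * y).th p = x.th (SU.mv y.g p) + y.th p := rfl
@[simp] lemma one_th (p : CDisc) : (1 : Lft).th p = 0 := rfl
@[simp] lemma inv_th (x : Lft) (p : CDisc) : (x⁻¹).th p = - x.th (SU.mv x.g⁻¹ p) := rfl

lemma ext' {x y : Lft} (h1 : x.g = y.g) (h2 : ∀ p, x.th p = y.th p) : x = y :=
  Lft.ext h1 (ContinuousMap.ext h2)

noncomputable instance : Group Lft :=
  Group.ofLeftAxioms
    (fun x y w => ext' (mul_assoc _ _ _) (fun p => by
      simp only [mul_th, mul_g, SU.mv_mul]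
      ring))
    (fun x => ext' (one_mul _) (fun p => by simp))
    (fun x => ext' (inv_mul_cancel _) (fun p => by
      simp only [mul_th, inv_th, one_th]
      rw [← SU.mv_mul, inv_mul_cancel, SU.mv_one, neg_add_cancel]))

/-- The lift to `ℝ` of the action on the boundary circle. -/
noncomputable def Lf (x : Lft) (t : ℝ) : ℝ := t - 2 * x.th (bdry t)

lemma mv_bdry (x : Lft) (t : ℝ) : SU.mv x.g (bdry t) = bdry (Lf x t) := by
  apply Subtype.ext
  have hJ := SU.J_ne_zero x.g (bdry t).2
  have hn : (‖SU.J x.g (bdry t)‖ : ℂ) ≠ 0 := by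
    have := norm_pos_iff.2 hJ
    exact_mod_cast this.ne'
  rw [SU.coe_mv]
  change _ = e (t - 2 * x.th (bdry t))
  have h1 : t - 2 * x.th (bdry t) = t + (-x.th (bdry t) + -x.th (bdry t)) := by ring
  rw [h1, e_add, e_add, e_neg, x.h]
  have h2 : e t * conj (e t) = 1 := by
    rw [Complex.mul_conj, Complex.normSq_eq_norm_sq, norm_e]
    norm_num
  have h3 : x.g.a * (bdry t : ℂ) + x.g.b = e t * conj (SU.J x.g (bdry t)) := by
    unfold SU.J
    have h4 : ((bdry t : CDisc) : ℂ) = e t := rfl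
    simp only [h4, map_add, map_mul, Complex.conj_conj]
    linear_combination (- x.g.b) * h2
  have h5 : conj (SU.J x.g (bdry t)) * SU.J x.g (bdry t) =
      (‖SU.J x.g (bdry t)‖ : ℂ) * (‖SU.J x.g (bdry t)‖ : ℂ) := by
    rw [mul_comm, Complex.mul_conj, Complex.normSq_eq_norm_sq]
    push_cast
    ring
  rw [h3, div_eq_iff hJ]
  field_simp
  linear_combination (e t) * h5

lemma Lf_mul (x y : Lft) (t : ℝ) : Lf (x * y) t = Lf x (Lf y t) := by
  have h1 : Lf x (Lf y t) = Lf y t - 2 * x.th (bdry (Lf y t)) := rfl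
  rw [h1, ← mv_bdry]
  have h2 : Lf (x * y) t = t - 2 * (x.th (SU.mv y.g (bdry t)) + y.th (bdry t)) := rfl
  have h3 : Lf y t = t - 2 * y.th (bdry t) := rfl
  rw [h2, h3]
  ring

lemma Lf_one (t : ℝ) : Lf 1 t = t := by
  have h2 : Lf 1 t = t - 2 * 0 := rfl
  rw [h2]
  ring

lemma continuous_bdry : Continuous bdry := by
  unfold bdry
  exact continuous_e.subtype_mk _

lemma bdry_add_one (t : ℝ) : bdry (t + 1) = bdry t := by
  apply Subtype.ext
  change e (t + 1) = e t
  rw [e_add, e_one, mul_one]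

lemma continuous_Lf (x : Lft) : Continuous (Lf x) := by
  have := continuous_bdry
  unfold Lf
  fun_prop

/-- The action of the universal covering group with the parameter `n`. -/
noncomputable def toW (n : ℤ) : Lft →* W where
  toFun x :=
    { F := SU.act x.g
      int := SU.norm_mv_lt x.g
      L :=
        { toFun := Lf x
          invFun := Lf x⁻¹
          left_inv := fun t => by rw [← Lf_mul, inv_mul_cancel, Lf_one]
          right_inv := fun t => by rw [← Lf_mul, mul_inv_cancel, Lf_one]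
          continuous_toFun := continuous_Lf x
          continuous_invFun := continuous_Lf x⁻¹ }
      per := fun t => by
        change t + 1 - 2 * x.th (bdry (t + 1)) = t - 2 * x.th (bdry t) + 1
        rw [bdry_add_one]
        ring
      bd := mv_bdry x
      z := ⟨fun p => n * x.th (cd p), by
        have := continuous_cd
        fun_prop⟩ }
  map_one' := W.ext' SU.mv_one Lf_one (fun p => by
    change (n : ℝ) * 0 = 0
    ring)
  map_mul' x y := W.ext' (SU.mv_mul x.g y.g) (Lf_mul x y) (fun p => by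
    change (n : ℝ) * (x.th (SU.mv y.g (cd p)) + y.th (cd p)) =
      n * x.th (SU.mv y.g (cd p)) + n * y.th (cd p)
    ring)

@[simp] lemma toW_F (n : ℤ) (x : Lft) (p : CDisc) : (toW n x).F p = SU.mv x.g p := rfl
@[simp] lemma toW_L (n : ℤ) (x : Lft) (t : ℝ) : (toW n x).L t = t - 2 * x.th (bdry t) := rfl
@[simp] lemma toW_z (n : ℤ) (x : Lft) (p : Disc) : (toW n x).z p = n * x.th (cd p) := rfl

end Lft

end Pool.Agent.H79.FB
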