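import Pool.Agent.H79.FB.Rel
import Pool.Agent.H79.FB.CommZ
import Pool.Agent.H79.FB.Cob

/-!
# The flat bundles over a fixed base
-/

namespace Pool.Agent.H79.FB

lemma prodComm_map {G H : Type} [Group G] [Group H] (φ : G →* H) {g : ℕ} (a b : Fin g → G) :
    prodComm (fun i => φ (a i)) (fun i => φ (b i)) = φ (prodComm a b) := by
  unfold prodComm
  rw [map_list_prod, List.map_ofFn]
  congr 2
  funext i
  simp

lemma toT_Kc (n : ℤ) : toT (Lft.toW n Kc) = shift (-2) n := by
  refine Prod.ext ?_ (Prod.ext ?_ ?_)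
  · apply Homeomorph.ext
    intro x
    change smap (Lft.toW n Kc) x = x
    rcases S3_cases x with ⟨t, rfl⟩ | ⟨y, rfl⟩
    · rw [smap_circ]
      have h : (Lft.toW n Kc).L t = t - 2 * 1 := rfl
      rw [h]
      apply S3_ext
      · change e (t - 2 * 1) = e t
        rw [e_eq_iff]
        refine ⟨-2, ?_⟩
        push_cast
        ring
      · rfl
    · rw [smap_tor]
      have h1 : (Lft.toW n Kc).r y.1 = y.1 := cd_injective (SU.mv_one _)
      rw [W.toA_apply, h1]
      apply S3_ext
      · rfl
      · change _ * e (y.2 + n * 1) = _ * e y.2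
        congr 1
        rw [e_eq_iff]
        exact ⟨n, by ring⟩
  · apply Homeomorph.ext
    intro t
    change t - 2 * 1 = t + ((-2 : ℤ) : ℝ)
    push_cast
    ring
  · apply Homeomorph.ext
    intro y
    refine Prod.ext ?_ ?_
    · exact cd_injective (SU.mv_one _)
    · change y.2 + n * 1 = y.2 + n
      ring

lemma toT_rot_const (N : ℤ) :
    toT (rot (Multiplicative.ofAdd (ContinuousMap.const Disc (N : ℝ)))) = shift 0 N := by
  refine Prod.ext ?_ (Prod.ext ?_ ?_)
  · apply Homeomorph.ext
    intro x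
    change smap (rot (Multiplicative.ofAdd (ContinuousMap.const Disc (N : ℝ)))) x = x
    rcases S3_cases x with ⟨t, rfl⟩ | ⟨y, rfl⟩
    · rw [smap_circ]
      rfl
    · rw [smap_tor]
      apply S3_ext
      · rfl
      · change _ * e (y.2 + N) = _ * e y.2
        congr 1
        rw [e_eq_iff]
        exact ⟨N, rfl⟩
  · apply Homeomorph.ext
    intro t
    change t = t + ((0 : ℤ) : ℝ)
    push_cast
    ring
  · apply Homeomorph.ext
    intro y
    rfl

/-- The set of the elements of the universal covering group which act on the sphere by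
homeomorphisms isotopic to the identity. -/
def IsoSub (n : ℤ) : Subgroup Lft where
  carrier := {x | IsotopicToId (toS (Lft.toW n x))}
  mul_mem' := fun {x y} hx hy => by
    have := isotopic_mul hx hy
    rw [← map_mul, ← map_mul] at this
    exact this
  one_mem' := by
    have h := iso_Gen n 0
    rw [Gen_zero] at h
    exact h
  inv_mem' := fun {x} hx => by
    have := isotopic_inv hx
    rw [← map_inv, ← map_inv] at this
    exact this

/-- The subgroup of the elements which commute with `D` after the map to `W`. -/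
def CommSub (n : ℤ) (D : W) : Subgroup Lft where
  carrier := {x | Commute (Lft.toW n x) D}
  mul_mem' := fun {x y} hx hy => by
    change Commute (Lft.toW n (x * y)) D
    rw [map_mul]
    exact hx.mul_left hy
  one_mem' := by
    change Commute (Lft.toW n 1) D
    rw [map_one]
    exact Commute.one_left D
  inv_mem' := fun {x} hx => by
    change Commute (Lft.toW n x⁻¹) D
    rw [map_inv]
    exact Commute.inv_left hx

lemma ga_mem (S : Subgroup Lft) (h : ∀ k, Bz k ∈ S) (i : Fin 2) : ga i ∈ S := by
  fin_cases i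
  · exact S.mul_mem (S.mul_mem (h 0) (h 3)) (h 6)
  · exact S.mul_mem (S.mul_mem (h 1) (S.mul_mem (h 0) (h 3))) (S.inv_mem (h 1))

lemma gb_mem (S : Subgroup Lft) (h : ∀ k, Bz k ∈ S) (i : Fin 2) : gb i ∈ S := by
  fin_cases i
  · exact h 1
  · exact S.mul_mem (S.mul_mem (h 1) (S.mul_mem (h 6) (S.inv_mem (h 0)))) (S.inv_mem (h 1))

/-- **Theorem.** There is `k` such that for all integers `n`, `N` there is a `C^0`-flat
`S^3`-bundle over `Σ_2 × Σ_k` with `r₁ = -2`, `s₁ = n`, `r₂ = 0`, `s₂ = N`. -/
theorem exists_bundle : ∃ k : ℕ, ∀ n N : ℤ, ∃ E : FlatBundle 2 k,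
    E.r₁ = -2 ∧ E.s₁ = n ∧ E.r₂ = 0 ∧ E.s₂ = N := by
  obtain ⟨k, F, f, hF, hFg, hf, hfg, hsum⟩ := cob
  refine ⟨k, fun n N => ?_⟩
  -- the functions on the open disc
  let fj : Fin k → C(Disc, ℝ) := fun j => ⟨fun p => N * f j (cd p), by
    have h1 : Continuous fun p : Disc => f j (cd p) := by
      have h2 := (hf j).comp_continuous continuous_cd (fun p => norm_cd_lt p)
      exact h2
    exact continuous_const.mul h1⟩
  let c : Fin k → W := fun j => rot (Multiplicative.ofAdd (fj j))
  let d : Fin k → W := fun j => Dw n (F j) (hF j)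
  have hgood : ∀ l : ℕ, IsGood (gen (beta * om ^ l)) := fun l => isGood_bz l
  -- commutation
  have hcd : ∀ j l, Bz l ∈ CommSub n (c j) := fun j l => by
    change Commute (Lft.toW n (Bz l)) (c j)
    apply rot_comm
    intro p
    change N * f j (cd ((Lft.toW n (Bz l)).r p)) = N * f j (cd p)
    rw [W.cd_r, Lft.toW_F]
    have h1 : (Bz l).g = gen (beta * om ^ l) := rfl
    rw [h1, hfg j _ (hgood l)]
  have hdd : ∀ j l, Bz l ∈ CommSub n (d j) := fun j l => by
    change Commute (Lft.toW n (Bz l)) (d j)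
    exact Dw_comm n (F j) (hF j) _ (fun p => hFg j _ (hgood l) p)
  -- the relator
  have hrel : prodComm c d = rot (Multiplicative.ofAdd (ContinuousMap.const Disc (N : ℝ))) := by
    have h1 : ∀ j, c j * d j * (c j)⁻¹ * (d j)⁻¹ =
        rot (Multiplicative.ofAdd (fj j - (fj j).comp (d j).rs)) := fun j => comm_rot _ _
    unfold prodComm
    simp_rw [h1]
    have h2 : (List.ofFn fun j => rot (Multiplicative.ofAdd (fj j - (fj j).comp (d j).rs))).prod =
        rot (List.ofFn fun j => Multiplicative.ofAdd (fj j - (fj j).comp (d j).rs)).prod := by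
      rw [map_list_prod, List.map_ofFn]
      rfl
    rw [h2, List.prod_ofFn]
    congr 1
    rw [← ofAdd_sum]
    congr 1
    ext p
    rw [ContinuousMap.sum_apply, ContinuousMap.const_apply]
    have h3 := hsum (cd p) p.2
    have h4 : ∀ j, (fj j - (fj j).comp (d j).rs) p =
        N * (f j (cd p) - f j ((F j).symm (cd p))) := fun j => by
      change N * f j (cd p) - N * f j (cd ((d j).rs p)) = _
      rw [W.cd_rs]
      have h5 : (d j).F = F j := rfl
      rw [h5]
      ring
    simp_rw [h4]
    rw [← Finset.mul_sum, h3, mul_one]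
  have cm : ∀ (x : Lft) (w : W), x ∈ CommSub n w → toT (Lft.toW n x) * toT w =
      toT w * toT (Lft.toW n x) := fun x w hx => by
    have h : Lft.toW n x * w = w * Lft.toW n x := hx
    rw [← map_mul, h, map_mul]
  refine ⟨{
    a := fun i => toT (Lft.toW n (ga i))
    b := fun i => toT (Lft.toW n (gb i))
    c := fun j => toT (c j)
    d := fun j => toT (d j)
    lifted_a := fun i => isLifted_toT _ (ga_mem (IsoSub n) (iso_Bz n) i)
    lifted_b := fun i => isLifted_toT _ (gb_mem (IsoSub n) (iso_Bz n) i)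
    lifted_c := fun j => isLifted_toT _ (iso_rot _)
    lifted_d := fun j => isLifted_toT _ (iso_Dw _ _ _)
    comm_ac := fun i j => cm _ _ (ga_mem _ (hcd j) i)
    comm_ad := fun i j => cm _ _ (ga_mem _ (hdd j) i)
    comm_bc := fun i j => cm _ _ (gb_mem _ (hcd j) i)
    comm_bd := fun i j => cm _ _ (gb_mem _ (hdd j) i)
    r₁ := -2
    s₁ := n
    r₂ := 0
    s₂ := N
    relator₁ := ?_
    relator₂ := ?_ }, rfl, rfl, rfl, rfl⟩
  · rw [← toT_Kc, ← rel_Lft, ← prodComm_map, ← prodComm_map]
  · rw [← toT_rot_const, ← hrel, ← prodComm_map]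

/-- The Euler number and the Pontryagin number over the fixed base. -/
theorem exists_bundle' : ∃ k : ℕ, ∀ n N : ℤ, ∃ E : FlatBundle 2 k,
    E.euler = -2 * N ∧ E.pontryagin = 2 * n * N := by
  obtain ⟨k, h⟩ := exists_bundle
  refine ⟨k, fun n N => ?_⟩
  obtain ⟨E, h1, h2, h3, h4⟩ := h n N
  refine ⟨E, ?_, ?_⟩
  · unfold FlatBundle.euler
    rw [h1, h2, h3, h4]
    ring
  · unfold FlatBundle.pontryagin
    rw [h1, h2, h3, h4]
    ring

end Pool.Agent.H79.FB
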