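import Pool.Agent.H79.FB.Main

/-!
# The join of two of Milnor's flat plane bundles: Euler number one
-/

namespace Pool.Agent.H79.FB

open ComplexConjugate

/-- The linear action of `SU(1,1)` on `ℂ` as a real vector space. -/
noncomputable def lin (g : SU) (v : ℂ) : ℂ := g.a * v + g.b * conj v

lemma lin_mul (g h : SU) (v : ℂ) : lin (g * h) v = lin g (lin h v) := by
  unfold lin
  simp only [SU.mul_a, SU.mul_b, map_add, map_mul, Complex.conj_conj]
  ring

lemma lin_one (v : ℂ) : lin 1 v = v := by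
  unfold lin
  simp

lemma lin_real (g : SU) (r : ℝ) (v : ℂ) : lin g ((r : ℂ) * v) = (r : ℂ) * lin g v := by
  unfold lin
  rw [map_mul, Complex.conj_ofReal]
  ring

lemma lin_zero (g : SU) : lin g 0 = 0 := by
  unfold lin
  simp

lemma lin_ne (g : SU) {v : ℂ} (hv : v ≠ 0) : lin g v ≠ 0 := by
  intro h
  have h1 : lin (g⁻¹ * g) v = 0 := by
    rw [lin_mul, h, lin_zero]
  rw [inv_mul_cancel, lin_one] at h1
  exact hv h1

/-- The norm of the image of a point of the sphere. -/
noncomputable def nr (g h : SU) (x : ℂ × ℂ) : ℝ := Real.sqrt (‖lin g x.1‖ ^ 2 + ‖lin h x.2‖ ^ 2)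

lemma nr_pos (g h : SU) (x : S3) : 0 < nr g h x.1 := by
  apply Real.sqrt_pos.2
  by_cases h1 : x.1.1 = 0
  · have h2 : x.1.2 ≠ 0 := by
      intro h3
      have := x.2
      rw [h1, h3] at this
      simp at this
    have := norm_pos_iff.2 (lin_ne h h2)
    positivity
  · have := norm_pos_iff.2 (lin_ne g h1)
    positivity

lemma nr_sq (g h : SU) (x : ℂ × ℂ) : nr g h x ^ 2 = ‖lin g x.1‖ ^ 2 + ‖lin h x.2‖ ^ 2 :=
  Real.sq_sqrt (by positivity)

/-- The projective action of `SU(1,1) × SU(1,1)` on the sphere. -/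
noncomputable def pj (g h : SU) (x : S3) : S3 :=
  ⟨(lin g x.1.1 / (nr g h x.1 : ℂ), lin h x.1.2 / (nr g h x.1 : ℂ)), by
    have h1 := nr_pos g h x
    simp only [norm_div, Complex.norm_real, Real.norm_eq_abs, abs_of_pos h1]
    rw [div_pow, div_pow, ← add_div, nr_sq, div_self]
    rw [← nr_sq]
    positivity⟩

lemma pj_fst (g h : SU) (x : S3) : (pj g h x).1.1 = lin g x.1.1 / (nr g h x.1 : ℂ) := rfl
lemma pj_snd (g h : SU) (x : S3) : (pj g h x).1.2 = lin h x.1.2 / (nr g h x.1 : ℂ) := rfl

lemma lin_div (g : SU) (r : ℝ) (v : ℂ) : lin g (v / (r : ℂ)) = lin g v / (r : ℂ) := by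
  have h := lin_real g r⁻¹ v
  rw [Complex.ofReal_inv] at h
  rw [div_eq_inv_mul, div_eq_inv_mul, h]

lemma nr_mul (g h g' h' : SU) (x : S3) :
    nr (g * g') (h * h') x.1 = nr g h (pj g' h' x).1 * nr g' h' x.1 := by
  have h1 := nr_pos g' h' x
  have h2 := nr_pos g h (pj g' h' x)
  have h3 := nr_pos (g * g') (h * h') x
  have h4 : nr (g * g') (h * h') x.1 ^ 2 = (nr g h (pj g' h' x).1 * nr g' h' x.1) ^ 2 := by
    rw [mul_pow, nr_sq, nr_sq g h, pj_fst, pj_snd, lin_mul, lin_mul, lin_div, lin_div]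
    simp only [norm_div, Complex.norm_real, Real.norm_eq_abs, abs_of_pos h1]
    field_simp
  exact (pow_left_inj₀ h3.le (mul_pos h2 h1).le two_ne_zero).1 h4

lemma pj_mul (g h g' h' : SU) (x : S3) : pj (g * g') (h * h') x = pj g h (pj g' h' x) := by
  have h1 : (nr g' h' x.1 : ℂ) ≠ 0 := by
    have := nr_pos g' h' x
    exact_mod_cast this.ne'
  have h2 : (nr g h (pj g' h' x).1 : ℂ) ≠ 0 := by
    have := nr_pos g h (pj g' h' x)
    exact_mod_cast this.ne'
  apply S3_ext
  · rw [pj_fst, pj_fst, nr_mul, pj_fst, lin_mul, lin_div]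
    push_cast
    field_simp
  · rw [pj_snd, pj_snd, nr_mul, pj_snd, lin_mul, lin_div]
    push_cast
    field_simp

lemma pj_one (x : S3) : pj 1 1 x = x := by
  have h : nr 1 1 x.1 = 1 := by
    unfold nr
    rw [lin_one, lin_one, x.2, Real.sqrt_one]
  apply S3_ext
  · rw [pj_fst, lin_one, h]
    simp
  · rw [pj_snd, lin_one, h]
    simp

lemma continuous_lin_family {T : Type*} [TopologicalSpace T] (g : T → SU)
    (ha : Continuous fun t => (g t).a) (hb : Continuous fun t => (g t).b) :
    Continuous fun y : T × ℂ => lin (g y.1) y.2 := by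
  unfold lin
  have h1 : Continuous fun y : T × ℂ => (g y.1).a := ha.comp continuous_fst
  have h2 : Continuous fun y : T × ℂ => (g y.1).b := hb.comp continuous_fst
  fun_prop

lemma continuous_pj_family {T : Type*} [TopologicalSpace T] (g h : T → SU)
    (ga : Continuous fun t => (g t).a) (gb : Continuous fun t => (g t).b)
    (ha : Continuous fun t => (h t).a) (hb : Continuous fun t => (h t).b) :
    Continuous fun y : T × S3 => pj (g y.1) (h y.1) y.2 := by
  have h1 : Continuous fun y : T × S3 => lin (g y.1) y.2.1.1 := by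
    have h2 : Continuous fun y : T × S3 => ((y.1, y.2.1.1) : T × ℂ) := by fun_prop
    exact (continuous_lin_family g ga gb).comp h2
  have h3 : Continuous fun y : T × S3 => lin (h y.1) y.2.1.2 := by
    have h2 : Continuous fun y : T × S3 => ((y.1, y.2.1.2) : T × ℂ) := by fun_prop
    exact (continuous_lin_family h ha hb).comp h2
  have h4 : Continuous fun y : T × S3 => nr (g y.1) (h y.1) y.2.1 := by
    unfold nr
    fun_prop
  have h5 : ∀ y : T × S3, (nr (g y.1) (h y.1) y.2.1 : ℂ) ≠ 0 := fun y => by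
    have := nr_pos (g y.1) (h y.1) y.2
    exact_mod_cast this.ne'
  have h6 : Continuous fun y : T × S3 => (nr (g y.1) (h y.1) y.2.1 : ℂ) :=
    Complex.continuous_ofReal.comp h4
  exact Continuous.subtype_mk ((h1.div h6 h5).prodMk (h3.div h6 h5)) _

/-- The homomorphism to the homeomorphisms of the sphere. -/
noncomputable def pjS : SU × SU →* (S3 ≃ₜ S3) where
  toFun g :=
    { toFun := pj g.1 g.2
      invFun := pj g.1⁻¹ g.2⁻¹
      left_inv := fun x => by rw [← pj_mul, inv_mul_cancel, inv_mul_cancel, pj_one]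
      right_inv := fun x => by rw [← pj_mul, mul_inv_cancel, mul_inv_cancel, pj_one]
      continuous_toFun := by
        have h1 := continuous_pj_family (fun _ : Unit => g.1) (fun _ : Unit => g.2)
          continuous_const continuous_const continuous_const continuous_const
        have h2 : Continuous fun x : S3 => (((), x) : Unit × S3) := by fun_prop
        exact h1.comp h2
      continuous_invFun := by
        have h1 := continuous_pj_family (fun _ : Unit => g.1⁻¹) (fun _ : Unit => g.2⁻¹)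
          continuous_const continuous_const continuous_const continuous_const
        have h2 : Continuous fun x : S3 => (((), x) : Unit × S3) := by fun_prop
        exact h1.comp h2 }
  map_one' := Homeomorph.ext pj_one
  map_mul' g h := Homeomorph.ext (pj_mul g.1 g.2 h.1 h.2)

@[simp] lemma pjS_apply (g : SU × SU) (x : S3) : pjS g x = pj g.1 g.2 x := rfl

/-- A path of homeomorphisms from the identity gives an isotopy. -/
theorem isotopic_of_path (h : unitInterval → (S3 ≃ₜ S3))
    (hc : Continuous fun y : unitInterval × S3 => h y.1 y.2) (h0 : h 0 = 1) :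
    IsotopicToId (h 1) := by
  let E : (unitInterval × S3) ≃ (unitInterval × S3) :=
    { toFun := fun y => (y.1, h y.1 y.2)
      invFun := fun y => (y.1, (h y.1).symm y.2)
      left_inv := fun y => by simp
      right_inv := fun y => by simp }
  have hE : Continuous E := continuous_fst.prodMk hc
  refine ⟨Continuous.homeoOfEquivCompactToT2 (f := E) hE, fun y => rfl, fun x => ?_,
    fun x => rfl⟩
  change h 0 x = x
  rw [h0]
  rfl

/-- The lift to `ℝ` of the action on the circle of directions. -/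
noncomputable def Lh (x : Lft) (t : ℝ) : ℝ := Lft.Lf x (2 * t) / 2

lemma Lh_mul (x y : Lft) (t : ℝ) : Lh (x * y) t = Lh x (Lh y t) := by
  unfold Lh
  rw [Lft.Lf_mul]
  congr 2
  ring

lemma Lh_one (t : ℝ) : Lh 1 t = t := by
  unfold Lh
  rw [Lft.Lf_one]
  ring

lemma continuous_Lh (x : Lft) : Continuous (Lh x) := by
  have := Lft.continuous_Lf x
  unfold Lh
  fun_prop

lemma Lh_eq (x : Lft) (t : ℝ) : Lh x t = t - x.th (bdry (2 * t)) := by
  unfold Lh Lft.Lf
  ring

lemma Lh_add (x : Lft) (t : ℝ) : Lh x (t + 1) = Lh x t + 1 := by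
  rw [Lh_eq, Lh_eq]
  have h : bdry (2 * (t + 1)) = bdry (2 * t) := by
    have h1 : 2 * (t + 1) = 2 * t + 1 + 1 := by ring
    rw [h1, Lft.bdry_add_one, Lft.bdry_add_one]
  rw [h]
  ring

lemma conj_e (t : ℝ) : conj (e t) = e (-t) := by
  rw [e_neg]
  have h2 : e t * conj (e t) = 1 := by
    rw [Complex.mul_conj, Complex.normSq_eq_norm_sq, norm_e]
    norm_num
  exact eq_inv_of_mul_eq_one_right h2

/-- `lin g (e t)` is a positive multiple of `e (Lh x t)`. -/
lemma lin_e (x : Lft) (t : ℝ) : lin x.g (e t) = (‖lin x.g (e t)‖ : ℂ) * e (Lh x t) := by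
  have h1 : lin x.g (e t) = e t * conj (SU.J x.g (bdry (2 * t))) := by
    unfold lin SU.J
    have h2 : ((bdry (2 * t) : CDisc) : ℂ) = e t * e t := by
      change e (2 * t) = _
      rw [two_mul, e_add]
    have h3 : e t * conj (e t) = 1 := by
      rw [Complex.mul_conj, Complex.normSq_eq_norm_sq, norm_e]
      norm_num
    rw [h2]
    simp only [map_add, map_mul, Complex.conj_conj]
    linear_combination (- x.g.b * conj (e t)) * h3
  have hJ := SU.J_ne_zero x.g (bdry (2 * t)).2
  have hn : (‖SU.J x.g (bdry (2 * t))‖ : ℂ) ≠ 0 := by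
    have := norm_pos_iff.2 hJ
    exact_mod_cast this.ne'
  have h4 : ‖lin x.g (e t)‖ = ‖SU.J x.g (bdry (2 * t))‖ := by
    rw [h1, norm_mul, norm_e, one_mul, Complex.norm_conj]
  have h5 : conj (SU.J x.g (bdry (2 * t))) * SU.J x.g (bdry (2 * t)) =
      (‖SU.J x.g (bdry (2 * t))‖ : ℂ) * (‖SU.J x.g (bdry (2 * t))‖ : ℂ) := by
    rw [mul_comm, Complex.mul_conj, Complex.normSq_eq_norm_sq]
    push_cast
    ring
  rw [h4, Lh_eq, h1, sub_eq_add_neg, e_add, e_neg, x.h]
  field_simp
  linear_combination (e t) * h5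

/-- The action on `Disc × ℝ`. -/
noncomputable def pd (x y : Lft) (q : Disc × ℝ) : Disc × ℝ :=
  (⟨(pj x.g y.g (tor q)).1.1, by
    have h1 := (pj x.g y.g (tor q)).2
    have h2 : (pj x.g y.g (tor q)).1.2 ≠ 0 := by
      rw [pj_snd]
      have h3 := nr_pos x.g y.g (tor q)
      have h4 : (nr x.g y.g (tor q).1 : ℂ) ≠ 0 := by exact_mod_cast h3.ne'
      apply div_ne_zero _ h4
      apply lin_ne
      intro h5
      exact (snd_eq_zero_iff (tor q)).1 h5 q.1.2
    have h3 := norm_pos_iff.2 h2
    have h4 := norm_nonneg (pj x.g y.g (tor q)).1.1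
    nlinarith⟩, Lh y q.2)

lemma pj_tor (x y : Lft) (q : Disc × ℝ) : pj x.g y.g (tor q) = tor (pd x y q) := by
  apply S3_ext
  · rfl
  · have h0 := nr_pos x.g y.g (tor q)
    have h0' : (nr x.g y.g (tor q).1 : ℂ) ≠ 0 := by exact_mod_cast h0.ne'
    have hs : 0 < Real.sqrt (1 - ‖(q.1 : ℂ)‖ ^ 2) := by
      apply Real.sqrt_pos.2
      have := q.1.2
      have h0 := norm_nonneg (q.1 : ℂ)
      nlinarith
    have h1 : (tor q).1.2 = (Real.sqrt (1 - ‖(q.1 : ℂ)‖ ^ 2) : ℂ) * e q.2 := rfl
    have h2 : (pj x.g y.g (tor q)).1.2 = ((Real.sqrt (1 - ‖(q.1 : ℂ)‖ ^ 2) *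
        ‖lin y.g (e q.2)‖ / nr x.g y.g (tor q).1 : ℝ) : ℂ) * e (Lh y q.2) := by
      have h7 := lin_e y q.2
      set m := ‖lin y.g (e q.2)‖
      rw [pj_snd, h1, lin_real, h7]
      push_cast
      ring
    have h3 : (tor (pd x y q)).1.2 =
        (Real.sqrt (1 - ‖(pj x.g y.g (tor q)).1.1‖ ^ 2) : ℂ) * e (Lh y q.2) := rfl
    have h4 : 1 - ‖(pj x.g y.g (tor q)).1.1‖ ^ 2 = ‖(pj x.g y.g (tor q)).1.2‖ ^ 2 := by
      have := (pj x.g y.g (tor q)).2
      linarith
    rw [h3, h4, Real.sqrt_sq (norm_nonneg _), h2]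
    congr 1
    rw [norm_mul, norm_e, mul_one, Complex.norm_real, Real.norm_eq_abs, abs_of_nonneg]
    positivity

lemma tor_fst (q : Disc × ℝ) : (tor q).1.1 = q.1 := rfl

lemma pd_mul (x y x' y' : Lft) (q : Disc × ℝ) :
    pd (x * x') (y * y') q = pd x y (pd x' y' q) := by
  apply Prod.ext
  · apply Subtype.ext
    change (pj (x.g * x'.g) (y.g * y'.g) (tor q)).1.1 = (pj x.g y.g (tor (pd x' y' q))).1.1
    rw [pj_mul, pj_tor x' y']
  · exact Lh_mul y y' q.2

lemma pd_one (q : Disc × ℝ) : pd 1 1 q = q := by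
  apply Prod.ext
  · apply Subtype.ext
    change (pj 1 1 (tor q)).1.1 = _
    rw [pj_one]
    rfl
  · exact Lh_one q.2

lemma continuous_tor : Continuous tor := by
  unfold tor
  have := continuous_e
  fun_prop

lemma continuous_pd (x y : Lft) : Continuous (pd x y) := by
  have h0 : Continuous fun q : Disc × ℝ => pjS (x.g, y.g) (tor q) :=
    (pjS (x.g, y.g)).continuous.comp continuous_tor
  have h1 : Continuous fun q : Disc × ℝ => (pjS (x.g, y.g) (tor q)).1.1 :=
    continuous_fst.comp (continuous_subtype_val.comp h0)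
  have h2 := continuous_Lh y
  exact (h1.subtype_mk _).prodMk (h2.comp continuous_snd)

/-- The homomorphism to the triples. -/
noncomputable def toM : Lft × Lft →* Triple where
  toFun x := (pjS (x.1.g, x.2.g),
    { toFun := Lh x.1
      invFun := Lh x.1⁻¹
      left_inv := fun t => by rw [← Lh_mul, inv_mul_cancel, Lh_one]
      right_inv := fun t => by rw [← Lh_mul, mul_inv_cancel, Lh_one]
      continuous_toFun := continuous_Lh x.1
      continuous_invFun := continuous_Lh x.1⁻¹ },
    { toFun := pd x.1 x.2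
      invFun := pd x.1⁻¹ x.2⁻¹
      left_inv := fun t => by rw [← pd_mul, inv_mul_cancel, inv_mul_cancel, pd_one]
      right_inv := fun t => by rw [← pd_mul, mul_inv_cancel, mul_inv_cancel, pd_one]
      continuous_toFun := continuous_pd x.1 x.2
      continuous_invFun := continuous_pd x.1⁻¹ x.2⁻¹ })
  map_one' := Prod.ext (Homeomorph.ext pj_one) (Prod.ext (Homeomorph.ext Lh_one)
    (Homeomorph.ext pd_one))
  map_mul' x y := Prod.ext (Homeomorph.ext (pj_mul _ _ _ _)) (Prod.ext
    (Homeomorph.ext (Lh_mul _ _)) (Homeomorph.ext (pd_mul _ _ _ _)))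

lemma isLifted_toM (x : Lft × Lft) (h : IsotopicToId (pjS (x.1.g, x.2.g))) :
    IsLifted (toM x) where
  iso := h
  circ t := by
    change pj x.1.g x.2.g (circ t) = circ (Lh x.1 t)
    have h0 := nr_pos x.1.g x.2.g (circ t)
    have h1 : (circ t).1.1 = e t := rfl
    have h2 : (circ t).1.2 = 0 := rfl
    have h3 : nr x.1.g x.2.g (circ t).1 = ‖lin x.1.g (e t)‖ := by
      unfold nr
      rw [h1, h2, lin_zero, norm_zero]
      simp
    have h4 : (‖lin x.1.g (e t)‖ : ℂ) ≠ 0 := by
      rw [h3] at h0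
      exact_mod_cast h0.ne'
    apply S3_ext
    · have h7 := lin_e x.1 t
      rw [pj_fst, h3, h1]
      set m := ‖lin x.1.g (e t)‖
      rw [h7, mul_div_cancel_left₀]
      · rfl
      · exact h4
    · rw [pj_snd, h2, lin_zero, zero_div]
      rfl
  circ_add := Lh_add x.1
  tor := pj_tor x.1 x.2
  tor_add p t := by
    change pd x.1 x.2 (p, t + 1) = ((pd x.1 x.2 (p, t)).1, (pd x.1 x.2 (p, t)).2 + 1)
    have h1 : tor (p, t + 1) = tor (p, t) := by
      apply S3_ext
      · rfl
      · change _ * e (t + 1) = _ * e t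
        rw [e_add, e_one, mul_one]
    apply Prod.ext
    · apply Subtype.ext
      change (pj x.1.g x.2.g (tor (p, t + 1))).1.1 = (pj x.1.g x.2.g (tor (p, t))).1.1
      rw [h1]
    · exact Lh_add x.2 t

end Pool.Agent.H79.FB
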