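import Pool.Agent.H79.FB.PerF
import Pool.Agent.H79.FB.Fund

/-!
# The partition of unity

Proof. The set `K = {p : CDisc | ‖p‖ ≤ 9/10}` is compact; each `q ∈ K` has a separated radius
`ρ_q` (`exists_sep`); finitely many open discs `B(q_j, ρ_j)` cover `K` (`IsCompact.elim_finite_subcover`
or `elim_nhds_subcover`; then enumerate by `Fin M`, e.g. `Finset.equivFin`). Put
`tent_j p = max 0 (ρ_j - ‖p - q_j‖)` (continuous, zero off the disc `ρ_j`, so
zero for `‖p‖ > s = max_j (‖q_j‖ + ρ_j) < 1`; it is simplest to apply the theorems of `PerF` to each `j`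
with its own `s`), `U_j = Per tent_j ≥ 0`, `S = ∑ U_j`. For `‖p‖ < 1`
`S p > 0`: by `fund` some good `g` has `mv g p ∈ K`, so `tent_j (mv g p) > 0` for some `j`, the
terms are nonnegative and the support is finite. `S` is continuous on the open disc and invariant.
`φ_j p = tent_j p / S p`: continuous on `CDisc` (near a point with `‖p‖ < 1` as a quotient; near a
point with `‖p‖ > ‖q_j‖ + ρ_j` it vanishes). `Per φ_j p = U_j p / S p` for `‖p‖ < 1` because
`S (mv g p) = S p`; so the sum is `1`.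
-/

namespace Pool.Agent.H79.FB

open Topology

/-- the tent function of the disc of radius `ρ` at `q` -/
private noncomputable def tent (q : CDisc) (ρ : ℝ) (p : CDisc) : ℝ :=
  max 0 (ρ - ‖(p : ℂ) - q‖)

private lemma continuous_tent (q : CDisc) (ρ : ℝ) : Continuous (tent q ρ) := by
  unfold tent
  fun_prop

private lemma tent_nonneg (q : CDisc) (ρ : ℝ) (p : CDisc) : 0 ≤ tent q ρ p := le_max_left _ _

private lemma tent_zero {q : CDisc} {ρ : ℝ} {p : CDisc} (h : ρ ≤ ‖(p : ℂ) - q‖) :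
    tent q ρ p = 0 := by
  unfold tent
  exact max_eq_left (by linarith)

private lemma tent_pos {q : CDisc} {ρ : ℝ} {p : CDisc} (h : ‖(p : ℂ) - q‖ < ρ) :
    0 < tent q ρ p := by
  unfold tent
  exact lt_max_of_lt_right (by linarith)

private lemma tent_off {q : CDisc} {ρ : ℝ} {p : CDisc} (h : ‖(q : ℂ)‖ + ρ < ‖(p : ℂ)‖) :
    tent q ρ p = 0 := by
  apply tent_zero
  have := norm_sub_norm_le (p : ℂ) (q : ℂ)
  linarith

private lemma sep_lt {q : CDisc} {ρ : ℝ} (h : Separated q ρ) : ‖(q : ℂ)‖ + ρ < 1 := by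
  have h1 := h.1
  have h2 := h.2.1
  linarith

private lemma per_tent_nonneg (q : CDisc) (ρ : ℝ) (p : CDisc) : 0 ≤ Per (tent q ρ) p :=
  finsum_nonneg fun _ => tent_nonneg _ _ _

private lemma open_disc : IsOpen {p : CDisc | ‖(p : ℂ)‖ < 1} :=
  isOpen_lt (by fun_prop) continuous_const

private lemma compact_K : IsCompact {p : CDisc | ‖(p : ℂ)‖ ≤ 9 / 10} := by
  have : CompactSpace CDisc := by
    have h : IsCompact {p : ℂ | ‖p‖ ≤ 1} := by
      have h1 : {p : ℂ | ‖p‖ ≤ 1} = Metric.closedBall 0 1 := by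
        ext p
        simp
      rw [h1]
      exact isCompact_closedBall 0 1
    exact isCompact_iff_compactSpace.1 h
  exact (isClosed_le (by fun_prop) continuous_const).isCompact

theorem partition : ∃ (M : ℕ) (q : Fin M → CDisc) (ρ : Fin M → ℝ) (φ : Fin M → CDisc → ℝ),
    (∀ j, Separated (q j) (ρ j)) ∧ (∀ j, Continuous (φ j)) ∧
    (∀ j (p : CDisc), ρ j ≤ ‖(p : ℂ) - q j‖ → φ j p = 0) ∧
    ∀ p : CDisc, ‖(p : ℂ)‖ < 1 → ∑ j, Per (φ j) p = 1 := by
  have hr : ∀ x : CDisc, ∃ r : ℝ, ‖(x : ℂ)‖ < 1 → Separated x r := by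
    intro x
    by_cases hx : ‖(x : ℂ)‖ < 1
    · obtain ⟨r, hr⟩ := exists_sep hx
      exact ⟨r, fun _ => hr⟩
    · exact ⟨0, fun h => absurd h hx⟩
  choose r hr using hr
  obtain ⟨t, ht1, ht2⟩ := compact_K.elim_nhds_subcover
    (fun x : CDisc => {p : CDisc | ‖(p : ℂ) - x‖ < r x}) (by
      intro x hx
      have hx' : ‖(x : ℂ)‖ < 1 := lt_of_le_of_lt hx (by norm_num)
      have h1 : IsOpen {p : CDisc | ‖(p : ℂ) - x‖ < r x} :=
        isOpen_lt (by fun_prop) continuous_const
      refine h1.mem_nhds ?_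
      have := (hr x hx').1
      simpa using this)
  set q : Fin t.card → CDisc := fun j => (t.equivFin.symm j : CDisc) with hq
  have hqK : ∀ j, ‖(q j : ℂ)‖ < 1 := fun j =>
    lt_of_le_of_lt (ht1 _ (t.equivFin.symm j).2) (by norm_num)
  have hsep : ∀ j, Separated (q j) (r (q j)) := fun j => hr _ (hqK j)
  set S : CDisc → ℝ := fun p => ∑ j, Per (tent (q j) (r (q j))) p with hS
  have hSinv : ∀ g : SU, IsGood g → ∀ p, S (SU.mv g p) = S p := by
    intro g hg p
    simp only [hS]
    exact Finset.sum_congr rfl fun j _ => per_inv _ hg p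
  have hSpos : ∀ p : CDisc, ‖(p : ℂ)‖ < 1 → 0 < S p := by
    intro p hp
    obtain ⟨g, hg, hgp⟩ := fund hp
    have h1 := ht2 (show SU.mv g p ∈ {p : CDisc | ‖(p : ℂ)‖ ≤ 9 / 10} from hgp)
    simp only [Set.mem_iUnion, exists_prop] at h1
    obtain ⟨x, hxt, hx⟩ := h1
    have hx' : ‖((SU.mv g p : CDisc) : ℂ) - x‖ < r x := hx
    have hxq : q (t.equivFin ⟨x, hxt⟩) = x := by simp [hq]
    refine Finset.sum_pos' (fun j _ => per_tent_nonneg _ _ _)
      ⟨t.equivFin ⟨x, hxt⟩, Finset.mem_univ _, ?_⟩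
    rw [hxq]
    unfold Per
    refine finsum_pos (fun _ => tent_nonneg _ _ _) ⟨⟨g, hg⟩, tent_pos hx'⟩ ?_
    have hxs : Separated x (r x) := by
      rw [← hxq]
      exact hsep _
    exact per_support (sep_lt hxs) (fun p hp => tent_off hp) hp
  have hScont : ContinuousOn S {p : CDisc | ‖(p : ℂ)‖ < 1} := by
    refine continuousOn_finsetSum _ fun j _ => ?_
    exact per_continuousOn (continuous_tent _ _) (sep_lt (hsep j)) (fun p hp => tent_off hp)
  refine ⟨t.card, q, fun j => r (q j), fun j p => tent (q j) (r (q j)) p / S p, hsep, ?_, ?_, ?_⟩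
  · intro j
    rw [continuous_iff_continuousAt]
    intro p
    by_cases hp : ‖(p : ℂ)‖ < 1
    · exact ((continuous_tent _ _).continuousAt).div
        (hScont.continuousAt (open_disc.mem_nhds hp)) (hSpos p hp).ne'
    · have h1 : IsOpen {x : CDisc | ‖(q j : ℂ)‖ + r (q j) < ‖(x : ℂ)‖} :=
        isOpen_lt continuous_const (by fun_prop)
      have h2 : {x : CDisc | ‖(q j : ℂ)‖ + r (q j) < ‖(x : ℂ)‖} ∈ 𝓝 p := by
        refine h1.mem_nhds ?_
        have := sep_lt (hsep j)
        push Not at hp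
        exact lt_of_lt_of_le this hp
      refine (continuousAt_const (y := (0 : ℝ))).congr ?_
      filter_upwards [h2] with x hx
      rw [tent_off hx, zero_div]
  · intro j p hp
    simp only
    rw [tent_zero hp, zero_div]
  · intro p hp
    have h1 : ∀ j, Per (fun x => tent (q j) (r (q j)) x / S x) p =
        (S p)⁻¹ * Per (tent (q j) (r (q j))) p := by
      intro j
      rw [← per_smul]
      unfold Per
      refine finsum_congr fun g => ?_
      change tent (q j) (r (q j)) (SU.mv g.1 p) / S (SU.mv g.1 p) =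
        (S p)⁻¹ * tent (q j) (r (q j)) (SU.mv g.1 p)
      rw [hSinv g.1 g.2 p, div_eq_inv_mul]
    simp only [h1]
    rw [← Finset.mul_sum]
    exact inv_mul_cancel₀ (hSpos p hp).ne'

end Pool.Agent.H79.FB
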