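import Pool.Agent.H79.FB.Sep
import Pool.Agent.H79.FB.Arith1

/-!
# Periodization of functions

`Per φ p = ∑ᶠ g good, φ (mv g p)`, for functions `φ` which vanish where `‖p‖ > s`, `s < 1`.
Proof.
* `per_support`: for `‖p‖ < 1` the set of `g` with `φ (mv g p) ≠ 0` is finite: `loc_fin (max s ‖p‖)`.
* `per_continuousOn`: for `p₀` with `‖p₀‖ < 1` choose `max s ‖p₀‖ < t < 1`; on the open set
  `‖p‖ < t` all terms with `g` outside of the finite set `S = loc_fin t` vanish; so there
  `Per φ p = ∑ g ∈ S, φ (mv g p)` (`finsum_eq_sum_of_support_subset`), continuous.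
* `per_inv`: `mv g (mv h p) = mv (g * h) p` (`SU.mv_mul`), reindex by `g ↦ g * h`
  (`finsum_comp_equiv` or `Equiv.finsum..`).
* `per_add`, `per_smul`: finite supports (`finsum_add_distrib`, `smul_finsum` / `mul_finsum`).
* `per_comp`: termwise `Ψ (mv g (F.symm p)) = Ψ (A.symm (mv g p))`: `F.symm` is equivariant, so
  `mv g (F.symm p) = F.symm (mv g p)`; put `x = mv g p`. If `x` is in the disc then
  `F.symm x = A.symm x` (because `F (A.symm x) = A (A.symm x) = x`, as `A.symm x` is in the disc).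
  If `x` is off the disc, then `A.symm x = x`, `Ψ x = 0`, and `F.symm x` is off the disc (if
  `y = F.symm x` were in the disc, then `x = F y = A y` would be in the disc), so `Ψ (F.symm x) = 0`.
-/

namespace Pool.Agent.H79.FB

open ComplexConjugate

theorem per_support {φ : CDisc → ℝ} {s : ℝ} (hs : s < 1)
    (h0 : ∀ p : CDisc, s < ‖(p : ℂ)‖ → φ p = 0) {p : CDisc} (hp : ‖(p : ℂ)‖ < 1) :
    (Function.support fun g : {g : SU // IsGood g} => φ (SU.mv g.1 p)).Finite := by
  have ht : max s ‖(p : ℂ)‖ < 1 := max_lt hs hp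
  refine ((loc_fin ht).preimage Subtype.val_injective.injOn).subset fun g hg => ?_
  refine ⟨g.2, p, le_max_right _ _, ?_⟩
  by_contra h
  push Not at h
  exact hg (h0 _ (lt_of_le_of_lt (le_max_left _ _) h))

theorem per_continuousOn {φ : CDisc → ℝ} (hφ : Continuous φ) {s : ℝ} (hs : s < 1)
    (h0 : ∀ p : CDisc, s < ‖(p : ℂ)‖ → φ p = 0) :
    ContinuousOn (Per φ) {p : CDisc | ‖(p : ℂ)‖ < 1} := by
  intro p₀ hp₀
  obtain ⟨t, ht1, ht2⟩ := exists_between (max_lt hs hp₀)
  have hst : s < t := lt_of_le_of_lt (le_max_left _ _) ht1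
  have hpt : ‖(p₀ : ℂ)‖ < t := lt_of_le_of_lt (le_max_right _ _) ht1
  have hfin := (loc_fin ht2).preimage (f := (Subtype.val : {g : SU // IsGood g} → SU))
    Subtype.val_injective.injOn
  have hev : ∀ᶠ p : CDisc in nhds p₀, ∑ g ∈ hfin.toFinset, φ (SU.mv g.1 p) = Per φ p := by
    have hop : IsOpen {p : CDisc | ‖(p : ℂ)‖ < t} :=
      isOpen_lt (by fun_prop) continuous_const
    filter_upwards [hop.mem_nhds hpt] with p hp
    unfold Per
    rw [finsum_eq_sum_of_support_subset]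
    intro g hg
    rw [Set.Finite.coe_toFinset]
    refine ⟨g.2, p, le_of_lt hp, ?_⟩
    by_contra h
    push Not at h
    exact hg (h0 _ (hst.trans h))
  refine ContinuousAt.continuousWithinAt (ContinuousAt.congr ?_ hev)
  refine Continuous.continuousAt ?_
  exact continuous_finsetSum _ fun g _ => hφ.comp (SU.continuous_mv g.1)

theorem per_inv (φ : CDisc → ℝ) {h : SU} (hh : IsGood h) (p : CDisc) :
    Per φ (SU.mv h p) = Per φ p := by
  let E : {g : SU // IsGood g} ≃ {g : SU // IsGood g} :=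
    { toFun := fun g => ⟨g.1 * h, isGood_mul g.2 hh⟩
      invFun := fun g => ⟨g.1 * h⁻¹, isGood_mul g.2 (isGood_inv hh)⟩
      left_inv := fun g => Subtype.ext (by simp)
      right_inv := fun g => Subtype.ext (by simp) }
  unfold Per
  rw [← finsum_comp_equiv E (f := fun g : {g : SU // IsGood g} => φ (SU.mv g.1 p))]
  refine finsum_congr fun g => ?_
  change φ (SU.mv g.1 (SU.mv h p)) = φ (SU.mv (g.1 * h) p)
  rw [SU.mv_mul]

theorem per_add {φ ψ : CDisc → ℝ} {s : ℝ} (hs : s < 1)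
    (h0 : ∀ p : CDisc, s < ‖(p : ℂ)‖ → φ p = 0) (h1 : ∀ p : CDisc, s < ‖(p : ℂ)‖ → ψ p = 0)
    {p : CDisc} (hp : ‖(p : ℂ)‖ < 1) :
    Per (fun x => φ x + ψ x) p = Per φ p + Per ψ p := by
  unfold Per
  exact finsum_add_distrib (per_support hs h0 hp) (per_support hs h1 hp)

theorem per_smul (c : ℝ) (φ : CDisc → ℝ) (p : CDisc) :
    Per (fun x => c * φ x) p = c * Per φ p := by
  unfold Per
  have h := smul_finsum c (fun g : {g : SU // IsGood g} => φ (SU.mv g.1 p))
  simp only [smul_eq_mul] at h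
  exact h.symm

theorem per_comp {q : CDisc} {ρ : ℝ} (A F : CDisc ≃ₜ CDisc)
    (hA : ∀ p : CDisc, 4 * ρ ≤ ‖(p : ℂ) - q‖ → A p = p)
    (hF1 : ∀ g, IsGood g → ∀ p, F (SU.mv g p) = SU.mv g (F p))
    (hF2 : ∀ p : CDisc, ‖(p : ℂ) - q‖ < 4 * ρ → F p = A p)
    (Ψ : CDisc → ℝ) (hΨ : ∀ p : CDisc, 4 * ρ ≤ ‖(p : ℂ) - q‖ → Ψ p = 0) (p : CDisc) :
    Per Ψ (F.symm p) = Per (fun x => Ψ (A.symm x)) p := by
  unfold Per
  refine finsum_congr fun g => ?_
  have h1 : SU.mv g.1 (F.symm p) = F.symm (SU.mv g.1 p) := by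
    rw [← F.symm_apply_apply (SU.mv g.1 (F.symm p)), hF1 g.1 g.2, F.apply_symm_apply]
  rw [h1]
  generalize SU.mv g.1 p = x
  change Ψ (F.symm x) = Ψ (A.symm x)
  rcases lt_or_ge ‖(x : ℂ) - q‖ (4 * ρ) with hx | hx
  · have h2 : ‖((A.symm x : CDisc) : ℂ) - q‖ < 4 * ρ := by
      by_contra h
      push Not at h
      have h3 := hA _ h
      rw [A.apply_symm_apply] at h3
      rw [← h3] at h
      exact absurd hx (not_lt.2 h)
    have h3 := hF2 _ h2
    rw [A.apply_symm_apply] at h3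
    rw [← h3, F.symm_apply_apply, h3]
  · have h2 : A.symm x = x := by
      rw [A.symm_apply_eq, hA x hx]
    rw [h2, hΨ x hx]
    apply hΨ
    by_contra h
    push Not at h
    have h3 := hF2 _ h
    rw [F.apply_symm_apply] at h3
    have h4 : A (F.symm x) = A x := by rw [← h3, hA x hx]
    have h5 := A.injective h4
    rw [h5] at h
    exact absurd h (not_lt.2 hx)

end Pool.Agent.H79.FB
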