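import Pool.Agent.H79.FB.Gen

/-!
# The relator of the octagon group in the universal covering group
-/

namespace Pool.Agent.H79.FB

open ComplexConjugate

/-- `X = (a, beta c)`. -/
def Form (X : SU) (a c : ℂ) : Prop := X.a = a ∧ X.b = beta * c

lemma one_form : Form 1 1 0 := ⟨rfl, by simp⟩

lemma cbeta_sq : (beta : ℂ) * (beta : ℂ) = 2 + 2 * (om - om ^ 3) := by
  rw [← csqrt_two, ← Complex.ofReal_mul, beta_sq]
  push_cast
  ring

lemma Form.step {X : SU} {a c : ℂ} (h : Form X a c) (k : ℕ) {a' c' : ℂ}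
    (h1 : a' = a * (1 + om - om ^ 3) + (2 + 2 * (om - om ^ 3)) * c * (-om ^ 3) ^ k)
    (h2 : c' = a * om ^ k + c * (1 + om - om ^ 3)) : Form (X * bz k) a' c' := by
  obtain ⟨ha, hc⟩ := h
  constructor
  · rw [SU.mul_a, ha, hc, bz_a, bz_b, map_mul, map_pow, conj_om, Complex.conj_ofReal, csqrt_two,
      h1]
    linear_combination c * (-om ^ 3) ^ k * cbeta_sq
  · rw [SU.mul_b, ha, hc, bz_a, bz_b, map_add, map_one, Complex.conj_ofReal, csqrt_two, h2]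
    ring

lemma w0 : Form (1 * bz 0) ((1) * om ^ 0 + (1) * om ^ 1 + (-1) * om ^ 3) ((1) * om ^ 0) := by
  refine one_form.step 0 ?_ ?_
  · linear_combination (0) * om_four
  · linear_combination (0) * om_four

lemma w1 : Form (1 * bz 0 * bz 3) ((1) * om ^ 0 + (-2) * om ^ 2 + (-2) * om ^ 3) ((1) * om ^ 1 + (1) * om ^ 2) := by
  refine w0.step 3 ?_ ?_
  · linear_combination ((-2) * om ^ 1 + (-3) * om ^ 2 + (2) * om ^ 4 + (2) * om ^ 5 + (2) * om ^ 6 + (-2) * om ^ 8) * om_four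
  · linear_combination ((-1) * om ^ 0 + (1) * om ^ 2) * om_four

lemma w2 : Form (1 * bz 0 * bz 3 * bz 6) ((-1) * om ^ 0 + (-3) * om ^ 1 + (-2) * om ^ 2 + (-1) * om ^ 3) ((-1) * om ^ 0 + (1) * om ^ 2 + (1) * om ^ 3) := by
  refine w1.step 6 ?_ ?_
  · linear_combination ((-2) * om ^ 0 + (-4) * om ^ 1 + (4) * om ^ 3 + (4) * om ^ 4 + (2) * om ^ 5 + (-2) * om ^ 6 + (-4) * om ^ 7 + (-4) * om ^ 8 + (-2) * om ^ 9 + (2) * om ^ 10 + (4) * om ^ 11 + (4) * om ^ 12 + (2) * om ^ 13 + (-2) * om ^ 14 + (-4) * om ^ 15 + (-4) * om ^ 16 + (-2) * om ^ 17 + (2) * om ^ 18 + (2) * om ^ 19) * om_four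
  · linear_combination ((-1) * om ^ 0 + (-1) * om ^ 1 + (-1) * om ^ 2 + (2) * om ^ 4 + (2) * om ^ 5) * om_four

lemma w3 : Form (1 * bz 0 * bz 3 * bz 6 * bz 1) ((-3) * om ^ 0 + (-2) * om ^ 1 + (2) * om ^ 3) ((-1) * om ^ 0 + (-1) * om ^ 1 + (-1) * om ^ 2 + (1) * om ^ 3) := by
  refine w2.step 1 ?_ ?_
  · linear_combination ((-2) * om ^ 0 + (2) * om ^ 1 + (5) * om ^ 2 + (2) * om ^ 3 + (-2) * om ^ 4 + (-2) * om ^ 5) * om_four
  · linear_combination ((1) * om ^ 1 + (1) * om ^ 2) * om_four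

lemma w4 : Form (1 * bz 0 * bz 3 * bz 6 * bz 1 * bz 4) ((-1) * om ^ 0 + (1) * om ^ 1 + (2) * om ^ 2 + (3) * om ^ 3) ((-1) * om ^ 1 + (-1) * om ^ 2 + (-1) * om ^ 3) := by
  refine w3.step 4 ?_ ?_
  · linear_combination ((2) * om ^ 0 + (6) * om ^ 1 + (4) * om ^ 2 + (-2) * om ^ 3 + (-6) * om ^ 4 + (-6) * om ^ 5 + (-2) * om ^ 6 + (2) * om ^ 7 + (6) * om ^ 8 + (6) * om ^ 9 + (2) * om ^ 10 + (-2) * om ^ 11 + (-4) * om ^ 12 + (-2) * om ^ 13 + (2) * om ^ 14) * om_four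
  · linear_combination ((1) * om ^ 0 + (1) * om ^ 1 + (1) * om ^ 2 + (-2) * om ^ 3) * om_four

lemma w5 : Form (1 * bz 0 * bz 3 * bz 6 * bz 1 * bz 4 * bz 7) ((1) * om ^ 0 + (2) * om ^ 1 + (2) * om ^ 2) ((1) * om ^ 0 + (-1) * om ^ 3) := by
  refine w4.step 7 ?_ ?_
  · linear_combination ((2) * om ^ 0 + (2) * om ^ 1 + (-1) * om ^ 2 + (-6) * om ^ 3 + (-4) * om ^ 4 + (4) * om ^ 6 + (6) * om ^ 7 + (4) * om ^ 8 + (-4) * om ^ 10 + (-6) * om ^ 11 + (-4) * om ^ 12 + (4) * om ^ 14 + (6) * om ^ 15 + (4) * om ^ 16 + (-4) * om ^ 18 + (-6) * om ^ 19 + (-4) * om ^ 20 + (2) * om ^ 22 + (2) * om ^ 23) * om_four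
  · linear_combination ((1) * om ^ 0 + (1) * om ^ 1 + (2) * om ^ 2 + (1) * om ^ 3 + (-1) * om ^ 4 + (-2) * om ^ 5 + (-3) * om ^ 6) * om_four

lemma w6 : Form (1 * bz 0 * bz 3 * bz 6 * bz 1 * bz 4 * bz 7 * bz 2) ((1) * om ^ 0 + (1) * om ^ 1 + (-1) * om ^ 3) ((1) * om ^ 1) := by
  refine w5.step 2 ?_ ?_
  · linear_combination ((-2) * om ^ 1 + (-4) * om ^ 2 + (-2) * om ^ 3 + (2) * om ^ 4 + (4) * om ^ 5 + (2) * om ^ 6 + (-2) * om ^ 8) * om_four
  · linear_combination ((-1) * om ^ 0 + (-1) * om ^ 2) * om_four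

lemma w7 : Form (1 * bz 0 * bz 3 * bz 6 * bz 1 * bz 4 * bz 7 * bz 2 * bz 5) ((1) * om ^ 0) (0) := by
  refine w6.step 5 ?_ ?_
  · linear_combination ((-2) * om ^ 1 + (-1) * om ^ 2 + (2) * om ^ 3 + (2) * om ^ 4 + (2) * om ^ 5 + (-2) * om ^ 7 + (-2) * om ^ 8 + (-2) * om ^ 9 + (2) * om ^ 11 + (2) * om ^ 12 + (2) * om ^ 13 + (-2) * om ^ 15) * om_four
  · linear_combination ((-1) * om ^ 1 + (-1) * om ^ 2 + (1) * om ^ 4) * om_four

lemma word_SU : bz 0 * bz 3 * bz 6 * bz 1 * bz 4 * bz 7 * bz 2 * bz 5 = 1 := by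
  have h := w7
  rw [one_mul] at h
  apply SU.ext
  · rw [h.1]
    simp
  · rw [h.2]
    simp

/-- The vertices of the regular octagon. -/
lemma norm_vtx (j : ℕ) : ‖om ^ j * (1 + om) / beta‖ ≤ 1 := by
  rw [norm_div, norm_mul, norm_pow, norm_om, one_pow, one_mul, Complex.norm_real,
    Real.norm_eq_abs, abs_of_pos beta_pos, div_le_one beta_pos]
  have h1 : ‖1 + om‖ ≤ 2 := by
    refine (norm_add_le _ _).trans ?_
    rw [norm_om, norm_one]
    norm_num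
  refine h1.trans ?_
  unfold beta
  apply Real.le_sqrt_of_sq_le
  have h2 : (1 : ℝ) ≤ Real.sqrt 2 := by
    rw [Real.one_le_sqrt]
    norm_num
  linarith

/-- The vertices of the regular octagon. -/
noncomputable def vtx (j : ℕ) : CDisc := ⟨om ^ j * (1 + om) / beta, norm_vtx j⟩

lemma cbeta_ne : (beta : ℂ) ≠ 0 := by
  have := beta_pos
  exact_mod_cast this.ne'

lemma om_conj_pow (k : ℕ) : (-om ^ 3) ^ k * om ^ k = 1 := by
  rw [← mul_pow]
  have h : -om ^ 3 * om = 1 := by linear_combination - om_four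
  rw [h, one_pow]

lemma J_vtx (k : ℕ) : SU.J (bz k) (vtx (k + 3)) = om := by
  unfold SU.J
  rw [bz_a, bz_b, map_mul, map_pow, conj_om, map_add, map_one, Complex.conj_ofReal,
    Complex.conj_ofReal, csqrt_two]
  have h1 : ((vtx (k + 3) : CDisc) : ℂ) = om ^ (k + 3) * (1 + om) / beta := rfl
  rw [h1, pow_add]
  have h2 : (beta : ℂ) * (-om ^ 3) ^ k * (om ^ k * om ^ 3 * (1 + om) / beta) =
      ((-om ^ 3) ^ k * om ^ k) * (om ^ 3 * (1 + om)) := by
    have := cbeta_ne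
    field_simp
  rw [h2, om_conj_pow]
  linear_combination om_four

lemma mv_vtx (k : ℕ) : SU.mv (bz k) (vtx (k + 3)) = vtx k := by
  apply Subtype.ext
  rw [SU.coe_mv, J_vtx, bz_a, bz_b, csqrt_two]
  have h1 : ((vtx (k + 3) : CDisc) : ℂ) = om ^ (k + 3) * (1 + om) / beta := rfl
  have h2 : ((vtx k : CDisc) : ℂ) = om ^ k * (1 + om) / beta := rfl
  have hom : om ≠ 0 := by
    intro h
    have := norm_om
    rw [h] at this
    simp at this
  rw [h1, h2, pow_add]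
  have hb := cbeta_ne
  have h3 := cbeta_sq
  field_simp
  linear_combination h3 + (2 + om - om ^ 2 - om ^ 3) * om_four

lemma vtx_add (k : ℕ) : vtx (k + 8) = vtx k := by
  apply Subtype.ext
  have h1 : ((vtx (k + 8) : CDisc) : ℂ) = om ^ (k + 8) * (1 + om) / beta := rfl
  have h2 : ((vtx k : CDisc) : ℂ) = om ^ k * (1 + om) / beta := rfl
  rw [h1, h2, pow_add, om_eight, mul_one]

lemma e_eighth : e (1 / 8) = om := by
  unfold e om
  have h : 2 * Real.pi * (1 / 8) = Real.pi / 4 := by ring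
  rw [h, Complex.exp_mul_I, ← Complex.ofReal_cos, ← Complex.ofReal_sin, Real.cos_pi_div_four,
    Real.sin_pi_div_four]

lemma th_vtx (k : ℕ) : (Bz k).th (vtx (k + 3)) = 1 / 8 := by
  apply eq_of_e_eq
  · rw [(Bz k).h, Bz_g, J_vtx, norm_om, e_eighth]
    simp
  · have h1 := abs_lt.1 (abs_Gen_th (beta * om ^ k) (vtx (k + 3)))
    have h2 : (Bz k).th (vtx (k + 3)) = (Gen (beta * om ^ k)).th (vtx (k + 3)) := rfl
    rw [h2, abs_lt]
    constructor <;> linarith [h1.1, h1.2]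

/-- The central element: the identity of `SU(1,1)` with the argument `1` (in turns). -/
noncomputable def Kc : Lft where
  g := 1
  th := ContinuousMap.const _ 1
  h p := by
    change e 1 = _
    rw [e_one, Lft.J_one]
    simp

instance : PreconnectedSpace CDisc := by
  have h := (convex_closedBall (0 : ℂ) 1).isPreconnected
  have h2 : {p : ℂ | ‖p‖ ≤ 1} = Metric.closedBall (0 : ℂ) 1 := by
    ext p
    simp
  rw [← h2] at h
  exact isPreconnected_iff_preconnectedSpace.1 h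

lemma int_const {f : CDisc → ℝ} (hf : Continuous f) (h : ∀ p, ∃ n : ℤ, f p = n) (p q : CDisc) :
    f p = f q := by
  by_contra hne
  wlog hlt : f p < f q generalizing p q
  · exact this q p (fun h => hne h.symm) (lt_of_le_of_ne (not_lt.1 hlt) (fun h => hne h.symm))
  obtain ⟨a, ha⟩ := h p
  obtain ⟨b, hb⟩ := h q
  have hab : a + 1 ≤ b := by
    have : (a : ℝ) < b := by
      rw [← ha, ← hb]
      exact hlt
    have h3 : a < b := by exact_mod_cast this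
    omega
  have hab' : (a : ℝ) + 1 ≤ b := by exact_mod_cast hab
  obtain ⟨x, hx⟩ := mem_range_of_exists_le_of_exists_ge (c := (a : ℝ) + 1 / 2) hf
    ⟨p, by rw [ha]; linarith⟩ ⟨q, by rw [hb]; linarith⟩
  obtain ⟨c, hc⟩ := h x
  rw [hc] at hx
  have h5 : (2 : ℝ) * c = 2 * a + 1 := by linarith
  have h6 : 2 * c = 2 * a + 1 := by exact_mod_cast h5
  omega

lemma eq_Kc {X : Lft} (h1 : X.g = 1) (q : CDisc) (h2 : X.th q = 1) : X = Kc := by
  apply Lft.ext' h1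
  intro p
  have h3 := int_const X.th.continuous (fun p => by
    have h := X.h p
    rw [h1, Lft.J_one] at h
    apply (e_eq_one_iff _).1
    rw [h]
    simp) p q
  rw [h3, h2]
  rfl

/-- The relator of the octagon group in the universal covering group. -/
theorem word_Lft : Bz 0 * Bz 3 * Bz 6 * Bz 1 * Bz 4 * Bz 7 * Bz 2 * Bz 5 = Kc := by
  apply eq_Kc (q := vtx 8)
  · exact word_SU
  · simp only [Lft.mul_th, Bz_g]
    have e5 : SU.mv (bz 5) (vtx 8) = vtx 5 := mv_vtx 5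
    have e2 : SU.mv (bz 2) (vtx 5) = vtx 2 := mv_vtx 2
    have e7 : SU.mv (bz 7) (vtx 2) = vtx 7 := by
      rw [← vtx_add 2]
      exact mv_vtx 7
    have e4 : SU.mv (bz 4) (vtx 7) = vtx 4 := mv_vtx 4
    have e1 : SU.mv (bz 1) (vtx 4) = vtx 1 := mv_vtx 1
    have e6 : SU.mv (bz 6) (vtx 1) = vtx 6 := by
      rw [← vtx_add 1]
      exact mv_vtx 6
    have e3 : SU.mv (bz 3) (vtx 6) = vtx 3 := mv_vtx 3
    rw [e5, e2, e7, e4, e1, e6, e3]
    have t0 : (Bz 0).th (vtx 3) = 1 / 8 := th_vtx 0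
    have t3 : (Bz 3).th (vtx 6) = 1 / 8 := th_vtx 3
    have t6 : (Bz 6).th (vtx 1) = 1 / 8 := by
      rw [← vtx_add 1]
      exact th_vtx 6
    have t1 : (Bz 1).th (vtx 4) = 1 / 8 := th_vtx 1
    have t4 : (Bz 4).th (vtx 7) = 1 / 8 := th_vtx 4
    have t7 : (Bz 7).th (vtx 2) = 1 / 8 := by
      rw [← vtx_add 2]
      exact th_vtx 7
    have t2 : (Bz 2).th (vtx 5) = 1 / 8 := th_vtx 2
    have t5 : (Bz 5).th (vtx 8) = 1 / 8 := th_vtx 5
    rw [t0, t3, t6, t1, t4, t7, t2, t5]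
    norm_num

/-- The standard generators of the octagon group. -/
noncomputable def ga : Fin 2 → Lft :=
  ![Bz 0 * Bz 3 * Bz 6, Bz 1 * (Bz 0 * Bz 3) * (Bz 1)⁻¹]

/-- The standard generators of the octagon group. -/
noncomputable def gb : Fin 2 → Lft :=
  ![Bz 1, Bz 1 * (Bz 6 * (Bz 0)⁻¹) * (Bz 1)⁻¹]

theorem rel_Lft : prodComm ga gb = Kc := by
  rw [← word_Lft]
  have h4 : Bz 4 = (Bz 0)⁻¹ := Bz_add_four 0
  have h7 : Bz 7 = (Bz 3)⁻¹ := Bz_add_four 3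
  have h6 : Bz 6 = (Bz 2)⁻¹ := Bz_add_four 2
  have h5 : Bz 5 = (Bz 1)⁻¹ := Bz_add_four 1
  unfold prodComm ga gb
  simp only [List.ofFn_succ, List.ofFn_zero, List.prod_cons, List.prod_nil, mul_one,
    Matrix.cons_val_zero, Matrix.cons_val_succ]
  rw [h4, h7, h6, h5]
  group

end Pool.Agent.H79.FB
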