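import Pool.Agent.H79.FB.Wgp

/-!
# The group `SU(1,1)` and its action on the closed disc
-/

namespace Pool.Agent.H79.FB

open ComplexConjugate

/-- The group `SU(1,1)` of the matrices `(a, b; conj b, conj a)` with `|a|^2 - |b|^2 = 1`. -/
@[ext] structure SU where
  a : ℂ
  b : ℂ
  eq : Complex.normSq a - Complex.normSq b = 1

namespace SU

lemma nsq (x y : ℂ) (h : Complex.normSq x - Complex.normSq y = 1) :
    x * conj x - y * conj y = 1 := by
  rw [Complex.mul_conj, Complex.mul_conj]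
  exact_mod_cast h

lemma nsq' (x y : ℂ) (h : x * conj x - y * conj y = 1) :
    Complex.normSq x - Complex.normSq y = 1 := by
  rw [Complex.mul_conj, Complex.mul_conj] at h
  exact_mod_cast h

lemma eq' (g : SU) : g.a * conj g.a - g.b * conj g.b = 1 := nsq _ _ g.eq

noncomputable instance : Mul SU where
  mul g h := ⟨g.a * h.a + g.b * conj h.b, g.a * h.b + g.b * conj h.a, by
    apply nsq'
    simp only [map_add, map_mul, Complex.conj_conj]
    linear_combination (h.a * conj h.a - h.b * conj h.b) * g.eq' + h.eq'⟩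

noncomputable instance : One SU where
  one := ⟨1, 0, by simp⟩

noncomputable instance : Inv SU where
  inv g := ⟨conj g.a, - g.b, by
    have := g.eq
    simpa using this⟩

@[simp] lemma mul_a (g h : SU) : (g * h).a = g.a * h.a + g.b * conj h.b := rfl
@[simp] lemma mul_b (g h : SU) : (g * h).b = g.a * h.b + g.b * conj h.a := rfl
@[simp] lemma one_a : (1 : SU).a = 1 := rfl
@[simp] lemma one_b : (1 : SU).b = 0 := rfl
@[simp] lemma inv_a (g : SU) : (g⁻¹).a = conj g.a := rfl
@[simp] lemma inv_b (g : SU) : (g⁻¹).b = - g.b := rfl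

noncomputable instance : Group SU :=
  Group.ofLeftAxioms
    (fun x y w => SU.ext (by simp; ring) (by simp; ring))
    (fun x => SU.ext (by simp) (by simp))
    (fun x => SU.ext (by
      have := x.eq'
      simp only [mul_a, inv_a, inv_b, one_a]
      linear_combination this) (by
      simp only [mul_b, inv_a, inv_b, one_b]
      ring))

/-- The cocycle `J g p = conj b * p + conj a`. -/
noncomputable def J (g : SU) (p : ℂ) : ℂ := conj g.b * p + conj g.a

lemma norm_sq_a (g : SU) : ‖g.a‖ ^ 2 = 1 + ‖g.b‖ ^ 2 := by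
  have := g.eq
  rw [Complex.normSq_eq_norm_sq, Complex.normSq_eq_norm_sq] at this
  linarith

lemma norm_b_lt (g : SU) : ‖g.b‖ < ‖g.a‖ := by
  have h := g.norm_sq_a
  have h1 := norm_nonneg g.a
  have h2 := norm_nonneg g.b
  nlinarith

lemma one_le_norm_a (g : SU) : 1 ≤ ‖g.a‖ := by
  have h := g.norm_sq_a
  have h1 := norm_nonneg g.a
  have h2 := sq_nonneg ‖g.b‖
  nlinarith

/-- The lower bound of the cocycle. -/
lemma norm_J_ge (g : SU) {p : ℂ} {s : ℝ} (hp : ‖p‖ ≤ s) :
    ‖g.a‖ * (1 - s) ≤ ‖J g p‖ := by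
  have h1 := norm_b_lt g
  have h2 : ‖conj g.a‖ - ‖conj g.b * p‖ ≤ ‖J g p‖ := by
    unfold J
    have := norm_sub_norm_le (conj g.a) (-(conj g.b * p))
    rw [norm_neg, sub_neg_eq_add, add_comm] at this
    exact this
  rw [norm_mul, Complex.norm_conj, Complex.norm_conj] at h2
  have h3 := norm_nonneg p
  have h4 := norm_nonneg g.b
  have h5 := norm_nonneg g.a
  nlinarith [mul_le_mul h1.le hp h3 h5]

lemma J_ne_zero (g : SU) {p : ℂ} (hp : ‖p‖ ≤ 1) : J g p ≠ 0 := by
  intro h
  have h1 := norm_b_lt g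
  unfold J at h
  have h2 : ‖conj g.b * p‖ = ‖conj g.a‖ := by
    rw [eq_neg_of_add_eq_zero_left h, norm_neg]
  rw [norm_mul, Complex.norm_conj, Complex.norm_conj] at h2
  have h4 := norm_nonneg g.b
  nlinarith

/-- The key identity `1 - conj (g p) (g q) = (1 - conj p q) / (conj (J g p) J g q)`. -/
lemma key (g : SU) {p q : ℂ} (hp : ‖p‖ ≤ 1) (hq : ‖q‖ ≤ 1) :
    1 - conj ((g.a * p + g.b) / J g p) * ((g.a * q + g.b) / J g q) =
      (1 - conj p * q) / (conj (J g p) * J g q) := by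
  have h1 := J_ne_zero g hp
  have h2 := J_ne_zero g hq
  have h3 : conj (J g p) ≠ 0 := by
    intro h
    exact h1 ((map_eq_zero _).1 h)
  rw [map_div₀]
  field_simp
  unfold J
  simp only [map_add, map_mul, Complex.conj_conj]
  linear_combination (1 - conj p * q) * g.eq'

/-- The identity `1 - |g p|^2 = (1 - |p|^2) / |J g p|^2`. -/
lemma one_sub_norm (g : SU) {p : ℂ} (hp : ‖p‖ ≤ 1) :
    1 - ‖(g.a * p + g.b) / J g p‖ ^ 2 = (1 - ‖p‖ ^ 2) / ‖J g p‖ ^ 2 := by
  have h := key g hp hp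
  have h4 : ∀ x : ℂ, conj x * x = ((‖x‖ ^ 2 : ℝ) : ℂ) := by
    intro x
    rw [mul_comm, Complex.mul_conj, Complex.normSq_eq_norm_sq]
  rw [h4, h4, h4] at h
  exact_mod_cast h

lemma norm_le (g : SU) {p : ℂ} (hp : ‖p‖ ≤ 1) : ‖(g.a * p + g.b) / J g p‖ ≤ 1 := by
  have h := one_sub_norm g hp
  have h1 : 0 ≤ (1 - ‖p‖ ^ 2) / ‖J g p‖ ^ 2 := by
    apply div_nonneg
    · have := norm_nonneg p
      nlinarith
    · positivity
  have h2 := norm_nonneg ((g.a * p + g.b) / J g p)
  nlinarith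

/-- The action on the closed disc, as a map. -/
noncomputable def mv (g : SU) (p : CDisc) : CDisc := ⟨(g.a * p + g.b) / J g p, norm_le g p.2⟩

lemma coe_mv (g : SU) (p : CDisc) : ((mv g p : CDisc) : ℂ) = (g.a * p + g.b) / J g p := rfl

lemma J_mul (g h : SU) (p : CDisc) : J (g * h) p = J g (mv h p) * J h p := by
  have h1 := J_ne_zero h p.2
  rw [coe_mv]
  have h2 : J g ((h.a * p + h.b) / J h p) = conj g.b * ((h.a * p + h.b) / J h p) + conj g.a := rfl
  rw [h2, add_mul, mul_assoc, div_mul_cancel₀ _ h1]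
  unfold J
  simp only [mul_a, mul_b, map_add, map_mul, Complex.conj_conj]
  ring

lemma mv_mul (g h : SU) (p : CDisc) : mv (g * h) p = mv g (mv h p) := by
  apply Subtype.ext
  rw [coe_mv, coe_mv, J_mul]
  have h1 := J_ne_zero h p.2
  have h2 := J_ne_zero g (mv h p).2
  rw [div_eq_div_iff (mul_ne_zero h2 h1) h2]
  have h3 : ((mv h p : CDisc) : ℂ) * J h p = h.a * p + h.b := by
    rw [coe_mv, div_mul_cancel₀ _ h1]
  have h4 : J h p = conj h.b * p + conj h.a := rfl
  have h5 : (g.a * (mv h p : CDisc) + g.b) * (J g (mv h p) * J h p) =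
      (g.a * ((mv h p : CDisc) * J h p) + g.b * J h p) * J g (mv h p) := by ring
  rw [h5, h3]
  simp only [mul_a, mul_b]
  rw [h4]
  ring

lemma mv_one (p : CDisc) : mv 1 p = p := by
  apply Subtype.ext
  rw [coe_mv]
  unfold J
  simp

lemma continuous_mv_family : Continuous fun y : {x : ℂ × ℂ // ‖x.2‖ < ‖x.1‖} × CDisc =>
    (y.1.1.1 * (y.2 : ℂ) + y.1.1.2) / (conj y.1.1.2 * (y.2 : ℂ) + conj y.1.1.1) := by
  apply Continuous.div
  · fun_prop
  · fun_prop
  · rintro ⟨⟨⟨a, b⟩, h⟩, p⟩ h0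
    simp only at h h0
    have h2 : ‖conj b * (p : ℂ)‖ = ‖conj a‖ := by
      rw [eq_neg_of_add_eq_zero_left h0, norm_neg]
    rw [norm_mul, Complex.norm_conj, Complex.norm_conj] at h2
    have h4 := norm_nonneg b
    have h5 := p.2
    nlinarith

lemma continuous_mv (g : SU) : Continuous (mv g) := by
  apply Continuous.subtype_mk
  have h : Continuous fun p : CDisc =>
      (((⟨(g.a, g.b), norm_b_lt g⟩ : {x : ℂ × ℂ // ‖x.2‖ < ‖x.1‖}), p) :
        {x : ℂ × ℂ // ‖x.2‖ < ‖x.1‖} × CDisc) := by fun_prop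
  exact continuous_mv_family.comp h

/-- The homomorphism from `SU(1,1)` to the homeomorphisms of the closed disc. -/
noncomputable def act : SU →* (CDisc ≃ₜ CDisc) where
  toFun g :=
    { toFun := mv g
      invFun := mv g⁻¹
      left_inv := fun p => by rw [← mv_mul, inv_mul_cancel, mv_one]
      right_inv := fun p => by rw [← mv_mul, mul_inv_cancel, mv_one]
      continuous_toFun := continuous_mv g
      continuous_invFun := continuous_mv g⁻¹ }
  map_one' := Homeomorph.ext mv_one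
  map_mul' g h := Homeomorph.ext (mv_mul g h)

@[simp] lemma act_apply (g : SU) (p : CDisc) : act g p = mv g p := rfl

lemma act_symm (g : SU) : (act g).symm = act g⁻¹ := (map_inv act g).symm

lemma norm_mv_lt (g : SU) (p : CDisc) : ‖(mv g p : ℂ)‖ < 1 ↔ ‖(p : ℂ)‖ < 1 := by
  have h := one_sub_norm g p.2
  rw [← coe_mv] at h
  have h1 : 0 < ‖J g p‖ ^ 2 := by
    have := norm_pos_iff.2 (J_ne_zero g p.2)
    positivity
  have h2 : (1 - ‖(mv g p : ℂ)‖ ^ 2) * ‖J g p‖ ^ 2 = 1 - ‖(p : ℂ)‖ ^ 2 := by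
    rw [h, div_mul_cancel₀ _ h1.ne']
  have h3 := norm_nonneg (mv g p : ℂ)
  have h4 := norm_nonneg (p : ℂ)
  constructor
  · intro h5
    have h6 : 0 < 1 - ‖(mv g p : ℂ)‖ ^ 2 := by nlinarith
    have h7 := mul_pos h6 h1
    nlinarith
  · intro h5
    by_contra h6
    push Not at h6
    have h7 : 1 - ‖(mv g p : ℂ)‖ ^ 2 ≤ 0 := by nlinarith
    have h8 := mul_nonpos_of_nonpos_of_nonneg h7 h1.le
    nlinarith

lemma sub_mv (g : SU) (p q : CDisc) :
    (mv g p : ℂ) - mv g q = ((p : ℂ) - q) / (J g p * J g q) := by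
  have h1 := J_ne_zero g p.2
  have h2 := J_ne_zero g q.2
  rw [coe_mv, coe_mv]
  field_simp
  unfold J
  linear_combination ((p : ℂ) - q) * g.eq'

end SU

end Pool.Agent.H79.FB
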