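import Pool.Agent.H79.FB.SepDef
import Pool.Agent.H79.FB.Arith2

/-!
# Local finiteness, contraction of distances, separated discs

Proof.
* `loc_fin`: if `‖p‖ ≤ s`, `‖mv g p‖ ≤ s`, then by `SU.one_sub_norm`
  `‖J g p‖^2 = (1 - ‖p‖^2) / (1 - ‖mv g p‖^2) ≤ 1 / (1 - s^2)` and by `SU.norm_J_ge`
  `‖g.a‖ (1 - s) ≤ ‖J g p‖`. So `‖g.a‖ ≤ C(s)`; use `good_finite`.
  (If `s < 0` the set is empty.)
* `dist_mv`: `SU.sub_mv` and `SU.norm_J_ge`, `‖p - q‖ ≤ 2`.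
* `exists_sep`: choose `s` with `‖q‖ < s < 1`. For the finitely many good `g` of `loc_fin s` which
  do not act as the identity, `mv g q ≠ q` by `good_free`; by continuity of `mv g` there is
  `ρ_g > 0` such that no `p` with `‖p - q‖ < 4 ρ_g` has `‖mv g p - q‖ < 4 ρ_g`. Take `ρ` smaller
  than the finitely many `ρ_g` and with `‖q‖ + 4ρ < s` (for instance with filters: the property
  holds eventually for `ρ` in `𝓝[>] 0`, finite intersections by `Filter.eventually_all_finite`).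
-/

namespace Pool.Agent.H79.FB

open ComplexConjugate

open Filter Topology in
private theorem sep_one {q : CDisc} (hq : ‖(q : ℂ)‖ < 1) {g : SU} (hg : IsGood g) :
    ∀ᶠ ρ in 𝓝[>] (0 : ℝ), ∀ p : CDisc, ‖(p : ℂ) - q‖ < 4 * ρ →
      ‖((SU.mv g p : CDisc) : ℂ) - q‖ < 4 * ρ → ∀ x : CDisc, SU.mv g x = x := by
  by_cases h : SU.mv g q = q
  · exact Filter.Eventually.of_forall fun ρ p _ _ x => good_free hg hq h x
  · have hδ : 0 < dist (SU.mv g q) q := dist_pos.2 h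
    obtain ⟨δ, hδe⟩ : ∃ δ : ℝ, δ = dist (SU.mv g q) q := ⟨_, rfl⟩
    rw [← hδe] at hδ
    obtain ⟨η, hη, hc⟩ := Metric.continuousAt_iff.1 (SU.continuous_mv g).continuousAt (δ / 2)
      (by positivity)
    have h1 : ∀ᶠ ρ in 𝓝[>] (0 : ℝ), ρ < min (η / 4) (δ / 8) :=
      eventually_nhdsWithin_of_eventually_nhds
        (gt_mem_nhds (lt_min (by positivity) (by positivity)))
    filter_upwards [h1] with ρ hρ p hp1 hp2 x
    exfalso
    have hρ1 : ρ < η / 4 := hρ.trans_le (min_le_left _ _)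
    have hρ2 : ρ < δ / 8 := hρ.trans_le (min_le_right _ _)
    have e1 : dist p q < η := by
      rw [Subtype.dist_eq, dist_eq_norm]
      linarith
    have e2 := hc e1
    have e3 : dist (SU.mv g p) q < δ / 2 := by
      rw [Subtype.dist_eq, dist_eq_norm]
      linarith
    have e4 := dist_triangle_left (SU.mv g q) q (SU.mv g p)
    linarith

theorem loc_fin {s : ℝ} (hs : s < 1) :
    {g : SU | IsGood g ∧ ∃ p : CDisc, ‖(p : ℂ)‖ ≤ s ∧ ‖((SU.mv g p : CDisc) : ℂ)‖ ≤ s}.Finite := by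
  refine (good_finite (Real.sqrt (1 / (1 - s ^ 2)) / (1 - s))).subset ?_
  rintro g ⟨hg, p, hp, hm⟩
  refine ⟨hg, ?_⟩
  have hs0 : 0 ≤ s := (norm_nonneg _).trans hp
  have hs1 : 0 < 1 - s := by linarith
  have hs2 : 0 < 1 - s ^ 2 := by nlinarith
  have h := SU.one_sub_norm g p.2
  rw [← SU.coe_mv] at h
  have hJ : 0 < ‖SU.J g p‖ ^ 2 := by
    have := norm_pos_iff.2 (SU.J_ne_zero g p.2)
    positivity
  have h2 : (1 - ‖(SU.mv g p : ℂ)‖ ^ 2) * ‖SU.J g p‖ ^ 2 = 1 - ‖(p : ℂ)‖ ^ 2 := by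
    rw [h, div_mul_cancel₀ _ hJ.ne']
  have h3 : 1 - s ^ 2 ≤ 1 - ‖(SU.mv g p : ℂ)‖ ^ 2 := by
    have := norm_nonneg (SU.mv g p : ℂ)
    nlinarith
  have h4 : (1 - s ^ 2) * ‖SU.J g p‖ ^ 2 ≤ 1 := by
    have h5 := mul_le_mul_of_nonneg_right h3 hJ.le
    have h6 := sq_nonneg ‖(p : ℂ)‖
    linarith
  have h5 : ‖SU.J g p‖ ≤ Real.sqrt (1 / (1 - s ^ 2)) := by
    apply Real.le_sqrt_of_sq_le
    rw [le_div_iff₀ hs2]
    linarith
  rw [le_div_iff₀ hs1]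
  exact (SU.norm_J_ge g hp).trans h5

theorem dist_mv {s : ℝ} (hs : s < 1) (g : SU) {p q : CDisc} (hp : ‖(p : ℂ)‖ ≤ s)
    (hq : ‖(q : ℂ)‖ ≤ s) :
    dist (SU.mv g p) (SU.mv g q) ≤ 2 / ((1 - s) ^ 2 * ‖g.a‖ ^ 2) := by
  have hs1 : 0 < 1 - s := by linarith
  have ha := SU.one_le_norm_a g
  rw [Subtype.dist_eq, dist_eq_norm, SU.sub_mv, norm_div, norm_mul]
  have h1 := SU.norm_J_ge g hp
  have h2 := SU.norm_J_ge g hq
  have h0 : 0 < ‖g.a‖ * (1 - s) := by positivity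
  have h3 : (1 - s) ^ 2 * ‖g.a‖ ^ 2 ≤ ‖SU.J g p‖ * ‖SU.J g q‖ := by
    calc (1 - s) ^ 2 * ‖g.a‖ ^ 2 = (‖g.a‖ * (1 - s)) * (‖g.a‖ * (1 - s)) := by ring
      _ ≤ ‖SU.J g p‖ * ‖SU.J g q‖ := mul_le_mul h1 h2 h0.le (norm_nonneg _)
  have h4 : ‖(p : ℂ) - q‖ ≤ 2 := by
    have h5 := norm_sub_le (p : ℂ) q
    have h6 := p.2
    have h7 := q.2
    linarith
  exact div_le_div₀ (by norm_num) h4 (by positivity) h3

open Filter Topology in
theorem exists_sep {q : CDisc} (hq : ‖(q : ℂ)‖ < 1) : ∃ ρ, Separated q ρ := by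
  obtain ⟨s, hqs, hs⟩ := exists_between hq
  have h1 : ∀ᶠ ρ in 𝓝[>] (0 : ℝ),
      ∀ g ∈ {g : SU | IsGood g ∧ ∃ p : CDisc, ‖(p : ℂ)‖ ≤ s ∧ ‖((SU.mv g p : CDisc) : ℂ)‖ ≤ s},
        ∀ p : CDisc, ‖(p : ℂ) - q‖ < 4 * ρ →
          ‖((SU.mv g p : CDisc) : ℂ) - q‖ < 4 * ρ → ∀ x : CDisc, SU.mv g x = x :=
    (Filter.eventually_all_finite (loc_fin hs)).2 fun g hg => sep_one hq hg.1
  have h2 : ∀ᶠ ρ in 𝓝[>] (0 : ℝ), ρ < (s - ‖(q : ℂ)‖) / 4 :=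
    eventually_nhdsWithin_of_eventually_nhds (gt_mem_nhds (by linarith))
  have h3 : ∀ᶠ ρ in 𝓝[>] (0 : ℝ), 0 < ρ := self_mem_nhdsWithin
  obtain ⟨ρ, h4, h5, h6⟩ := (h1.and (h2.and h3)).exists
  refine ⟨ρ, h6, by linarith, fun g hg p hp1 hp2 x => ?_⟩
  refine h4 g ⟨hg, p, ?_, ?_⟩ p hp1 hp2 x
  · have := norm_add_le ((p : ℂ) - q) q
    rw [sub_add_cancel] at this
    linarith
  · have := norm_add_le (((SU.mv g p : CDisc) : ℂ) - q) q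
    rw [sub_add_cancel] at this
    linarith

end Pool.Agent.H79.FB
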