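import Pool.Agent.H79.FB.Good

/-!
# Separated discs: definition
-/

namespace Pool.Agent.H79.FB

/-- The disc of radius `4ρ` at `q` is compactly contained in the open unit disc, and its
translates by good elements either coincide or are disjoint. -/
def Separated (q : CDisc) (ρ : ℝ) : Prop :=
  0 < ρ ∧ ‖(q : ℂ)‖ + 4 * ρ < 1 ∧ ∀ g, IsGood g → ∀ p : CDisc, ‖(p : ℂ) - q‖ < 4 * ρ →
    ‖((SU.mv g p : CDisc) : ℂ) - q‖ < 4 * ρ → ∀ x : CDisc, SU.mv g x = x

/-- The periodization of a function. -/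
noncomputable def Per (φ : CDisc → ℝ) (p : CDisc) : ℝ :=
  ∑ᶠ g : {g : SU // IsGood g}, φ (SU.mv g.1 p)

end Pool.Agent.H79.FB
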