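import Pool.Agent.H79.FB.Defs

/-!
# The group `W` of the data `(F, L, z)`: `F` a homeomorphism of the closed disc, `L` a lift of
`F | boundary` to `ℝ`, `z` a continuous real function on the open disc.
The data acts on `Disc × ℝ` by `(p, t) ↦ (F p, t + z p)`.
-/

namespace Pool.Agent.H79.FB

/-- The closed unit disc. -/
abbrev CDisc : Type := {p : ℂ // ‖p‖ ≤ 1}

/-- The inclusion of the open disc in the closed disc. -/
noncomputable def cd (p : Disc) : CDisc := ⟨p, p.2.le⟩

lemma continuous_cd : Continuous cd := by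
  unfold cd
  fun_prop

lemma norm_cd_lt (p : Disc) : ‖((cd p : CDisc) : ℂ)‖ < 1 := p.2

@[simp] lemma coe_cd (p : Disc) : ((cd p : CDisc) : ℂ) = p := rfl

/-- The parametrisation of the boundary circle of the closed disc. -/
noncomputable def bdry (t : ℝ) : CDisc := ⟨e t, (norm_e t).le⟩

/-- See the head of the file. -/
@[ext] structure W where
  F : CDisc ≃ₜ CDisc
  int : ∀ p, ‖(F p : ℂ)‖ < 1 ↔ ‖(p : ℂ)‖ < 1
  L : ℝ ≃ₜ ℝ
  per : ∀ t, L (t + 1) = L t + 1
  bd : ∀ t, F (bdry t) = bdry (L t)
  z : C(Disc, ℝ)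

/-- Restriction to the open disc of a homeomorphism of the closed disc which preserves the
open disc. -/
noncomputable def res (F : CDisc ≃ₜ CDisc) (h : ∀ p, ‖(F p : ℂ)‖ < 1 ↔ ‖(p : ℂ)‖ < 1) : C(Disc, Disc) where
  toFun p := ⟨F (cd p), (h (cd p)).2 p.2⟩
  continuous_toFun := by
    have := continuous_cd
    fun_prop

lemma cd_res (F : CDisc ≃ₜ CDisc) (h : ∀ p, ‖(F p : ℂ)‖ < 1 ↔ ‖(p : ℂ)‖ < 1) (p : Disc) :
    cd (res F h p) = F (cd p) := rfl

lemma int_symm (F : CDisc ≃ₜ CDisc) (h : ∀ p, ‖(F p : ℂ)‖ < 1 ↔ ‖(p : ℂ)‖ < 1) (p : CDisc) :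
    ‖(F.symm p : ℂ)‖ < 1 ↔ ‖(p : ℂ)‖ < 1 := by
  rw [← h, Homeomorph.apply_symm_apply]

lemma cd_injective : Function.Injective cd := by
  intro p q h
  have := congrArg (fun x : CDisc => (x : ℂ)) h
  exact Subtype.ext this

namespace W

/-- The restriction of `F` to the open disc. -/
noncomputable def r (w : W) : C(Disc, Disc) := res w.F w.int

/-- The restriction of the inverse of `F` to the open disc. -/
noncomputable def rs (w : W) : C(Disc, Disc) := res w.F.symm (int_symm w.F w.int)

@[simp] lemma cd_r (w : W) (p : Disc) : cd (w.r p) = w.F (cd p) := rfl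
@[simp] lemma cd_rs (w : W) (p : Disc) : cd (w.rs p) = w.F.symm (cd p) := rfl

@[simp] lemma r_rs (w : W) (p : Disc) : w.r (w.rs p) = p := cd_injective (by simp)
@[simp] lemma rs_r (w : W) (p : Disc) : w.rs (w.r p) = p := cd_injective (by simp)

noncomputable instance : Mul W where
  mul x y :=
    { F := y.F.trans x.F
      int := fun p => by
        rw [Homeomorph.trans_apply, x.int, y.int]
      L := y.L.trans x.L
      per := fun t => by
        simp only [Homeomorph.trans_apply, y.per, x.per]
      bd := fun t => by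
        simp only [Homeomorph.trans_apply, y.bd, x.bd]
      z := ⟨fun p => x.z (y.r p) + y.z p, by fun_prop⟩ }

noncomputable instance : One W where
  one :=
    { F := Homeomorph.refl _
      int := fun _ => Iff.rfl
      L := Homeomorph.refl _
      per := fun _ => rfl
      bd := fun _ => rfl
      z := 0 }

noncomputable instance : Inv W where
  inv x :=
    { F := x.F.symm
      int := int_symm x.F x.int
      L := x.L.symm
      per := fun t => by
        rw [Homeomorph.symm_apply_eq, x.per, Homeomorph.apply_symm_apply]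
      bd := fun t => by
        rw [Homeomorph.symm_apply_eq, x.bd, Homeomorph.apply_symm_apply]
      z := ⟨fun p => - x.z (x.rs p), by fun_prop⟩ }

@[simp] lemma mul_F (x y : W) (p : CDisc) : (x * y).F p = x.F (y.F p) := rfl
@[simp] lemma mul_L (x y : W) (t : ℝ) : (x * y).L t = x.L (y.L t) := rfl
@[simp] lemma mul_z (x y : W) (p : Disc) : (x * y).z p = x.z (y.r p) + y.z p := rfl
@[simp] lemma one_F (p : CDisc) : (1 : W).F p = p := rfl
@[simp] lemma one_L (t : ℝ) : (1 : W).L t = t := rfl
@[simp] lemma one_z (p : Disc) : (1 : W).z p = 0 := rfl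
@[simp] lemma inv_F (x : W) (p : CDisc) : (x⁻¹).F p = x.F.symm p := rfl
@[simp] lemma inv_L (x : W) (t : ℝ) : (x⁻¹).L t = x.L.symm t := rfl
@[simp] lemma inv_z (x : W) (p : Disc) : (x⁻¹).z p = - x.z (x.rs p) := rfl

lemma ext' {x y : W} (h1 : ∀ p, x.F p = y.F p) (h2 : ∀ t, x.L t = y.L t)
    (h3 : ∀ p, x.z p = y.z p) : x = y :=
  W.ext (Homeomorph.ext h1) (Homeomorph.ext h2) (ContinuousMap.ext h3)

@[simp] lemma mul_r (x y : W) (p : Disc) : (x * y).r p = x.r (y.r p) := rfl
@[simp] lemma one_r (p : Disc) : (1 : W).r p = p := rfl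
@[simp] lemma inv_r (x : W) (p : Disc) : (x⁻¹).r p = x.rs p := rfl

noncomputable instance : Group W :=
  Group.ofLeftAxioms
    (fun x y w => ext' (fun _ => rfl) (fun _ => rfl) (fun p => by simp [add_assoc]))
    (fun x => ext' (fun _ => rfl) (fun _ => rfl) (fun p => by simp))
    (fun x => ext' (fun p => by simp) (fun t => by simp) (fun p => by simp))

/-- The action on `Disc × ℝ`. -/
noncomputable def toA : W →* ((Disc × ℝ) ≃ₜ (Disc × ℝ)) where
  toFun w :=
    { toFun := fun y => (w.r y.1, y.2 + w.z y.1)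
      invFun := fun y => (w.rs y.1, y.2 - w.z (w.rs y.1))
      left_inv := fun y => by simp
      right_inv := fun y => by simp
      continuous_toFun := by fun_prop
      continuous_invFun := by fun_prop }
  map_one' := by
    ext y <;> simp
  map_mul' x y := by
    apply Homeomorph.ext
    intro p
    refine Prod.ext rfl ?_
    change p.2 + (x.z (y.r p.1) + y.z p.1) = (p.2 + y.z p.1) + x.z (y.r p.1)
    ring

@[simp] lemma toA_apply (w : W) (y : Disc × ℝ) : toA w y = (w.r y.1, y.2 + w.z y.1) := rfl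

end W

end Pool.Agent.H79.FB
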